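import Pool.Agent.Helper27.BI.H.Hat

/-!
# Project BI, stage 5: the finger push, with an isotopy

`FingB` is `FingOk` with two additional properties, see `m_FINGB`.
-/

set_option autoImplicit false

open scoped Manifold ContDiff Topology ComplexConjugate
open Set Filter Pool.Agent.Helper65.Barb Pool.Agent.Helper18.BI
open Pool.Agent.Helper70.BI (I4 NearEq)
open Pool.Agent.Helper27.BI
open Pool.Agent.Helper27.H

namespace Pool.Agent.Helper27.S5

/-- `FingOk`, and `T` is the end of a family which pushes the tube around the vertical line over `e1` at time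
`t` along the arc `s ↦ (1 - step (step t) * bfin s) • e1`; `T` is the identity off the `1/50`-neighbourhood of the track of the
finger. -/
structure FingB (T T' : R4 → R4) : Prop where
  ok : FingOk T T'
  thin : ∀ (s : ℝ) (x : R3), (∀ τ ∈ Icc (0 : ℝ) 1, (1 / 50) ^ 2 ≤ nsq (x - (1 - τ * bfin s) • e1)) →
    T (s, x) = (s, x)
  fam : ∃ F : DFam 𝓘(ℝ, R4) R4, (∀ x, F.f (0, x) = x) ∧ (∀ x, F.f (1, x) = T x) ∧
    (∀ (t s : ℝ) (y : R3), nsq y ≤ (1 / 100) ^ 2 →
      F.f (t, (s, e1 + y)) = (s, (1 - step (step t) * bfin s) • e1 + y)) ∧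
    (∀ t p, (F.f (t, p)).1 = p.1) ∧
    (∀ (t s : ℝ) (x : R3), (s ≤ 1 / 10 ∨ 9 / 10 ≤ s) → F.f (t, (s, x)) = (s, x)) ∧
    ∀ (t : ℝ) (p : R4), (3 / 10) ^ 2 ≤ rsq 1 p → F.f (t, p) = p

/-- `StFING` with `FingB` -/
def StFINGB : Prop :=
  ∃ (T T' : R4 → R4) (F : DFam 𝓘(ℝ, R4) R4), FingB T T' ∧ LamOk F ∧
    TIso {p | rsq 0 p ≤ 1 / 25} (1 / 100) (fun (_ : Unit) _ => e1) (fun _ _ => e1) barMap
      (fun p => T' (F.f (1, T p)))

/-- **FINGB.** -/
theorem m_FINGB (hCh : StCh) (hCh5 : StCh5) (hspin : StSpin) : StFINGB := by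
  -- the finger push
  have okf : SqOk {p | rsq 0 p ≤ 1 / 25} (1 / 100) (fun i _ q s => fpath i q s) := by
    apply sqOk_of
    · have h := contDiff_gam.comp (f := fun p : ℝ × ℝ × ℝ => (p.2.1, ((0 : ℝ), p.2.2)))
        ((contDiff_fst.comp contDiff_snd).prodMk
          (contDiff_const.prodMk (contDiff_snd.comp contDiff_snd)))
      have e : (fun p : ℝ × ℝ × ℝ => fpath () p.2.1 p.2.2) =
          (fun p : ℝ × ℝ × ℝ => gam p.1 p.2.1 p.2.2) ∘ fun p => (p.2.1, 0, p.2.2) := by
        funext p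
        show fpath () p.2.1 p.2.2 = gam p.2.1 0 p.2.2
        rw [gam_zero]; rfl
      rw [e]
      exact h
    · intro u q s hs
      show fpath () q s = e1
      rw [← gam_end (u := q) (q := 0) hs, gam_zero]; rfl
    · intro u q s
      show _ ≤ nsq (fpath () q s)
      have := nsq_gam_ge q 0 s
      rwa [gam_zero] at this
    · intro u q s
      show nsq (fpath () q s) ≤ _
      have := nsq_gam_le q 0 s
      rwa [gam_zero] at this
  have okl : SqOk {p | rsq 0 p ≤ 1 / 25} (1 / 100) (fun (_ : Unit) _ q s => zq q s) := by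
    apply sqOk_of
    · have h := contDiff_gam.comp (f := fun p : ℝ × ℝ × ℝ => ((1 : ℝ), (p.2.1, p.2.2)))
        (contDiff_const.prodMk contDiff_snd)
      have e : (fun p : ℝ × ℝ × ℝ => zq p.2.1 p.2.2) =
          (fun p : ℝ × ℝ × ℝ => gam p.1 p.2.1 p.2.2) ∘ fun p => (1, p.2.1, p.2.2) := by
        funext p
        show zq p.2.1 p.2.2 = gam 1 p.2.1 p.2.2
        rw [gam_u1]
      rw [e]
      exact h
    · intro u q s hs
      rw [← gam_end (u := 1) (q := q) hs, gam_u1]
    · intro u q s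
      have := nsq_gam_ge 1 q s
      rwa [gam_u1] at this
    · intro u q s
      have := nsq_gam_le 1 q s
      rwa [gam_u1] at this
  have okg : SqOk {p | rsq 0 p ≤ 1 / 25} (1 / 100) (fun (_ : Unit) u q s => gam u q s) :=
    sqOk_of contDiff_gam (fun u q s hs => gam_end hs) (fun u q s => nsq_gam_ge u q s)
      (fun u q s => nsq_gam_le u q s)
  have h01 : (1 : ℝ) ∈ Icc (0 : ℝ) 1 := by simp
  obtain ⟨Ff, f0, fs, fO, ft, ffar, fl, fst⟩ := exists_push5 hCh5 (by norm_num) okf
  obtain ⟨Fl, l0, ls, lO, lt, lfar, ll, lst⟩ := exists_push5 hCh5 (by norm_num) okl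
  have e0' : ∀ s, fpath () 0 s = e1 := by
    intro s; show (1 - step 0 * bfin s) • e1 = e1
    rw [BI.step_zero]; simp
  have e1' : ∀ s, fpath () 1 s = z0 s := by
    intro s; show (1 - step 1 * bfin s) • e1 = z0 s
    rw [BI.step_one]; simp [z0]
  have pf : IsPush {p | rsq 0 p ≤ 1 / 25} (1 / 100) fpath (fun x => Ff.f (1, x)) :=
    ⟨Ff, f0, fun _ => rfl, fs, fun t _ x hx => fO t x hx, fun t _ i s y hy => ft t i s y hy⟩
  have pl : IsPush {p | rsq 0 p ≤ 1 / 25} (1 / 100) (fun (_ : Unit) q s => zq q s)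
      (fun x => Fl.f (1, x)) :=
    ⟨Fl, l0, fun _ => rfl, ls, fun t _ x hx => lO t x hx, fun t _ i s y hy => lt t i s y hy⟩
  have hout : ∀ (t s : ℝ) (x : R3), (s ≤ 1 / 10 ∨ 9 / 10 ≤ s) → Ff.f (t, (s, x)) = (s, x) := by
    intro t s x hs
    apply fst t s
    intro i q hq
    show (1 - step q * bfin s) • e1 = (1 - step 0 * bfin s) • e1
    rw [bfin_out hs]
    simp
  have hfar : ∀ (t : ℝ) (p : R4), (3 / 10) ^ 2 ≤ rsq 1 p → Ff.f (t, p) = p := by
    rintro t ⟨s, x⟩ hp
    apply ffar t s x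
    intro i q hq
    rw [rsq1_eq] at hp
    have hp' : (3 / 10) ^ 2 ≤ nsq (x - e1) := hp
    have e2 : x - fpath i q s = (step q * bfin s) • e1 - (e1 - x) := by
      show x - (1 - step q * bfin s) • e1 = _
      rw [sub_smul, one_smul]; abel
    rw [e2]
    have h3 : nsq ((step q * bfin s) • e1) ≤ (27 / 100) ^ 2 := by
      rw [H.nsq_smul, H.nsq_e1, mul_one]
      obtain ⟨h1, h2⟩ := step_mem q
      have h3 := bfin_nonneg s
      have h4 := bfin_le s
      have h5 : step q * bfin s ≤ 27 / 100 := by nlinarith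
      have h6 : 0 ≤ step q * bfin s := mul_nonneg h1 h3
      nlinarith
    refine nsq_sub_ge (r := 27 / 100) (R := 3 / 10) (by norm_num) (by norm_num) (by norm_num) h3 ?_
    rw [nsq_sub_comm]
    exact hp'
  refine ⟨fun x => Ff.f (1, x), fun x => Ff.g (1, x), Fl, ?_, ?_, ?_⟩
  · refine ⟨⟨?_, ?_, fun x => Ff.gf 1 x, fun x => Ff.fg 1 x, ?_, fun p => fl 1 p, ?_, ?_⟩, ?_,
      Ff, f0, fun _ => rfl, ?_, fl, hout, hfar⟩
    · exact contMDiff_iff_contDiff.1 (Ff.smooth_f.comp (contMDiff_const.prodMk contMDiff_id))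
    · exact contMDiff_iff_contDiff.1 (Ff.smooth_g.comp (contMDiff_const.prodMk contMDiff_id))
    · intro s y hy
      have := ft 1 () s y hy
      rw [e0', BI.step_one, e1'] at this
      exact this
    · exact fun s x hs => hout 1 s x hs
    · exact fun p hp => hfar 1 p hp
    · intro s x hx
      apply ffar 1 s x
      intro i q hq
      have h1 := hx (step q) (step_mem q)
      have h2 : ((2 : ℝ) * (1 / 100)) ^ 2 = (1 / 50) ^ 2 := by norm_num
      rw [h2]
      exact h1
    · intro t s y hy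
      have h1 := ft t () s y hy
      rw [e0'] at h1
      exact h1
  · refine ⟨l0, ?_, ?_⟩
    · intro t s y hy
      have := lt t () s y hy
      rw [zq_zero] at this
      exact this
    · rintro t ⟨s, x⟩ hp
      by_cases hs : s ≤ 9 / 20 ∨ 11 / 20 ≤ s
      · apply lst t s
        intro i q hq
        show zq q s = zq 0 s
        rw [zq_out q hs, zq_out 0 hs]
      push Not at hs
      have hb : bfin s = 27 / 100 := bfin_mid ⟨by linarith [hs.1], by linarith [hs.2]⟩
      have hn : ∀ q, nsq (zq q s) = (73 / 100) ^ 2 := by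
        intro q
        unfold zq
        rw [H.nsq_smul, H.nsq_barPath, hb]
        norm_num
      apply lfar t s x
      intro i q hq
      have hx : nsq x < (71 / 100) ^ 2 ∨ (3 / 4) ^ 2 < nsq x := by
        by_contra h
        push Not at h
        apply hp
        refine ⟨hs.1.le, hs.2.le, ?_, ?_⟩
        · rw [rsq0_eq]; exact h.1
        · rw [rsq0_eq]; exact h.2
      rcases hx with hx | hx
      · exact nsq_sub_ge (r := 71 / 100) (R := 73 / 100) (by norm_num) (by norm_num) (by norm_num)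
          hx.le (hn q).ge
      · rw [nsq_sub_comm]
        exact nsq_sub_ge (r := 73 / 100) (R := 3 / 4) (by norm_num) (by norm_num) (by norm_num)
          (hn q).le hx.le
  · have pb : IsPush {p | rsq 0 p ≤ 1 / 25} (1 / 100) barPath barMap :=
      (isPush_barMap hspin).mono (fun p hp => le_trans (show rsq 0 p ≤ 1 / 25 from hp) (by norm_num))
        (by norm_num) (by norm_num)
    have sqr := square hCh (by norm_num) okg (Θ1 := barMap) (Θ2 := fun x => Ff.f (1, x))
      (Θ3 := fun x => Ff.f (1, x)) (Θ4 := fun x => Fl.f (1, x))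
      (pb.congr (by intro i q hq s; exact (gam_u0 q s).symm))
      (pf.congr (by intro i q hq s; exact (gam_one q s).symm))
      (pf.congr (by intro i q hq s; exact (gam_zero q s).symm))
      (pl.congr (by intro i q hq s; exact (gam_u1 q s).symm))
    have tf : TIso {p | rsq 0 p ≤ 1 / 25} (1 / 100) (fun (_ : Unit) _ => e1) (fun _ => z0)
        (fun x => Ff.f (1, x)) (fun x => Ff.f (1, x)) := by
      have := pf.tIso
      have e3 : (fun i : Unit => fpath i 0) = fun _ _ => e1 := by
        funext i s; exact e0' s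
      have e4 : (fun i : Unit => fpath i 1) = fun _ => z0 := by
        funext i s; exact e1' s
      rwa [e3, e4] at this
    have sqr' : TIso {p | rsq 0 p ≤ 1 / 25} (1 / 100) (fun (_ : Unit) _ => e1) (fun _ => z0)
        (fun x => Ff.f (1, barMap x)) (fun x => Fl.f (1, Ff.f (1, x))) := by
      have e3 : (fun _ : Unit => gam 0 0) = fun _ _ => e1 := by
        funext i s; rw [gam_u0, barPath_zero]
      have e4 : (fun _ : Unit => gam 1 1) = fun _ => z0 := by
        funext i s; rw [gam_u1, zq_one]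
      rwa [e3, e4] at sqr
    have ti : TIso {p | rsq 0 p ≤ 1 / 25} (1 / 100) (fun (_ : Unit) => z0) (fun _ _ => e1)
        (fun x => Ff.g (1, x)) (fun x => Ff.g (1, x)) :=
      tf.inv (fun x => Ff.fg 1 x) (fun x => Ff.fg 1 x)
    have := ti.comp sqr'
    have e5 : (fun x => Ff.g (1, Ff.f (1, barMap x))) = barMap := by
      funext x; exact Ff.gf 1 _
    rwa [e5] at this


theorem hFINGB : StFINGB := m_FINGB hCh hCh5 hSpin

end Pool.Agent.Helper27.S5
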