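import Pool.Agent.Helper27.BI.S5.CRNb
import Pool.Agent.Helper27.BI.H.Hat

/-!
# Project BI, stage 5: the crossing lemma for nice spheres
-/

set_option autoImplicit false
set_option linter.unusedSectionVars false

open scoped Manifold ContDiff Topology ComplexConjugate
open Set Filter Pool.Agent.Helper65.Barb Pool.Agent.Helper18.BI
open Pool.Agent.Helper70.BI (I4 LD NearEq IsW ld_iff embOn_comp)
open Pool.Agent.Helper27.BI (e1)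
open Pool.Agent.Helper27.H
open Pool.Agent.Helper18.BI.H (mm)
open Pool.Agent.Helper18.BI.R (LoopOK SH HasCl shp StHCL S2 bp)
open Pool.Agent.Helper18.BI.S5 (SqOK StSQS HatD DR StEX)
open Pool.Agent.Helper34.S5 (StCRN NicePath fill pcat hcirc BH Bs dr_of_bh dr_trans dr_symm Gc)

namespace Pool.Agent.Helper27.S5

namespace CRN

/-- the crossing lemma for the spheres with spirals -/
theorem dr_spiral (hSQS : StSQS) (hGP1X : StGP1X) (hHCL : StHCL) (hXL : StXL) (hSHD : StSHD)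
    {F : R4 → R4} {δ₀ τ δ' κ β δ₁ : ℝ} {g g' : R3 → R4} (hF : EmbOn I4 F (SP ∪ shell δ₀))
    (hSQF : ∀ δ δ' κ β : ℝ, Par δ δ' κ β → δ' ≤ δ₀ → ∀ g : R3 → R4, ContinuousOn g S2 →
      (∀ m ∈ S2, 9 / 10 ≤ m.1 → g m = F (1 / 2, (73 / 100, ((10 * (1 - m.1) * τ : ℝ) : ℂ)))) →
      (∀ m ∈ S2, m.1 ≤ 9 / 10 → ∀ p ∈ XX δ' κ β, g m ≠ F (sq 0 p)) →
      ∃ ε₀ > 0, ∀ ε ∈ Ioo 0 ε₀, ∃ (f : ℝ → ℝ → R4) (H : ℝ × ℝ × ℝ → R4),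
        ContinuousOn (fun z : ℝ × ℝ => f z.1 z.2)
          (Icc (0 : ℝ) 1 ×ˢ Icc (9 / 20 : ℝ) (11 / 20)) ∧
        (∀ q ∈ Icc (0 : ℝ) 1, ∀ s ∈ Icc (9 / 20 : ℝ) (11 / 20),
          (∀ p ∈ XX δ' κ β, f q s ≠ F (sq ε p)) ∧
          ((q = 0 ∨ q = 1 ∨ s = 9 / 20 ∨ s = 11 / 20) → f q s = F (sq ε (s, (73 / 100, 0)))) ∧
          H (0, q, s) = f q s ∧
          H (1, q, s) = g (mm q s) + (F (sq ε (s, (73 / 100, 0))) - bp F)) ∧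
        ContinuousOn H (Icc (0 : ℝ) 1 ×ˢ (Icc (0 : ℝ) 1 ×ˢ Icc (9 / 20 : ℝ) (11 / 20))) ∧
        ∀ u ∈ Icc (0 : ℝ) 1, ∀ q ∈ Icc (0 : ℝ) 1, ∀ s ∈ Icc (9 / 20 : ℝ) (11 / 20),
          (∀ p ∈ wallS δ ∪ wallS δ', H (u, q, s) ≠ F (sq ε p)) ∧
          ((q = 0 ∨ q = 1 ∨ s = 9 / 20 ∨ s = 11 / 20) →
            H (u, q, s) = F (sq ε (s, (73 / 100, 0)))))
    (hδ₁ : 0 < δ₁) (hδ' : δ' ≤ δ₀) (hp : ∀ δ ∈ Ioo 0 δ₁, Par δ δ' κ β) (hg : NS F τ δ' κ β g)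
    (hg' : NS F τ δ' κ β g') (hB : BHO F (sq 0 '' wallS δ') g g') : DR F g g' := by
  have hpm : Par (δ₁ / 2) δ' κ β := hp _ ⟨by linarith, by linarith⟩
  have d' := Geo.hδ' hpm
  obtain ⟨εh, h1, eh⟩ := hSHD F δ₀ δ' g g' hF hδ' d' hB
  have hLc : IsCompact (SP ∪ shell δ₀) := (hS4.2.2.2.2.2.2.2.2.1).union (isCompact_shell δ₀)
  obtain ⟨εK, h2, eK⟩ := hT6 R4 R4 I4 R4 F (K3 δ') _ (isCompact_K3 δ') hLc (fun p hp => by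
    rcases sq0_K3 hp with h | h
    · exact Or.inl h
    · exact Or.inr ⟨h.1, by linarith [h.2.1], h.2.2⟩) hF
  refine ⟨1, one_pos, δ₁, hδ₁, fun δ hδ => ?_⟩
  have hP := hp δ hδ
  obtain ⟨ε1, h3, e1⟩ := hSQF δ δ' κ β hP hδ' g hg.cont hg.coll hg.off
  obtain ⟨ε2, h4, e2⟩ := hSQF δ δ' κ β hP hδ' g' hg'.cont hg'.coll hg'.off
  refine ⟨min (min εh εK) (min ε1 ε2), by positivity, ?_⟩
  rintro ε ⟨hε, hε'⟩ D hD - W χ χ' hW hχ hχ'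
  have i1 : ε ∈ Ioo 0 εh := ⟨hε, lt_of_lt_of_le hε' ((min_le_left _ _).trans (min_le_left _ _))⟩
  have i2 : ε ∈ Ioo 0 εK := ⟨hε, lt_of_lt_of_le hε' ((min_le_left _ _).trans (min_le_right _ _))⟩
  have i3 : ε ∈ Ioo 0 ε1 := ⟨hε, lt_of_lt_of_le hε' ((min_le_right _ _).trans (min_le_left _ _))⟩
  have i4 : ε ∈ Ioo 0 ε2 := ⟨hε, lt_of_lt_of_le hε' ((min_le_right _ _).trans (min_le_right _ _))⟩
  obtain ⟨T, T', hfb, -, -, hDo⟩ := hD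
  have hG : EmbOn I4 (fun p => F (sq ε p)) (K3 δ') := (eK ε i2).1
  obtain ⟨D', hD'⟩ := hHARC T T' (fun p => F (sq ε p)) δ' hfb.ok d' hG
  obtain ⟨f, Hf, a1, a2, a3, a4⟩ := e1 ε i3
  obtain ⟨f', Hf', b1, b2, b3, b4⟩ := e2 ε i4
  obtain ⟨χ₁, c1, c2⟩ := side hSQS hGP1X hHCL hXL hP hfb hG hDo hD' a1 a2 a3 a4 hW hχ
  obtain ⟨χ₂, c3, c4⟩ := side hSQS hGP1X hHCL hXL hP hfb hG hDo hD' b1 b2 b3 b4 hW hχ'
  obtain ⟨Hh, g1, g2, g3⟩ := eh ε i1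
  have hcD' : ∀ s ∈ Icc (9 / 20 : ℝ) (11 / 20), D'.c s = F (sq ε (s, (73 / 100, 0))) := by
    intro s h
    have hs : s ∈ Icc D'.s₀ D'.s₁ := ⟨by linarith [h.1, hD'.s₀.2], by linarith [h.2, hD'.s₁.1]⟩
    have hz : z0 s = ((73 / 100 : ℝ), (0 : ℂ)) := by
      rw [Geo.z0_def, bfin_mid ⟨by linarith [h.1], by linarith [h.2]⟩]
      norm_num
    rw [XF.c_eq hD' hs, hz]
  have c5 : HasCl D' (bp F) (fun q s => g' (mm q s)) χ₁ := by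
    refine (hHCL D' (bp F)).2.2.2.1 _ _ χ₁ c1 ⟨Hh, ?_, fun q hq s hs => ?_,
      fun u hu q hq s hs => ?_⟩
    · rw [hD'.m₀, hD'.m₁]; exact g1
    · rw [hD'.m₀, hD'.m₁] at hs
      obtain ⟨k1, k2⟩ := g2 q hq s hs
      rw [k1, k2, ← hcD' s hs]
      exact ⟨rfl, rfl⟩
    · rw [hD'.m₀, hD'.m₁] at hs
      obtain ⟨k1, k2⟩ := g3 u hu q hq s hs
      refine ⟨?_, fun hb => ?_⟩
      · rw [hD'.U]
        rintro ⟨p, hp1, hp2⟩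
        exact k1 p hp1 hp2.symm
      · rw [hD'.m₀, hD'.m₁] at hb
        rw [k2 hb, hcD' s hs]
  have w1 : WR W χ₁ χ₂ := (hHCL D' (bp F)).2.2.2.2.2.2 W _ χ₁ χ₂ hW c5 c3
  have r0 : CIsot I4 χ χ := (hHCL D (bp F)).2.2.2.2.2.1 _ χ hχ
  have r1 : CIsot I4 χ' χ' := (hHCL D (bp F)).2.2.2.2.2.1 _ χ' hχ'
  exact WR.trans hW r0 (WR.trans hW r0 c2 w1) (WR.symm hW r1 c4)

end CRN

open CRN

/-- **CRN.** -/
theorem m_CRN (hSQS : StSQS) (hGP1X : StGP1X) (hHCL : StHCL) (hXL : StXL) (hSHD : StSHD)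
    (hPRM : StPRM) (hSQF : StSQF') (hEX : StEX) : StCRN := by
  intro F hF
  obtain ⟨δ₀, hδ₀, hFδ, r₀, hr₀, hP⟩ := hPRM F hF
  obtain ⟨τ₀, hτ₀, hS⟩ := hSQF F δ₀ hFδ
  refine ⟨min r₀ τ₀, by positivity, ?_⟩
  intro r hr τ₁ hτ ξ k hξ hξ1 hk hkK hk1
  have hr' : r ∈ Ioo (0 : ℝ) r₀ := ⟨hr.1, lt_of_lt_of_le hr.2 (min_le_left _ _)⟩
  have hτ' : τ₁ ∈ Ioo (0 : ℝ) r₀ := ⟨hτ.1, lt_of_lt_of_le hτ.2 (min_le_left _ _)⟩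
  have hτ2 : 4 / 5 * τ₁ ∈ Ioo (0 : ℝ) τ₀ := by
    have h1 := hτ.1
    have h2 := lt_of_lt_of_le hτ.2 (min_le_right _ _)
    constructor <;> linarith
  obtain ⟨δ', κ, β, δ₁, g, g', a1, a2, a3, a4, a5, a6, a7, a8⟩ :=
    hP r hr' τ₁ hτ' ξ k hξ hξ1 hk hkK hk1
  have hD := dr_spiral hSQS hGP1X hHCL hXL hSHD hFδ (hS _ hτ2) a1 a2 a3 a4 a5 a8
  have bs : ∀ {f f' : R3 → R4}, BH F f f' → ContinuousOn f' S2 → Bs F f' := by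
    rintro f f' ⟨H, h1, h2, h3⟩ hc
    have h01 : (1 : ℝ) ∈ Icc (0 : ℝ) 1 := by simp
    refine ⟨hc, fun m hm => ?_, ?_⟩
    · rw [← h3 m hm]
      exact h1.off 1 h01 m hm
    · rw [← h3 _ Pool.Agent.Helper34.S5.base_mem]
      exact h1.track 1 h01
  have d1 := dr_of_bh hF hHCL a6
  have d2 := dr_symm hHCL hT2 hCI (dr_of_bh hF hHCL a7)
  exact dr_trans hF hHCL hT2 hCI hEX (bs a6 a4.cont) d1
    (dr_trans hF hHCL hT2 hCI hEX (bs a7 a5.cont) hD d2)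

end Pool.Agent.Helper27.S5
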