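import Pool.Agent.Helper27.BI.S5.XLe

/-!
# Project BI, stage 5: the module XL, assembly
-/

set_option autoImplicit false
set_option linter.unusedSectionVars false

open scoped Manifold ContDiff Topology ComplexConjugate
open Set Filter Pool.Agent.Helper65.Barb Pool.Agent.Helper18.BI
open Pool.Agent.Helper70.BI (I4 LD NearEq IsW ld_iff embOn_comp ld_dfam contDiff_dfam
  contDiff_dfam_inv StMWL)
open Pool.Agent.Helper27.BI (e1)
open Pool.Agent.Helper27.H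
open Pool.Agent.Helper18.BI.R (LoopOK SH StHCL HasCl shp)

namespace Pool.Agent.Helper27.S5

namespace XL

section sys
variable {G T T' : R4 → R4} {δ δ' κ β c : ℝ} {D D' : ArcD} {H : DFam 𝓘(ℝ, R4) R4} {a b : ℝ}
  (hs : Sys G T T' δ δ' κ β c D D' H a b)
  {cc : ℝ → ℝ → R4} {F : DFam 𝓘(ℝ, R4) R4} (hM : Mov G δ' κ β c D cc F a b)
include hs

/-- the second wall is the first wall of a small copy -/
theorem wall2_eq : (fun p => G (sg κ β p)) '' wallS δ' = G '' wall2 δ' κ β := by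
  have h : sg κ β '' wallS δ' = wall2 δ' κ β := by
    ext p
    constructor
    · rintro ⟨q, hq, rfl⟩
      show sgi κ β (sg κ β q) ∈ wallS δ'
      rw [Geo.sgi_sg hs.par.k0]
      exact hq
    · intro hp
      exact ⟨sgi κ β p, hp, Geo.sg_sgi hs.par.k0 β p⟩
  rw [← h, image_image]

theorem emb_sg : EmbOn I4 (fun p => G (sg κ β p)) Bq := by
  have k0 := hs.par.k0
  have h1 : EmbOn I4 (sg κ β) Bq := by
    refine ⟨fun p _ => Geo.ld_of_inv (Geo.contDiff_sg κ β) (Geo.contDiff_sgi κ β)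
      (Geo.sgi_sg k0 β) (Geo.sg_sgi k0 β) p, fun p _ q _ h => ?_⟩
    rw [← Geo.sgi_sg k0 β p, h, Geo.sgi_sg k0]
  refine embOn_comp hs.emb h1 ?_
  rintro p ⟨h2, h3, h4⟩
  have e : nsq ((sg κ β p).2 - P2 β) = κ ^ 2 * rsq 1 p := by
    have := Geo.nsq_sgi k0 β (sg κ β p)
    rwa [Geo.sgi_sg k0] at this
  have h5 : nsq ((sg κ β p).2 - P2 β) ≤ κ ^ 2 := by
    rw [e]
    have : 0 < κ ^ 2 := by positivity
    nlinarith
  have h6 := Geo.rsq_lo hs.par h5
  have h7 := Geo.rsq_hi hs.par h5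
  have d0 := (Geo.hδ' hs.par).1
  have d1 := hs.par.d0
  set q : R4 := sg κ β p with hq
  have hq1 : q.1 = p.1 := rfl
  rw [Geo.rsq1] at h7
  have a1 : |q.2.1 - 1| ≤ 1 / 5 := by
    apply abs_le_of_sq_le_sq _ (by norm_num)
    nlinarith [sq_nonneg q.2.2.re, sq_nonneg q.2.2.im]
  rw [abs_le] at a1
  have e0 : rsq 0 q = q.2.1 ^ 2 + q.2.2.re ^ 2 + q.2.2.im ^ 2 := by
    rw [rsq0_eq, Geo.nsq_def]
  refine ⟨⟨by rw [hq1]; linarith, by rw [hq1]; linarith, ?_⟩, ?_, by linarith⟩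
  · rw [e0]; nlinarith
  · rw [e0]; nlinarith [sq_nonneg q.2.2.re, sq_nonneg q.2.2.im]

include hM

/-- the second factor -/
theorem factor2 (hPF : StPF) (hTCF : StTCF) (hJO : StJO) (hN2 : StN2) (hHCL : StHCL)
    {S S' M M' : R4 → R4} {D₂ : ArcD} (hS : SHat c S S') (hMO : MOk δ' H S' M M')
    (hD2 : D2Ok G M M' δ' κ β a b D₂) {A B : DFam 𝓘(ℝ, R4) R4} (hB0 : ∀ x, B.f (0, x) = x)
    (hA : SuppU (U2 G δ' κ β \ A2 G H β a b) A) (hB : SuppU (U2 G δ' κ β \ D'.A) B)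
    (hAB : ∀ t x, A.f (t, B.f (t, x)) = F.f (step (step t), x))
    {K' : Set R4} (hK' : IsCompact K') (hK's : K' ⊆ U2 G δ' κ β \ (D'.A ∪ A2 G H β a b))
    (hBK : ∀ x, x ∉ K' → B.f (1, x) = x) {W : R4 → R4} (hW : IsW W) :
    CIsot I4 (imp (EE G H δ' κ β) K' (fun x => B.f (1, x)))
      (imp (EE G H δ' κ β) K' (fun x => B.f (1, x))) ∧
    (CIsot I4 (fun x => x) (imp (EE G H δ' κ β) K' (fun x => B.f (1, x))) ∨
      CIsot I4 (fun x => x) (fun x => W (imp (EE G H δ' κ β) K' (fun x => B.f (1, x)) x))) := by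
  set E : R4 → R4 := imp (EE G H δ' κ β) K' (fun x => B.f (1, x)) with hE
  obtain ⟨hjo, hjom, hjof, hjoc⟩ := hJO G T T' S S' M M' δ δ' κ β c D D' D₂ H a b hs hS hMO hD2
  obtain ⟨h1, h2⟩ := hjoc K' _ _ hK' hK's (sdiff_of hBK)
  have hEE : CIsot I4 E E := ci_trans h2 (ci_symm h2)
  have hK'2 : K' ⊆ U2 G δ' κ β \ D'.A := fun x hx =>
    ⟨(hK's hx).1, fun h => (hK's hx).2 (Or.inl h)⟩
  obtain ⟨B', b1, b2, b3, b4, b5⟩ := pc hPF hTCF hjo hjom hB0 hB hK' hK'2 hBK h1 h2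
  have hz : ∀ s ∈ Ioo D₂.s₀ D₂.s₁, s ∈ Ioo a b ∧ D₂.c s = jo G S' δ' κ β (G (s, z2 c β s)) ∧
      G (s, z2 c β s) ∈ U2 G δ' κ β \ D'.A := by
    intro s h
    have h' : s ∈ Ioo a b := by rw [← hD2.s₀, ← hD2.s₁]; exact h
    refine ⟨h', ?_, z2_U2 hs h', z2_nA hs ⟨h'.1.le, h'.2.le⟩⟩
    rw [← D₂.core s ⟨h.1.le, h.2.le⟩, (hjof s h').self_of_nhds]
    show jo G S' δ' κ β (G (H.f (1, (s, P2 β + 0)))) = _
    rw [add_zero, H_z2 hs]
  have hBx : ∀ t, ∀ s ∈ Ioo a b, (s < 9 / 20 ∨ 11 / 20 < s) →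
      B.f (t, G (s, z2 c β s)) = G (s, z2 c β s) := by
    intro t s h h'
    have h3 : s ∈ Icc a b := ⟨h.1.le, h.2.le⟩
    obtain ⟨K, -, hKs, hAK⟩ := hA
    have hn : G (s, z2 c β s) ∉ K := fun h4 => (hKs h4).2 ((mem_A2 hs).2 ⟨s, h3, rfl⟩)
    have e1 := hAB t (G (s, z2 c β s))
    rw [F_z2_fro hs hM h3 h' (step_mem _)] at e1
    have e2 := A.gf t (B.f (t, G (s, z2 c β s)))
    rw [e1] at e2
    have e3 := A.gf t (G (s, z2 c β s))
    rw [hAK t _ hn] at e3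
    rw [← e2, e3]
  obtain ⟨l1, l2⟩ := lo_spec b1 b2 b4 (by
    intro t s h h'
    rw [hD2.m₀, hD2.m₁] at h'
    obtain ⟨g1, g2, g3⟩ := hz s h
    rw [g2, b3 t _ g3, hBx t s g1 h'])
  have hcls : D₂.Cls (lo D₂ B') E := cls_congr b5 l2
  refine ⟨hEE, ?_⟩
  have hnull := hN2 δ' (fun p => G (sg κ β p)) D₂ (lo D₂ B') (Geo.hδ' hs.par) (emb_sg hs)
    (by rw [hD2.U, wall2_eq hs]) l1
  exact wr_of_sh hHCL hW l1 (loopOK_const D₂) hnull hcls (hCls D₂).2.2.2.2.2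

end sys

end XL

open XL

/-- **XL.** -/
theorem m_XL (hTHAT : StTHAT) (hARC2 : StARC2) (hSHAT : StSHAT) (hMH : StMH) (hD2 : StD2)
    (hEXA : StEXA) (hSPL : StSPL) (hE1 : StE1) (hIO1 : StIO1) (hIO2 : StIO2) (hIO3 : StIO3)
    (hJO : StJO) (hPF : StPF) (hTCF : StTCF) (hN2 : StN2) (hHCL : StHCL) (hMWL : StMWL) :
    StXL := by
  intro G T T' δ δ' κ β D D' cc W χ χ' hW hp hfb hG hD hD' hcc hX hemb hcurv hχ hχ'
  obtain ⟨F, F0, hFs, hFt, ⟨N, hN, hsN, hN1, hN2'⟩, hFK⟩ :=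
    m_XF' G T' δ δ' κ β D cc χ hp hG hD hcc hX hemb hχ
  obtain ⟨n, hn⟩ := exists_n hN hsN
  set c : ℝ := 1 / ((n : ℝ) + 2) with hc
  have hc0 : 0 < c := by positivity
  have hc1 : c < 1 := by
    rw [hc, div_lt_one (by positivity)]
    have : (0 : ℝ) ≤ n := by positivity
    linarith
  have hb : 0 < β := hp.k0.trans hp.k1
  have hb1 : β < 1 / 5 := by linarith [Geo.num_hi hp, hp.k0]
  have hk1 : κ < 1 := by linarith [Geo.num_k hp]
  obtain ⟨H, hH⟩ := hTHAT T T' hfb c ⟨hc0, hc1⟩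
  obtain ⟨a, b, hab⟩ := hARC2 δ' κ (Geo.hδ' hp) ⟨hp.k0, hk1⟩
  have hs : Sys G T T' δ δ' κ β c D D' H a b := ⟨hp, hfb, hG, hD, hD', ⟨hc0, hc1⟩, hH, hab⟩
  obtain ⟨S, S', hS⟩ := hSHAT T T' hfb c ⟨hc0, hc1⟩
  obtain ⟨M, M', hMO⟩ := hMH T S S' δ' c H (Geo.hδ' hp) ⟨hc0, hc1⟩ hH hS
  obtain ⟨D₂, hD₂⟩ := hD2 G T T' S S' M M' δ δ' κ β c D D' H a b hs hS hMO
  have hM : Mov G δ' κ β c D cc F a b := by
    refine ⟨F0, hFs, hFt, ?_, ?_, hX, ?_, hcc⟩
    · intro s h y hy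
      obtain ⟨h1, h2⟩ := hn s h y hy
      have hb27 : bfin s = 27 / 100 := bfin_mid ⟨by linarith [h.1], by linarith [h.2]⟩
      have hK : (s, z0 s + y) ∈ K3 δ' := by
        apply Geo.Reg_K3
        rw [Geo.nsq_def] at h2
        have y1 : |y.1| ≤ 1 / 50 := by
          apply abs_le_of_sq_le_sq _ (by norm_num)
          nlinarith [sq_nonneg y.2.re, sq_nonneg y.2.im]
        rw [abs_le] at y1
        have e : rsq 1 (s, z0 s + y) = (-(27 / 100) + y.1) ^ 2 + y.2.re ^ 2 + y.2.im ^ 2 := by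
          rw [Geo.rsq1, Geo.z0_def, hb27]
          simp only [Prod.fst_add, Prod.snd_add, Complex.add_re, Complex.add_im, Complex.zero_re,
            Complex.zero_im]
          ring
        have d0 := (Geo.hδ' hp).1
        refine ⟨by linarith [h.1], by linarith [h.2], ?_, ?_⟩
        · rw [e]
          nlinarith [sq_nonneg y.2.re, sq_nonneg y.2.im]
        · rw [e]
          nlinarith [sq_nonneg y.1]
      apply ld_eventually (hG.1 _ hK)
      have hcont : Continuous fun q : R4 => ((q.1, q.2 - z0 q.1) : R4) := by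
        have := contDiff_z0.continuous
        fun_prop
      have hmem : ((s, (z0 s + y) - z0 s) : R4) ∈ N := by
        rw [add_sub_cancel_left]
        exact h1
      have hev : ∀ᶠ q in 𝓝 ((s, z0 s + y) : R4), ((q.1, q.2 - z0 q.1) : R4) ∈ N :=
        hcont.continuousAt.eventually (hN.mem_nhds hmem)
      filter_upwards [hev] with q hq
      have := hN1 _ hq
      simp only [add_sub_cancel] at this
      exact this
    · intro t ht s h h'
      have hl : lam c s = c := Geo.lam_mid c ⟨by linarith [h.1], by linarith [h.2]⟩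
      have hy : nsq ((lam c s * β) • eu) ≤ (c * (41 / 200)) ^ 2 := by
        rw [hl, Pool.Agent.Helper27.H.nsq_smul]
        have : nsq eu = 1 := by simp [Geo.nsq_def, eu]
        rw [this, mul_one]
        apply pow_le_pow_left₀ (by positivity)
        nlinarith
      exact hN2' t ht (s, (lam c s * β) • eu) (hn s h _ hy).1 h'
    · intro q hq s h s' h' e
      by_cases h1 : s' ≤ 11 / 25 ∨ 14 / 25 ≤ s'
      · exact hX q hq s h (e ▸ mem_image_of_mem _ (z2_XX hs h' h1))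
      · push Not at h1
        refine hcurv n q hq s h s' ⟨h1.1.le, h1.2.le⟩ ?_
        rw [e, z2_mid c β ⟨by linarith [h1.1], by linarith [h1.2]⟩]
        have : c * β = β / (n + 2) := by rw [hc]; ring
        rw [this]
  obtain ⟨K, hK, hKX, hKt, hFK1⟩ := exists_K hs hM
  obtain ⟨k1, k2, k3⟩ := hEXA G T T' δ δ' κ β c D D' H a b hs K _ _ hK hKX hKt (sdiff_of hFK1)
  have hχ1 : CIsot I4 χ (imp (EE G H δ' κ β) K (fun x => F.f (1, x))) :=
    ci_trans (hFK K hK k1 hFK1) k3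
  obtain ⟨A, B, hA0, hB0, hA, hB, hAt, hAB, hAn, hBn⟩ := split hs hM hSPL
  obtain ⟨K₁, hK₁, hK₁s, hAK⟩ := shrink hA hAn
  obtain ⟨K₂, hK₂, hK₂s, hBK⟩ := shrink hB hBn
  set K' : Set R4 := K ∪ (K₁ ∪ K₂) with hK'def
  have hK' : IsCompact K' := hK.union (hK₁.union hK₂)
  have hK's : K' ⊆ U2 G δ' κ β \ (D'.A ∪ A2 G H β a b) := by
    rintro x (h | h | h)
    · exact k2 h
    · obtain ⟨⟨h1, h2⟩, h3⟩ := hK₁s h
      exact ⟨h1, fun h4 => h4.elim h3 h2⟩
    · obtain ⟨⟨h1, h2⟩, h3⟩ := hK₂s h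
      exact ⟨h1, fun h4 => h4.elim h2 h3⟩
  have hAK' : ∀ x, x ∉ K' → A.f (1, x) = x := fun x hx => hAK x fun h => hx (Or.inr (Or.inl h))
  have hBK' : ∀ x, x ∉ K' → B.f (1, x) = x := fun x hx => hBK x fun h => hx (Or.inr (Or.inr h))
  have hinj : InjOn (EE G H δ' κ β) K' :=
    (hE1 G T T' δ δ' κ β c D D' H a b hs).2.mono hK's
  set EA : R4 → R4 := imp (EE G H δ' κ β) K' (fun x => A.f (1, x)) with hEA
  set EB : R4 → R4 := imp (EE G H δ' κ β) K' (fun x => B.f (1, x)) with hEB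
  have hfac : imp (EE G H δ' κ β) K (fun x => F.f (1, x)) = fun x => EA (EB x) := by
    have h1 := (hImp R4 R4 I4 R4 (EE G H δ' κ β) K' (fun x => F.f (1, x)) hinj).2.2.1 K
      subset_union_left hFK1
    have h2 := (hImp R4 R4 I4 R4 (EE G H δ' κ β) K' (fun x => B.f (1, x)) hinj).2.2.2.1
      (fun x => A.f (1, x)) (maps_of hBK')
    rw [← h1]
    funext y
    rw [hEA, hEB, ← h2 y]
    congr 1
    funext x
    have h3 := hAB 1 x
    rw [Pool.Agent.Helper27.BI.step_one, Pool.Agent.Helper27.BI.step_one] at h3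
    exact h3.symm
  rw [hfac] at hχ1
  obtain ⟨f1, f2⟩ := factor1 hs hM hPF hTCF hIO1 hIO2 hIO3 hHCL hA0 hA hAt hK' hK's hAK' hW hχ'
  obtain ⟨g1, g2⟩ := factor2 hs hM hPF hTCF hJO hN2 hHCL hS hMO hD₂ hB0 hA hB hAB hK' hK's hBK' hW
  have hWW := IsW.self hW
  have hWsq : ∀ φ : R4 → R4, CIsot I4 φ φ → CIsot I4 (fun x => W (W (φ x))) φ := by
    intro φ hφ
    have h3 := ci_comp hW.sq hφ
    exact h3
  rcases g2 with g2 | g2
  · -- the second factor is trivial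
    have h1 : CIsot I4 χ EA := ci_trans hχ1 (ci_symm (ci_comp f1 g2))
    rcases f2 with f2 | f2
    · exact Or.inl (ci_trans f2 (ci_symm h1))
    · exact Or.inr (ci_trans f2 (ci_comp hWW (ci_symm h1)))
  · -- the second factor is `W`
    have h0 : CIsot I4 EB W := by
      have h2 : CIsot I4 W (fun x => W (W (EB x))) := ci_comp hWW g2
      exact ci_symm (ci_trans h2 (hWsq EB g1))
    have h1 : CIsot I4 χ (fun x => W (EA x)) := by
      have h2 : CIsot I4 (fun x => EA (EB x)) (fun x => EA (W x)) := ci_comp f1 h0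
      exact ci_trans hχ1 (ci_trans h2 (ci_symm ((hMWL W hW).1 EA f1)))
    have h3 : CIsot I4 (fun x => W (χ x)) EA :=
      ci_trans (ci_comp hWW h1) (hWsq EA f1)
    rcases f2 with f2 | f2
    · exact Or.inr (ci_trans f2 (ci_symm h3))
    · exact Or.inl (ci_trans f2 (ci_symm h1))

end Pool.Agent.Helper27.S5
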