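import Pool.Agent.Helper27.BI.S5.St5g
import Pool.Agent.Helper27.BI.H.M_CUM
import Pool.Agent.Helper27.BI.M_CH

/-!
# Project BI, stage 5: basic facts on the geometry of the two walls
-/

set_option autoImplicit false
set_option linter.unusedSectionVars false

open scoped Manifold ContDiff Topology ComplexConjugate
open Set Filter Pool.Agent.Helper65.Barb Pool.Agent.Helper18.BI
open Pool.Agent.Helper70.BI (I4 LD NearEq IsW embOn_comp ld_comp)
open Pool.Agent.Helper34.BI (rade qe)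
open Pool.Agent.Helper34.BI.RE (rade_eq_rad rsq_rad qe_prf qe_eq qe_low)
open Pool.Agent.Helper27.BI (e1)
open Pool.Agent.Helper27.H

namespace Pool.Agent.Helper27.S5

namespace Geo

/-! ### three-space -/

theorem nsq_def (x : R3) : nsq x = x.1 ^ 2 + x.2.re ^ 2 + x.2.im ^ 2 := rfl

theorem nsq_nn (x : R3) : 0 ≤ nsq x := by
  rw [nsq_def]; positivity

theorem nsq_zero_iff (x : R3) : nsq x = 0 ↔ x = 0 := by
  rw [nsq_def]
  constructor
  · intro h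
    have q1 := sq_nonneg x.1
    have q2 := sq_nonneg x.2.re
    have q3 := sq_nonneg x.2.im
    have h1 : x.1 = 0 := (pow_eq_zero_iff two_ne_zero).1 (le_antisymm (by linarith) q1)
    have h2 : x.2.re = 0 := (pow_eq_zero_iff two_ne_zero).1 (le_antisymm (by linarith) q2)
    have h3 : x.2.im = 0 := (pow_eq_zero_iff two_ne_zero).1 (le_antisymm (by linarith) q3)
    exact Prod.ext h1 (Complex.ext h2 h3)
  · rintro rfl
    simp

theorem continuous_nsq : Continuous nsq := by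
  have h : nsq = fun x : R3 => x.1 ^ 2 + x.2.re ^ 2 + x.2.im ^ 2 := funext nsq_def
  rw [h]
  fun_prop

theorem e1_def : e1 = ((1 : ℝ), (0 : ℂ)) := rfl

theorem P2_sub (β : ℝ) : P2 β - e1 = (0, (β : ℂ)) := by
  unfold P2
  rw [e1_def]
  ext <;> simp

theorem rsq1 (p : R4) : rsq 1 p = (p.2.1 - 1) ^ 2 + p.2.2.re ^ 2 + p.2.2.im ^ 2 := by
  rw [rsq1_eq, nsq_def, e1_def]
  simp

theorem continuous_rsq1 : Continuous (rsq 1) := by
  have h : rsq 1 = fun p : R4 => (p.2.1 - 1) ^ 2 + p.2.2.re ^ 2 + p.2.2.im ^ 2 := funext rsq1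
  rw [h]
  fun_prop

theorem rsq1_nn (p : R4) : 0 ≤ rsq 1 p := by
  rw [rsq1_eq]; exact nsq_nn _

theorem rsq1_zero_iff (p : R4) : rsq 1 p = 0 ↔ p.2 = e1 := by
  rw [rsq1_eq, nsq_zero_iff, sub_eq_zero]

theorem rsq1_pos_iff (p : R4) : 0 < rsq 1 p ↔ p.2 ≠ e1 := by
  rw [lt_iff_le_and_ne, ne_comm, Ne, rsq1_zero_iff]
  exact ⟨fun h => h.2, fun h => ⟨rsq1_nn p, h⟩⟩

/-! ### the similarity -/

section sim
variable {κ : ℝ} (hκ : 0 < κ) (β : ℝ)
include hκ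

theorem sgi_sg (p : R4) : sgi κ β (sg κ β p) = p := by
  unfold sgi sg
  refine Prod.ext rfl ?_
  simp only [add_sub_cancel_left]
  rw [smul_smul, inv_mul_cancel₀ hκ.ne', one_smul]
  abel

theorem sg_sgi (p : R4) : sg κ β (sgi κ β p) = p := by
  unfold sgi sg
  refine Prod.ext rfl ?_
  simp only [add_sub_cancel_left]
  rw [smul_smul, mul_inv_cancel₀ hκ.ne', one_smul]
  abel

theorem rsq_sgi (p : R4) : rsq 1 (sgi κ β p) = nsq (p.2 - P2 β) / κ ^ 2 := by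
  rw [rsq1_eq]
  unfold sgi
  simp only [add_sub_cancel_left]
  rw [H.nsq_smul, inv_pow, inv_mul_eq_div]

theorem nsq_sgi (p : R4) : nsq (p.2 - P2 β) = κ ^ 2 * rsq 1 (sgi κ β p) := by
  rw [rsq_sgi hκ, mul_div_cancel₀]
  positivity

theorem sgi_pos_iff (p : R4) : 0 < rsq 1 (sgi κ β p) ↔ p.2 ≠ P2 β := by
  rw [rsq_sgi hκ]
  have h : 0 < κ ^ 2 := by positivity
  rw [div_pos_iff_of_pos_right h]
  constructor
  · rintro h1 h2
    rw [h2, sub_self] at h1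
    simp [nsq_def] at h1
  · intro h1
    refine lt_of_le_of_ne (nsq_nn _) fun h2 => h1 ?_
    rw [← sub_eq_zero, ← nsq_zero_iff]
    exact h2.symm

end sim

theorem contDiff_sg (κ β : ℝ) : ContDiff ℝ ∞ (sg κ β) := by
  unfold sg
  fun_prop

theorem contDiff_sgi (κ β : ℝ) : ContDiff ℝ ∞ (sgi κ β) := by
  unfold sgi
  fun_prop

theorem sg_fst (κ β : ℝ) (p : R4) : (sg κ β p).1 = p.1 := rfl

theorem sgi_fst (κ β : ℝ) (p : R4) : (sgi κ β p).1 = p.1 := rfl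

theorem continuous_rsq_sgi (κ β : ℝ) : Continuous (fun p => rsq 1 (sgi κ β p)) :=
  continuous_rsq1.comp (contDiff_sgi κ β).continuous

theorem ld_of_inv {f g : R4 → R4} (hf : ContDiff ℝ ∞ f) (hg : ContDiff ℝ ∞ g)
    (h1 : ∀ x, g (f x) = x) (h2 : ∀ x, f (g x) = x) (p : R4) : LD f p := by
  refine ⟨⟨⟨f, g, univ, univ, fun _ _ => mem_univ _, fun _ _ => mem_univ _, fun x _ => h1 x,
    fun x _ => h2 x⟩, isOpen_univ, isOpen_univ, ?_, ?_⟩, mem_univ _, fun _ _ => rfl⟩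
  · exact (contMDiff_iff_contDiff.2 hf).contMDiffOn
  · exact (contMDiff_iff_contDiff.2 hg).contMDiffOn

/-! ### the radial maps -/

section rad
variable {δ : ℝ} (hδ : δ ∈ Ioo (0 : ℝ) (1 / 100))
include hδ

theorem rsq_rade {p : R4} (hp : 0 < rsq 1 p) : rsq 1 (rade δ 1 p) = qe δ (rsq 1 p) := by
  rw [rade_eq_rad]
  exact rsq_rad (qe_prf hδ.1 (by linarith [hδ.2])) 1 p hp

theorem qe_mono : StrictMono (qe δ) := (qe_prf hδ.1 (by linarith [hδ.2])).mono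

theorem qe_lt {q : ℝ} (h : q < 1 / 25 - δ) : qe δ q < 1 / 25 - δ := by
  have h1 := qe_mono hδ h
  rwa [qe_eq hδ.1 le_rfl] at h1

theorem rade_lt {p : R4} (hp : 0 < rsq 1 p) (h : rsq 1 p < 1 / 25 - δ) :
    rsq 1 (rade δ 1 p) < 1 / 25 - δ := by
  rw [rsq_rade hδ hp]
  exact qe_lt hδ h

theorem rade_le {p : R4} (hp : 0 < rsq 1 p) (h : rsq 1 p ≤ 1 / 25 - δ) :
    rsq 1 (rade δ 1 p) ≤ 1 / 25 - δ := by
  rcases h.lt_or_eq with h | h
  · exact (rade_lt hδ hp h).le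
  · rw [rsq_rade hδ hp, h, qe_eq hδ.1 le_rfl]

theorem rade_low' {p : R4} (hp : 0 < rsq 1 p) : 1 / 25 - 3 * δ ≤ rsq 1 (rade δ 1 p) :=
  rade_low hδ hp

theorem rade_fix {p : R4} (hp : 1 / 25 - δ ≤ rsq 1 p) : rade δ 1 p = p := rade_self hδ hp

/-- if the value is far out, the point is fixed -/
theorem rade_out {p : R4} (hp : 0 < rsq 1 p) (h : 1 / 25 - δ ≤ rsq 1 (rade δ 1 p)) :
    rade δ 1 p = p := by
  apply rade_self hδ
  by_contra h1
  push Not at h1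
  exact absurd (rade_lt hδ hp h1) (not_lt.2 h)

variable {κ : ℝ} (hκ : 0 < κ) (β : ℝ)

omit hδ in
theorem rad2_fst (δ κ β : ℝ) (p : R4) : (rad2 δ κ β p).1 = p.1 := rfl

include hκ

omit hδ in
theorem sgi_rad2 (p : R4) : sgi κ β (rad2 δ κ β p) = rade δ 1 (sgi κ β p) := by
  unfold rad2
  rw [sgi_sg hκ]

theorem rad2_fix {p : R4} (hp : 1 / 25 - δ ≤ rsq 1 (sgi κ β p)) : rad2 δ κ β p = p := by
  unfold rad2
  rw [rade_fix hδ hp, sg_sgi hκ]

theorem rad2_low {p : R4} (hp : 0 < rsq 1 (sgi κ β p)) :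
    1 / 25 - 3 * δ ≤ rsq 1 (sgi κ β (rad2 δ κ β p)) := by
  rw [sgi_rad2 hκ]
  exact rade_low' hδ hp

theorem rad2_le {p : R4} (hp : 0 < rsq 1 (sgi κ β p)) (h : rsq 1 (sgi κ β p) ≤ 1 / 25 - δ) :
    rsq 1 (sgi κ β (rad2 δ κ β p)) ≤ 1 / 25 - δ := by
  rw [sgi_rad2 hκ]
  exact rade_le hδ hp h

theorem rad2_emb : EmbOn I4 (rad2 δ κ β) {p | 0 < rsq 1 (sgi κ β p)} := by
  have h1 := rade_emb hδ
  refine ⟨fun p hp => ?_, fun p hp q hq h => ?_⟩
  · have l1 : LD (sgi κ β) p := ld_of_inv (contDiff_sgi κ β) (contDiff_sg κ β)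
      (sg_sgi hκ β) (sgi_sg hκ β) p
    have l2 : LD (rade δ 1) (sgi κ β p) := h1.1 _ hp
    have l3 : LD (sg κ β) (rade δ 1 (sgi κ β p)) := ld_of_inv (contDiff_sg κ β)
      (contDiff_sgi κ β) (sgi_sg hκ β) (sg_sgi hκ β) _
    exact ld_comp (ld_comp l1 l2) l3
  · have h2 : rade δ 1 (sgi κ β p) = rade δ 1 (sgi κ β q) := by
      rw [← sgi_rad2 hκ, ← sgi_rad2 hκ]
      exact congrArg _ h
    have h3 := h1.2 hp hq h2
    rw [← sg_sgi hκ β p, h3, sg_sgi hκ]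

end rad

/-! ### the parameters -/

section par
variable {δ δ' κ β : ℝ} (hp : Par δ δ' κ β)
include hp

theorem hδ : δ ∈ Ioo (0 : ℝ) (1 / 100) := ⟨hp.d0, by linarith [hp.d0, hp.d1, hp.d2]⟩

theorem hδ' : δ' ∈ Ioo (0 : ℝ) (1 / 100) := ⟨by linarith [hp.d0, hp.d1], hp.d2⟩

theorem num_lo : 173 / 1000 < β - κ := by
  by_contra h
  push Not at h
  have h0 : 0 < β - κ := by linarith [hp.k1]
  have h1 := pow_le_pow_left₀ h0.le h 2
  norm_num at h1
  linarith [hp.lo, hp.d2]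

theorem num_hi : β + κ < 1 / 5 := by
  by_contra h
  push Not at h
  have h1 := pow_le_pow_left₀ (by norm_num) h 2
  norm_num at h1
  linarith [hp.hi, hp.d0]

theorem num_k : κ < 7 / 500 := by linarith [num_lo hp, num_hi hp]

/-- the components of a point near the second hole -/
theorem comp {x : R3} (h : nsq (x - P2 β) ≤ κ ^ 2) :
    |x.1 - 1| ≤ κ ∧ β - κ ≤ x.2.re ∧ nsq (x - e1) ≤ (β + κ) ^ 2 := by
  have e : nsq (x - P2 β) = (x.1 - 1) ^ 2 + (x.2.re - β) ^ 2 + x.2.im ^ 2 := by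
    rw [nsq_def]
    unfold P2
    simp
  rw [e] at h
  have k0 := hp.k0
  have a1 : |x.1 - 1| ≤ κ := by
    apply abs_le_of_sq_le_sq _ k0.le
    linarith [sq_nonneg (x.2.re - β), sq_nonneg x.2.im]
  have a2 : |x.2.re - β| ≤ κ := by
    apply abs_le_of_sq_le_sq _ k0.le
    linarith [sq_nonneg (x.1 - 1), sq_nonneg x.2.im]
  refine ⟨a1, by linarith [(abs_le.1 a2).1], ?_⟩
  have e2 : nsq (x - e1) = (x.1 - 1) ^ 2 + x.2.re ^ 2 + x.2.im ^ 2 := by
    rw [nsq_def, e1_def]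
    simp
  rw [e2]
  have := (abs_le.1 a2).2
  have hb : 0 < β := k0.trans hp.k1
  have q1 : x.2.re * β ≤ (β + κ) * β := mul_le_mul_of_nonneg_right (by linarith) hb.le
  linarith

theorem near_of {p : R4} (h : rsq 1 (sgi κ β p) ≤ 1 / 25) : nsq (p.2 - P2 β) ≤ κ ^ 2 := by
  rw [nsq_sgi hp.k0]
  have : 0 < κ ^ 2 := by have := hp.k0; positivity
  linarith [mul_le_mul_of_nonneg_left h this.le]

/-- near the second hole -/
theorem rsq_lo {p : R4} (h : nsq (p.2 - P2 β) ≤ κ ^ 2) : 1 / 25 - δ' < rsq 1 p := by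
  have h1 := (comp hp h).2.1
  have h2 : (β - κ) ^ 2 ≤ rsq 1 p := by
    rw [rsq1]
    have : 0 < β - κ := by linarith [hp.k1]
    linarith [sq_nonneg (p.2.1 - 1), sq_nonneg p.2.2.im, pow_le_pow_left₀ this.le h1 2]
  exact lt_of_lt_of_le hp.lo h2

theorem rsq_hi {p : R4} (h : nsq (p.2 - P2 β) ≤ κ ^ 2) : rsq 1 p < 1 / 25 - 3 * δ := by
  have h1 := (comp hp h).2.2
  rw [← rsq1_eq] at h1
  exact lt_of_le_of_lt h1 hp.hi

theorem line_dist {x : R3} (h : nsq (x - P2 β) ≤ κ ^ 2) (τ : ℝ) :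
    (β - κ) ^ 2 ≤ nsq (x - τ • e1) := by
  have h1 := (comp hp h).2.1
  have e : nsq (x - τ • e1) = (x.1 - τ) ^ 2 + x.2.re ^ 2 + x.2.im ^ 2 := by
    rw [nsq_def, e1_def]
    simp
  rw [e]
  have : 0 < β - κ := by linarith [hp.k1]
  linarith [sq_nonneg (x.1 - τ), sq_nonneg x.2.im, pow_le_pow_left₀ this.le h1 2]

theorem line_dist' {x : R3} (h : nsq (x - P2 β) ≤ κ ^ 2) (τ : ℝ) :
    (1 / 50) ^ 2 ≤ nsq (x - τ • e1) := by
  refine le_trans ?_ (line_dist hp h τ)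
  have := num_lo hp
  exact pow_le_pow_left₀ (by norm_num) (by linarith) 2

theorem not_Chn {p : R4} (h : nsq (p.2 - P2 β) ≤ κ ^ 2) : p ∉ Chn := by
  rintro ⟨-, -, h1, -, -⟩
  have h2 := (comp hp h).1
  have := num_k hp
  rw [abs_lt] at h1
  rw [abs_le] at h2
  linarith [h1.1, h1.2, h2.1, h2.2]

/-- the radial maps commute -/
theorem rad2_rade {p : R4} (h1 : 0 < rsq 1 p) (h2 : 0 < rsq 1 (sgi κ β p)) :
    rad2 δ' κ β (rade δ' 1 p) = rade δ' 1 (rad2 δ' κ β p) := by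
  have k0 := hp.k0
  have d' := hδ' hp
  rcases le_or_gt (1 / 25 - δ') (rsq 1 p) with h3 | h3
  · rw [rade_fix d' h3]
    rcases le_or_gt (1 / 25 - δ') (rsq 1 (sgi κ β p)) with h4 | h4
    · rw [rad2_fix d' k0 β h4, rade_fix d' h3]
    · have h5 := rad2_le d' k0 β h2 h4.le
      have h6 : 1 / 25 - δ' < rsq 1 (rad2 δ' κ β p) :=
        rsq_lo hp (near_of hp (by linarith [d'.1]))
      rw [rade_fix d' h6.le]
  · have h4 : 1 / 25 < rsq 1 (sgi κ β p) := by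
      by_contra h
      push Not at h
      exact absurd (rsq_lo hp (near_of hp h)) (not_lt.2 h3.le)
    have h5 : 1 / 25 < rsq 1 (sgi κ β (rade δ' 1 p)) := by
      by_contra h
      push Not at h
      exact absurd (rsq_lo hp (near_of hp h)) (not_lt.2 (rade_lt d' h1 h3).le)
    rw [rad2_fix d' k0 β (by linarith [d'.1]), rad2_fix d' k0 β (by linarith [d'.1])]

/-- the line over `e1` is fixed by `rad2` -/
theorem sgi_e1 (s : ℝ) : 1 < rsq 1 (sgi κ β (s, e1)) := by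
  rw [rsq_sgi hp.k0]
  have e : nsq (e1 - P2 β) = β ^ 2 := by
    have : e1 - P2 β = -(P2 β - e1) := by abel
    rw [this, P2_sub, nsq_def]
    simp
  have e' : nsq (((s, e1) : R4).2 - P2 β) = β ^ 2 := e
  rw [e', lt_div_iff₀ (by have := hp.k0; positivity), one_mul]
  have h1 := hp.k0
  have h2 := hp.k1
  exact pow_lt_pow_left₀ h2 h1.le two_ne_zero

theorem rad2_e1 (s : ℝ) : rad2 δ' κ β (s, e1) = (s, e1) :=
  rad2_fix (hδ' hp) hp.k0 β (by
    have h1 := sgi_e1 hp s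
    have h2 := (hδ' hp).1
    linarith)

end par

/-! ### the regions -/

theorem isCompact_ball4 : IsCompact ball4 := by
  have h : ball4 = Icc (-1 : ℝ) 2 ×ˢ {x : R3 | nsq x ≤ (9 / 2) ^ 2} := by
    ext p
    constructor
    · rintro ⟨h1, h2, h3⟩
      exact ⟨⟨h1, h2⟩, by rw [rsq0_eq] at h3; exact h3⟩
    · rintro ⟨⟨h1, h2⟩, h3⟩
      exact ⟨h1, h2, by rw [rsq0_eq]; exact h3⟩
  rw [h]
  exact isCompact_Icc.prod (Pool.Agent.Helper27.BI.CH.isCompact_nsq _)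

theorem isClosed_Reg (δ : ℝ) : IsClosed (Reg δ) :=
  (isClosed_le continuous_const continuous_fst).inter
    ((isClosed_le continuous_fst continuous_const).inter
      ((isClosed_le continuous_const continuous_rsq1).inter
        (isClosed_le continuous_rsq1 continuous_const)))

theorem Reg_K3 {δ : ℝ} : Reg δ ⊆ K3 δ := by
  rintro p ⟨h1, h2, h3, h4⟩
  rw [rsq1] at h4
  have a : |p.2.1 - 1| ≤ 7 / 10 := by
    apply abs_le_of_sq_le_sq _ (by norm_num)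
    have q : ((7 : ℝ) / 10) ^ 2 = 49 / 100 := by norm_num
    linarith [sq_nonneg p.2.2.re, sq_nonneg p.2.2.im]
  rw [abs_le] at a
  have e0 : rsq 0 p = p.2.1 ^ 2 + p.2.2.re ^ 2 + p.2.2.im ^ 2 := by
    rw [rsq0_eq, nsq_def]
  refine ⟨⟨by linarith, by linarith, ?_⟩, ?_, h3⟩
  · rw [e0]
    have q : p.2.1 ^ 2 = (p.2.1 - 1) ^ 2 + 2 * p.2.1 - 1 := by ring
    have q' : ((9 : ℝ) / 2) ^ 2 = 81 / 4 := by norm_num
    linarith
  · rw [e0]
    have q : (3 / 10 : ℝ) ^ 2 ≤ p.2.1 ^ 2 := pow_le_pow_left₀ (by norm_num) (by linarith) 2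
    norm_num at q
    linarith [sq_nonneg p.2.2.re, sq_nonneg p.2.2.im]

theorem isCompact_Reg (δ : ℝ) : IsCompact (Reg δ) :=
  (isCompact_K3 δ).of_isClosed_subset (isClosed_Reg δ) Reg_K3

theorem isClosed_wallS (δ : ℝ) : IsClosed (wallS δ) :=
  (isClosed_le continuous_const continuous_fst).inter
    ((isClosed_le continuous_fst continuous_const).inter
      ((isClosed_le continuous_const continuous_rsq1).inter
        (isClosed_le continuous_rsq1 continuous_const)))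

theorem isClosed_wall2 (δ κ β : ℝ) : IsClosed (wall2 δ κ β) :=
  (isClosed_wallS δ).preimage (contDiff_sgi κ β).continuous

theorem isOpen_Chn : IsOpen Chn := by
  have h1 : Continuous fun p : R4 => |p.2.1 - 73 / 100| := by fun_prop
  have h2 : Continuous fun p : R4 => |p.2.2.im| := by fun_prop
  have h3 : Continuous fun p : R4 => p.2.2.re := by fun_prop
  exact (isOpen_lt continuous_const continuous_fst).inter
    ((isOpen_lt continuous_fst continuous_const).inter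
      ((isOpen_lt h1 continuous_const).inter
        ((isOpen_lt h2 continuous_const).inter (isOpen_lt continuous_const h3))))

theorem isClosed_Reg_hol (δ κ β : ℝ) : IsClosed (Reg δ \ hol δ κ β) := by
  have h : Reg δ \ hol δ κ β = Reg δ ∩ {p | 1 / 25 - 3 * δ ≤ rsq 1 (sgi κ β p)} := by
    ext p
    constructor
    · rintro ⟨h1, h2⟩
      refine ⟨h1, ?_⟩
      by_contra h3
      exact h2 ⟨h1.1, h1.2.1, not_le.1 h3⟩
    · rintro ⟨h1, h2⟩
      exact ⟨h1, fun h3 => absurd h3.2.2 (not_lt.2 h2)⟩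
  rw [h]
  exact (isClosed_Reg δ).inter (isClosed_le continuous_const (continuous_rsq_sgi κ β))

theorem isCompact_Reg_hol (δ κ β : ℝ) : IsCompact (Reg δ \ hol δ κ β) :=
  (isCompact_Reg δ).of_isClosed_subset (isClosed_Reg_hol δ κ β) sdiff_subset

theorem isClosed_XX (δ κ β : ℝ) : IsClosed (XX δ κ β) := by
  have h : XX δ κ β = (Reg δ \ hol δ κ β) ∩ Chnᶜ := by
    ext p
    constructor
    · rintro ⟨h1, h2⟩
      exact ⟨⟨h1, fun h => h2 (Or.inl h)⟩, fun h => h2 (Or.inr h)⟩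
    · rintro ⟨⟨h1, h2⟩, h3⟩
      exact ⟨h1, fun h => h.elim h2 h3⟩
  rw [h]
  exact (isClosed_Reg_hol δ κ β).inter isOpen_Chn.isClosed_compl

theorem isCompact_XX (δ κ β : ℝ) : IsCompact (XX δ κ β) :=
  (isCompact_Reg δ).of_isClosed_subset (isClosed_XX δ κ β) sdiff_subset

section par2
variable {δ δ' κ β : ℝ} (hp : Par δ δ' κ β)
include hp

theorem wall_Reg : wallS δ' ⊆ Reg δ' := fun p h =>
  ⟨h.1, h.2.1, h.2.2.1, h.2.2.2.trans (by linarith [(hδ' hp).1])⟩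

theorem wall_Reg' : wallS δ ⊆ Reg δ' := fun p h =>
  ⟨h.1, h.2.1, by linarith [h.2.2.1, hp.d0, hp.d1], h.2.2.2.trans (by linarith [(hδ hp).1])⟩

theorem wall2_near {p : R4} (h : p ∈ wall2 δ' κ β) : nsq (p.2 - P2 β) ≤ κ ^ 2 :=
  near_of hp (by
    have h1 : rsq 1 (sgi κ β p) ≤ 1 / 25 - δ' := h.2.2.2
    linarith [(hδ' hp).1])

theorem hol_near {p : R4} (h : p ∈ hol δ' κ β) : nsq (p.2 - P2 β) ≤ κ ^ 2 :=
  near_of hp (by linarith [(hδ' hp).1, h.2.2])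

theorem near_Reg {p : R4} (h : nsq (p.2 - P2 β) ≤ κ ^ 2) (h0 : 0 ≤ p.1) (h1 : p.1 ≤ 1) :
    p ∈ Reg δ' :=
  ⟨h0, h1, by linarith [rsq_lo hp h, (hδ' hp).1], by linarith [rsq_hi hp h, hp.d0]⟩

theorem wall2_Reg : wall2 δ' κ β ⊆ Reg δ' := fun _ h =>
  near_Reg hp (wall2_near hp h) h.1 h.2.1

theorem Chn_rsq {p : R4} (h : p ∈ Chn) : (1 / 4) ^ 2 < rsq 1 p := by
  obtain ⟨-, -, h1, -, -⟩ := h
  rw [abs_lt] at h1
  rw [rsq1]
  nlinarith [sq_nonneg p.2.2.re, sq_nonneg p.2.2.im]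

theorem wall_XX : wallS δ' ⊆ XX δ' κ β := by
  intro p h
  refine ⟨wall_Reg hp h, ?_⟩
  rintro (h1 | h1)
  · exact absurd (rsq_lo hp (hol_near hp h1)) (not_lt.2 h.2.2.2)
  · have := Chn_rsq hp h1
    have h3 := h.2.2.2
    linarith [(hδ' hp).1]

theorem wall_XX' : wallS δ ⊆ XX δ' κ β := by
  intro p h
  refine ⟨wall_Reg' hp h, ?_⟩
  rintro (h1 | h1)
  · exact absurd (rsq_hi hp (hol_near hp h1)) (not_lt.2 h.2.2.1)
  · have := Chn_rsq hp h1
    have h3 := h.2.2.2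
    linarith [(hδ hp).1]

theorem wall2_XX : wall2 δ' κ β ⊆ XX δ' κ β := by
  intro p h
  refine ⟨wall2_Reg hp h, ?_⟩
  rintro (h1 | h1)
  · have h2 : 1 / 25 - 3 * δ' ≤ rsq 1 (sgi κ β p) := h.2.2.1
    exact absurd h1.2.2 (not_lt.2 h2)
  · exact not_Chn hp (wall2_near hp h) h1

end par2

/-! ### the scale -/

section lam
variable {c : ℝ} (hc : c ∈ Ioo (0 : ℝ) 1)

theorem lam_out (c : ℝ) {s : ℝ} (h : s ≤ 7 / 20 ∨ 13 / 20 ≤ s) : lam c s = 1 := by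
  unfold lam
  have : step ((s - 7 / 20) / (2 / 25)) * step ((13 / 20 - s) / (2 / 25)) = 0 := by
    rcases h with h | h
    · rw [CUM.st0 (by rw [div_nonpos_iff]; right; constructor <;> linarith), zero_mul]
    · rw [CUM.st0 (x := (13 / 20 - s) / (2 / 25))
        (by rw [div_nonpos_iff]; right; constructor <;> linarith), mul_zero]
  rw [this, mul_zero, sub_zero]

theorem lam_mid (c : ℝ) {s : ℝ} (h : s ∈ Icc (43 / 100 : ℝ) (57 / 100)) : lam c s = c := by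
  unfold lam
  rw [CUM.st1 (by rw [le_div_iff₀ (by norm_num)]; linarith [h.1]),
    CUM.st1 (x := (13 / 20 - s) / (2 / 25)) (by rw [le_div_iff₀ (by norm_num)]; linarith [h.2])]
  ring

include hc in
theorem lam_pos (s : ℝ) : 0 < lam c s := by
  unfold lam
  have h1 := CUM.stn ((s - 7 / 20) / (2 / 25))
  have h2 := CUM.stl ((s - 7 / 20) / (2 / 25))
  have h3 := CUM.stn ((13 / 20 - s) / (2 / 25))
  have h4 := CUM.stl ((13 / 20 - s) / (2 / 25))
  have h5 : step ((s - 7 / 20) / (2 / 25)) * step ((13 / 20 - s) / (2 / 25)) ≤ 1 :=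
    mul_le_one₀ h2 h3 h4
  have h7 := mul_le_mul_of_nonneg_left h5 (sub_nonneg.2 hc.2.le)
  linarith [hc.1]

include hc in
theorem lam_le (s : ℝ) : lam c s ≤ 1 := by
  unfold lam
  have h1 := CUM.stn ((s - 7 / 20) / (2 / 25))
  have h3 := CUM.stn ((13 / 20 - s) / (2 / 25))
  have h6 := mul_nonneg (sub_nonneg.2 hc.2.le) (mul_nonneg h1 h3)
  linarith

theorem bfin_of_lam {s : ℝ} (h : lam c s ≠ 1) : bfin s = 27 / 100 := by
  apply bfin_mid
  constructor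
  · by_contra h1
    exact h (lam_out c (Or.inl (by linarith)))
  · by_contra h1
    exact h (lam_out c (Or.inr (by linarith)))

end lam

/-! ### the finger pushes -/

theorem z0_def (s : ℝ) : z0 s = (1 - bfin s, (0 : ℂ)) := by
  unfold z0
  rw [e1_def]
  ext <;> simp

theorem z2_def (c β s : ℝ) : z2 c β s = (1 - bfin s, ((lam c s * β : ℝ) : ℂ)) := by
  unfold z2 eu
  rw [z0_def]
  ext <;> simp

theorem rsq_z2 (c β s : ℝ) : rsq 1 (s, z2 c β s) = bfin s ^ 2 + (lam c s * β) ^ 2 := by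
  rw [rsq1, z2_def]
  simp

theorem nsq_z2 (c β s : ℝ) :
    nsq (z2 c β s - P2 β) = bfin s ^ 2 + (1 - lam c s) ^ 2 * β ^ 2 := by
  rw [z2_def, nsq_def]
  unfold P2
  simp
  ring

theorem nsq_z20 (c β s : ℝ) : nsq (z2 c β s - z0 s) = (lam c s * β) ^ 2 := by
  rw [z2_def, z0_def, nsq_def]
  simp

section hat
variable {T : R4 → R4} {c : ℝ} {H : DFam 𝓘(ℝ, R4) R4} (hH : THat T c H)
include hH

theorem H_ball {p : R4} (h : rsq 1 p ≤ (41 / 200) ^ 2) :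
    H.f (1, p) = (p.1, z0 p.1 + lam c p.1 • (p.2 - e1)) := by
  rw [rsq1_eq] at h
  have h1 := hH.ball p.1 (p.2 - e1) h
  rw [add_sub_cancel] at h1
  exact h1

theorem H_e1 {t s : ℝ} {p : R4} (h : H.g (t, p) = (s, e1)) : p = (s, z0 s) := by
  rw [← hH.line t s, ← h, H.fg]

theorem H_g_line (t s : ℝ) : H.g (t, (s, z0 s)) = (s, e1) := by
  rw [← hH.line t s, H.gf]

/-- the region `{0 ≤ s ≤ 1, rsq 1 ≤ 49/100}` is preserved -/
theorem H_supp_g {t : ℝ} {p : R4} (h : p.1 ≤ 1 / 20 ∨ 19 / 20 ≤ p.1 ∨ 49 / 100 ≤ rsq 1 p) :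
    H.g (t, p) = p := by
  have h1 := hH.supp t p h
  conv_lhs => rw [← h1]
  rw [H.gf]

theorem H_reg_g {t : ℝ} {p : R4} (h0 : 0 ≤ p.1) (h1 : p.1 ≤ 1) (h2 : rsq 1 p ≤ 49 / 100) :
    0 ≤ (H.g (t, p)).1 ∧ (H.g (t, p)).1 ≤ 1 ∧ rsq 1 (H.g (t, p)) ≤ 49 / 100 := by
  by_contra hcon
  have h3 : (H.g (t, p)).1 ≤ 1 / 20 ∨ 19 / 20 ≤ (H.g (t, p)).1 ∨ 49 / 100 ≤ rsq 1 (H.g (t, p)) := by
    by_contra h4
    push Not at h4
    exact hcon ⟨by linarith [h4.1], by linarith [h4.2.1], h4.2.2.le⟩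
  have h4 := hH.supp t _ h3
  rw [H.fg] at h4
  rw [← h4] at hcon
  exact hcon ⟨h0, h1, h2⟩

theorem H_reg_f {t : ℝ} {p : R4} (h0 : 0 ≤ p.1) (h1 : p.1 ≤ 1) (h2 : rsq 1 p ≤ 49 / 100) :
    0 ≤ (H.f (t, p)).1 ∧ (H.f (t, p)).1 ≤ 1 ∧ rsq 1 (H.f (t, p)) ≤ 49 / 100 := by
  by_contra hcon
  have h3 : (H.f (t, p)).1 ≤ 1 / 20 ∨ 19 / 20 ≤ (H.f (t, p)).1 ∨ 49 / 100 ≤ rsq 1 (H.f (t, p)) := by
    by_contra h4
    push Not at h4
    exact hcon ⟨by linarith [h4.1], by linarith [h4.2.1], h4.2.2.le⟩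
  have h4 := H_supp_g hH (t := t) h3
  rw [H.gf] at h4
  rw [← h4] at hcon
  exact hcon ⟨h0, h1, h2⟩

variable {δ δ' κ β : ℝ} (hp : Par δ δ' κ β) (hc : c ∈ Ioo (0 : ℝ) 1)
include hp

theorem H_near {p : R4} (h : nsq (p.2 - P2 β) ≤ κ ^ 2) :
    H.f (1, p) = (p.1, z0 p.1 + lam c p.1 • (p.2 - e1)) := by
  apply H_ball hH
  have h1 := rsq_hi hp h
  have := hp.d0
  norm_num
  linarith

theorem H_P2 (s : ℝ) : H.f (1, (s, P2 β)) = (s, z2 c β s) := by
  have h : nsq (((s, P2 β) : R4).2 - P2 β) ≤ κ ^ 2 := by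
    show nsq (P2 β - P2 β) ≤ κ ^ 2
    rw [sub_self]
    simp [nsq_def]
    positivity
  rw [H_near hH hp h]
  refine Prod.ext rfl ?_
  show z0 s + lam c s • (P2 β - e1) = z2 c β s
  rw [P2_sub, z2_def, z0_def]
  ext <;> simp

include hc

/-- the images of the points near the second hole -/
theorem H_near_rsq {p : R4} (h : nsq (p.2 - P2 β) ≤ κ ^ 2) :
    1 / 25 - δ' < rsq 1 (H.f (1, p)) ∧ rsq 1 (H.f (1, p)) ≤ 49 / 100 := by
  rw [H_near hH hp h]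
  obtain ⟨h1, h2, h3⟩ := comp hp h
  have e : rsq 1 ((p.1, z0 p.1 + lam c p.1 • (p.2 - e1)) : R4) =
      (-bfin p.1 + lam c p.1 * (p.2.1 - 1)) ^ 2 + (lam c p.1 * p.2.2.re) ^ 2 +
        (lam c p.1 * p.2.2.im) ^ 2 := by
    rw [rsq1, z0_def, e1_def]
    simp
    ring
  rw [e]
  have e2 : nsq (p.2 - e1) = (p.2.1 - 1) ^ 2 + p.2.2.re ^ 2 + p.2.2.im ^ 2 := by
    rw [nsq_def, e1_def]
    simp
  rw [e2] at h3
  have l0 := lam_pos hc p.1
  have l1 := lam_le hc p.1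
  have b0 := bfin_nonneg p.1
  have b1 := bfin_le p.1
  have n1 := num_lo hp
  have n2 := num_hi hp
  have n3 := num_k hp
  have k0 := hp.k0
  have hd := (hδ' hp).1
  have a1 : |lam c p.1 * (p.2.1 - 1)| ≤ κ := by
    rw [abs_mul, abs_of_pos l0]
    calc lam c p.1 * |p.2.1 - 1| ≤ 1 * |p.2.1 - 1| :=
          mul_le_mul_of_nonneg_right l1 (abs_nonneg _)
      _ ≤ κ := by rw [one_mul]; exact h1
  rw [abs_le] at a1
  obtain ⟨a1, a1'⟩ := a1
  constructor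
  · by_cases hl : lam c p.1 = 1
    · rw [hl, one_mul, one_mul, one_mul]
      have q1 : (β - κ) ^ 2 ≤ p.2.2.re ^ 2 :=
        pow_le_pow_left₀ (by linarith [hp.k1]) h2 2
      have q2 := hp.lo
      have q3 := sq_nonneg (-bfin p.1 + (p.2.1 - 1))
      have q4 := sq_nonneg p.2.2.im
      linarith
    · rw [bfin_of_lam hl]
      have q1 : (1 / 4) ^ 2 ≤ (-(27 / 100) + lam c p.1 * (p.2.1 - 1)) ^ 2 := by
        rw [← neg_sq (-(27 / 100) + lam c p.1 * (p.2.1 - 1))]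
        exact pow_le_pow_left₀ (by norm_num) (by linarith) 2
      have q3 := sq_nonneg (lam c p.1 * p.2.2.re)
      have q4 := sq_nonneg (lam c p.1 * p.2.2.im)
      norm_num at q1
      linarith
  · have a2 : (-bfin p.1 + lam c p.1 * (p.2.1 - 1)) ^ 2 ≤ (3 / 10) ^ 2 := by
      apply sq_le_sq'
      · linarith
      · linarith
    have a3 : (lam c p.1 * p.2.2.re) ^ 2 + (lam c p.1 * p.2.2.im) ^ 2 ≤ 1 / 25 := by
      have q0 : (β + κ) ^ 2 ≤ 1 / 25 := by linarith [hp.hi, hp.d0]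
      have q1 : p.2.2.re ^ 2 + p.2.2.im ^ 2 ≤ 1 / 25 := by
        linarith [sq_nonneg (p.2.1 - 1)]
      have q2 : lam c p.1 ^ 2 ≤ 1 := pow_le_one₀ l0.le l1
      have q3 : (lam c p.1 * p.2.2.re) ^ 2 + (lam c p.1 * p.2.2.im) ^ 2 =
          lam c p.1 ^ 2 * (p.2.2.re ^ 2 + p.2.2.im ^ 2) := by ring
      rw [q3]
      calc lam c p.1 ^ 2 * (p.2.2.re ^ 2 + p.2.2.im ^ 2) ≤
            1 * (p.2.2.re ^ 2 + p.2.2.im ^ 2) :=
            mul_le_mul_of_nonneg_right q2 (by positivity)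
        _ ≤ 1 / 25 := by rw [one_mul]; exact q1
    norm_num at a2
    linarith

/-- a point of the line over `P2 β` whose image is outside the second wall -/
theorem H_P2_out {δ₂ a b s : ℝ} (hδ₂ : δ₂ ∈ Ioo (0 : ℝ) (1 / 100)) (hab : Arc2 δ₂ κ a b)
    (hs : s ∉ Icc a b) : rsq 1 (sgi κ β (s, z2 c β s)) ≤ 1 / 25 - δ₂ := by
  have h1 := hab.out s (fun h => hs ⟨h.1.le, h.2.le⟩)
  have n3 := num_k hp
  have k0 := hp.k0
  have h2 : lam c s = 1 := by
    by_contra hl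
    rw [bfin_of_lam hl] at h1
    have : κ ^ 2 * (1 / 25 - δ₂) ≤ 1 * (1 / 25) := by
      apply mul_le_mul _ (by linarith [hδ₂.1]) (by linarith [hδ₂.2]) (by norm_num)
      nlinarith
    nlinarith
  rw [rsq_sgi hp.k0]
  show nsq (z2 c β s - P2 β) / κ ^ 2 ≤ _
  rw [nsq_z2, h2, div_le_iff₀ (by positivity)]
  nlinarith

end hat

end Geo

end Pool.Agent.Helper27.S5
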