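import Pool.Agent.Helper18.BI.S5.Asm8
import Pool.Agent.Helper27.BI.S5.XLf
import Pool.Agent.Helper27.BI.S5.CRNc
import Pool.Agent.Helper2.BI5.M_TCF
import Pool.Agent.Helper2.BI5.M_GP1X
import Pool.Agent.Helper7.BI5.M_IO3
import Pool.Agent.Helper13.BI5.M_N2a
import Pool.Agent.Helper17.BI5.M_GH
import Pool.Agent.Helper34.BI5.M_PRM
import Pool.Agent.Helper34.BI5.M_SHD
import Pool.Agent.Helper37.BI5.M_ARC2
import Pool.Agent.Helper37.BI5.M_SPL
import Pool.Agent.Helper48.BI5.M_N2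
import Pool.Agent.Helper52.BI5.M_SQF
import Pool.Agent.Helper62.BI5.M_THAT
import Pool.Agent.Helper63.BI5.M_MH
import Pool.Agent.Helper67.BI5.M_IO2
import Pool.Agent.Helper71.BI5.M_HE
import Pool.Agent.Helper71.BI5.M_GHF
import Pool.Agent.Helper73.BI5.M_PF
import Pool.Agent.Helper73.BI5.M_D2
import Pool.Agent.Helper76.BI5.M_IO1
import Pool.Agent.Helper79.BI5.M_SQS
import Pool.Agent.Helper84.BI5.M_E1
import Pool.Agent.Helper85.BI5.M_SHAT
import Pool.Agent.Helper89.BI5.M_N2b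
import Pool.Agent.Helper89.BI5.M_EXA
import Pool.Agent.Helper92.BI5.M_N2c
import Pool.Agent.Helper99.BI5.M_JO

/-!
# Project BI, stage 5: assembly of the crossing lemma
-/

set_option autoImplicit false

open Pool.Agent.Helper18.BI Pool.Agent.Helper65.Barb
open Pool.Agent.Helper70.BI (hMWL hLOC)
open Pool.Agent.Helper27.H (hCH4)
open Pool.Agent.Helper18.BI.R (hHCL)
open Pool.Agent.Helper18.BI.S5 (hEX StFinal8 hFinal8_of_CRN m_SQS)

namespace Pool.Agent.Helper27.S5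

theorem hGH : StGH := m_GH
theorem hHE : StHE := m_HE hGH (m_GHF hGH)
theorem hIO1 : StIO1 := m_IO1 hGH
theorem hN2 : StN2 := m_N2 m_N2a m_N2b (m_N2c hLOC)

theorem hXL : StXL :=
  m_XL (m_THAT hCH4) m_ARC2 (m_SHAT hCH4) m_MH (m_D2 hGH) (m_EXA hHE) (m_SPL hCH4) (m_E1 hGH) hIO1
    (m_IO2 hIO1 hHE) m_IO3 (m_JO hGH) m_PF m_TCF hN2 hHCL hMWL

theorem hCRN_of (hPRM : StPRM) (hSHD : StSHD) : Pool.Agent.Helper34.S5.StCRN :=
  m_CRN m_SQS m_GP1X hHCL hXL hSHD hPRM m_SQF hEX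

theorem hFinal8_of' (hPRM : StPRM) (hSHD : StSHD) : StFinal8 := hFinal8_of_CRN (hCRN_of hPRM hSHD)

/-- **the crossing lemma** -/
theorem hCRN : Pool.Agent.Helper34.S5.StCRN :=
  hCRN_of Pool.Agent.Helper34.S5.m_PRM Pool.Agent.Helper34.S5.m_SHD

/-- **the main theorem of stage 5** -/
theorem hFinal8 : StFinal8 := hFinal8_of_CRN hCRN

end Pool.Agent.Helper27.S5
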