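import Pool.Agent.Helper27.BI.S5.XLa
import Pool.Agent.Helper95.BI5.M_GP1

/-!
# Project BI, stage 5: the channel datum
-/

set_option autoImplicit false
set_option linter.unusedSectionVars false

open scoped Manifold ContDiff Topology ComplexConjugate
open Set Filter Pool.Agent.Helper65.Barb Pool.Agent.Helper18.BI
open Pool.Agent.Helper70.BI (I4 LD NearEq IsW ld_iff)
open Pool.Agent.Helper27.BI (e1)
open Pool.Agent.Helper27.H
open Pool.Agent.Helper18.BI.R (LoopOK SH)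
open Pool.Agent.Helper18.BI.S5.GP1 (base_ne_zero base_injOn deriv_eq_of_eqOn)

namespace Pool.Agent.Helper27.S5

namespace CRN

/-- the finger is in the channel in the middle levels -/
theorem z0_Chn {s : ℝ} (h : s ∈ Ioo (11 / 25 : ℝ) (14 / 25)) : (s, z0 s) ∈ Chn := by
  have e : z0 s = ((73 / 100 : ℝ), (0 : ℂ)) := by
    rw [Geo.z0_def, bfin_mid ⟨by linarith [h.1], by linarith [h.2]⟩]
    norm_num
  rw [e]
  refine ⟨h.1, h.2, ?_, ?_, ?_⟩
  · show |(73 / 100 : ℝ) - 73 / 100| < 1 / 50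
    norm_num
  · show |(0 : ℂ).im| < 1 / 50
    norm_num
  · show -(1 / 50) < (0 : ℂ).re
    norm_num

section hat
variable {G T' : R4 → R4} {δ δ' δ₁ κ β : ℝ} {D : ArcD} (hp : Par δ₁ δ' κ β)
  (hG : EmbOn I4 G (K3 δ')) (hδ : δ ≤ δ') (hD : HatOk δ T' G D)
include hp hδ hD

theorem z0_Reg {s : ℝ} (hs : s ∈ Icc D.s₀ D.s₁) : (s, z0 s) ∈ Reg δ' := by
  have b1 := XF.bge hD hs
  have b2 := bfin_le s
  have b3 := bfin_nonneg s
  have d0 := (Geo.hδ' hp).1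
  refine ⟨by linarith [hD.s₀.1, hs.1], by linarith [hD.s₁.2, hs.2], ?_, ?_⟩
  · rw [rsq1_z0]; linarith
  · rw [rsq1_z0]; nlinarith

theorem z0_XX {s : ℝ} (hs : s ∈ Icc D.s₀ D.s₁) (hs' : s ≤ 11 / 25 ∨ 14 / 25 ≤ s) :
    (s, z0 s) ∈ XX δ' κ β := by
  refine ⟨z0_Reg hp hδ hD hs, ?_⟩
  rintro (h | h)
  · have h1 := Geo.hol_near hp h
    have e : nsq (z0 s - P2 β) = bfin s ^ 2 + β ^ 2 := by
      rw [Geo.z0_def, Geo.nsq_def]
      unfold P2
      simp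
    have h1' : nsq (z0 s - P2 β) ≤ κ ^ 2 := h1
    rw [e] at h1'
    have k0 := hp.k0
    have k1 := hp.k1
    nlinarith [sq_nonneg (bfin s)]
  · obtain ⟨h1, h2, -⟩ := h
    simp only at h1 h2
    rcases hs' with h | h <;> linarith

theorem mid {s : ℝ} (h : s ∈ Icc (11 / 25 : ℝ) (14 / 25)) : s ∈ Icc D.s₀ D.s₁ :=
  ⟨by linarith [hD.s₀.2, h.1], by linarith [hD.s₁.1, h.2]⟩

include hG

theorem z0_nX {s : ℝ} (h : s ∈ Ioo (11 / 25 : ℝ) (14 / 25)) : G (s, z0 s) ∉ G '' XX δ' κ β := by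
  rintro ⟨p, hpX, e⟩
  have h1 : p ∈ K3 δ' := Geo.Reg_K3 hpX.1
  have h2 : (s, z0 s) ∈ K3 δ' := Geo.Reg_K3 (z0_Reg hp hδ hD (mid hp hδ hD ⟨h.1.le, h.2.le⟩))
  have h3 := hG.2 h1 h2 e
  rw [h3] at hpX
  exact hpX.2 (Or.inr (z0_Chn h))

theorem exists_Dc : ∃ Dc : ArcD, Dc.U = (G '' XX δ' κ β)ᶜ ∧ Dc.s₀ = 11 / 25 ∧ Dc.m₀ = 9 / 20 ∧
    Dc.m₁ = 11 / 20 ∧ Dc.s₁ = 14 / 25 ∧ Dc.c = D.c := by
  have hXK : XX δ' κ β ⊆ K3 δ' := fun p h => Geo.Reg_K3 h.1
  have hGc : ContinuousOn G (XX δ' κ β) := fun p h =>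
    (hG.1 p (hXK h)).contMDiffAt.continuousAt.continuousWithinAt
  have hUo : IsOpen (G '' XX δ' κ β)ᶜ :=
    ((Geo.isCompact_XX δ' κ β).image_of_continuousOn hGc).isClosed.isOpen_compl
  have hsegs : seg (11 / 25) (14 / 25) ⊆ seg D.s₀ D.s₁ := fun p h =>
    ⟨by linarith [h.1, hD.s₀.2], by linarith [h.2.1, hD.s₁.1], h.2.2⟩
  have hm : ∀ s ∈ Icc (11 / 25 : ℝ) (14 / 25), s ∈ Icc D.s₀ D.s₁ := fun s h => mid hp hδ hD h
  let Dc : ArcD := {
    U := (G '' XX δ' κ β)ᶜ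
    s₀ := 11 / 25
    m₀ := 9 / 20
    m₁ := 11 / 20
    s₁ := 14 / 25
    J := D.J
    c := D.c
    e := fun x => x
    openU := hUo
    h₀ := by norm_num
    h₁ := by norm_num
    h₂ := by norm_num
    smooth := D.smooth
    core := fun s hs => D.core s (hm s hs)
    emb := ⟨fun p h => D.emb.1 p (hsegs h), D.emb.2.mono hsegs⟩
    mem := fun s hs => by
      rw [XF.c_eq hD (hm s ⟨hs.1.le, hs.2.le⟩)]
      exact z0_nX hp hG hδ hD hs
    off₀ := by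
      rw [XF.c_eq hD (hm _ ⟨le_rfl, by norm_num⟩)]
      exact fun h => h (mem_image_of_mem _ (z0_XX hp hδ hD (hm _ ⟨le_rfl, by norm_num⟩)
        (Or.inl le_rfl)))
    off₁ := by
      rw [XF.c_eq hD (hm _ ⟨by norm_num, le_rfl⟩)]
      exact fun h => h (mem_image_of_mem _ (z0_XX hp hδ hD (hm _ ⟨by norm_num, le_rfl⟩)
        (Or.inr le_rfl)))
    embe := ⟨fun p _ => Geo.ld_of_inv contDiff_id contDiff_id (fun _ => rfl) (fun _ => rfl) p,
      fun _ _ _ _ h => h⟩ }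
  exact ⟨Dc, rfl, rfl, rfl, rfl, rfl, rfl⟩

end hat

/-- a loop of arcs of the channel datum gives an embedded loop of arcs of every datum with the same channel -/
theorem loop_of {G T' : R4 → R4} {δ δ' δ₁ κ β : ℝ} {D Dc : ArcD} (hp : Par δ₁ δ' κ β)
    (hδ : δ ≤ δ') (hD : HatOk δ T' G D) (hWX : wallS δ ⊆ XX δ' κ β)
    (hU : Dc.U = (G '' XX δ' κ β)ᶜ) (hs₀ : Dc.s₀ = 11 / 25) (hm₀ : Dc.m₀ = 9 / 20)
    (hm₁ : Dc.m₁ = 11 / 20) (hs₁ : Dc.s₁ = 14 / 25)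
    (hc : ∀ s ∈ Icc (11 / 25 : ℝ) (14 / 25), Dc.c s = D.c s) {c : ℝ → ℝ → R4}
    (h : LoopOK Dc c) (hemb : ∀ q ∈ Icc (0 : ℝ) 1, InjOn (c q) (Icc Dc.s₀ Dc.s₁) ∧
      ∀ s ∈ Icc Dc.s₀ Dc.s₁, deriv (c q) s ≠ 0) :
    LoopOK D (fun q s => c q s + (D.c s - Dc.c s)) ∧
    ∀ q ∈ Icc (0 : ℝ) 1, InjOn (fun s => c q s + (D.c s - Dc.c s)) (Icc D.s₀ D.s₁) ∧
      ∀ s ∈ Icc D.s₀ D.s₁, deriv (fun s => c q s + (D.c s - Dc.c s)) s ≠ 0 := by
  have hin : ∀ s ∈ Icc (9 / 20 : ℝ) (11 / 20), s ∈ Icc (11 / 25 : ℝ) (14 / 25) := fun s hs =>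
    ⟨by linarith [hs.1], by linarith [hs.2]⟩
  have hcs : ContDiff ℝ ∞ (fun z : ℝ × ℝ => c z.1 z.2 + (D.c z.2 - Dc.c z.2)) := by
    have h2 : ContDiff ℝ ∞ (fun z : ℝ × ℝ => D.c z.2) := D.smooth.comp contDiff_snd
    have h3 : ContDiff ℝ ∞ (fun z : ℝ × ℝ => Dc.c z.2) := Dc.smooth.comp contDiff_snd
    exact h.smooth.add (h2.sub h3)
  have hfr : ∀ q ∈ Icc (0 : ℝ) 1, ∀ s, (s ≤ 9 / 20 ∨ 11 / 20 ≤ s) →
      c q s + (D.c s - Dc.c s) = D.c s := by
    intro q hq s hs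
    rw [h.froz q hq s (by rw [hm₀, hm₁]; exact hs)]
    abel
  have hmid : ∀ q, ∀ s ∈ Icc (11 / 25 : ℝ) (14 / 25), c q s + (D.c s - Dc.c s) = c q s := by
    intro q s hs
    rw [hc s hs, sub_self, add_zero]
  have hXn : ∀ q ∈ Icc (0 : ℝ) 1, ∀ s ∈ Icc (9 / 20 : ℝ) (11 / 20), c q s ∉ G '' XX δ' κ β := by
    intro q hq s hs
    have := h.inU q hq s (by rw [hm₀, hm₁]; exact hs)
    rw [hU] at this
    exact this
  have hbase : ∀ s ∈ Icc D.s₀ D.s₁, (s ≤ 11 / 25 ∨ 14 / 25 ≤ s) → D.c s ∈ G '' XX δ' κ β := by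
    intro s hs hs'
    rw [XF.c_eq hD hs]
    exact mem_image_of_mem _ (z0_XX hp hδ hD hs hs')
  refine ⟨⟨hcs, ?_, ?_, ?_, ?_⟩, fun q hq => ⟨?_, ?_⟩⟩
  · intro q hq s hs
    rw [hD.m₀, hD.m₁] at hs
    exact hfr q hq s hs
  · intro q hq s hs
    rw [hD.m₀, hD.m₁] at hs
    show c q s + (D.c s - Dc.c s) ∈ D.U
    rw [hmid q s (hin s hs), hD.U]
    exact fun h' => hXn q hq s hs (image_mono hWX h')
  · intro s
    show c 0 s + (D.c s - Dc.c s) = D.c s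
    rw [h.start]; abel
  · intro s
    show c 1 s + (D.c s - Dc.c s) = D.c s
    rw [h.stop]; abel
  · -- injectivity
    have key : ∀ s ∈ Icc D.s₀ D.s₁, ∀ t ∈ Icc D.s₀ D.s₁, 9 / 20 < s → s < 11 / 20 →
        c q s + (D.c s - Dc.c s) = c q t + (D.c t - Dc.c t) → s = t := by
      intro s hs t ht h1 h2 e
      have hs1 : s ∈ Icc (9 / 20 : ℝ) (11 / 20) := ⟨h1.le, h2.le⟩
      have hs2 := hin s hs1
      by_cases h3 : t ≤ 11 / 25 ∨ 14 / 25 ≤ t
      · exfalso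
        have h4 := hfr q hq t (by rcases h3 with h3 | h3
                                  · left; linarith
                                  · right; linarith)
        rw [h4, hmid q s hs2] at e
        exact hXn q hq s hs1 (e ▸ hbase t ht h3)
      · push Not at h3
        have h4 : t ∈ Icc (11 / 25 : ℝ) (14 / 25) := ⟨h3.1.le, h3.2.le⟩
        rw [hmid q s hs2, hmid q t h4] at e
        apply (hemb q hq).1 _ _ e
        · rw [hs₀, hs₁]; exact hs2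
        · rw [hs₀, hs₁]; exact h4
    intro s hs t ht e
    by_cases h1 : 9 / 20 < s ∧ s < 11 / 20
    · exact key s hs t ht h1.1 h1.2 e
    · by_cases h2 : 9 / 20 < t ∧ t < 11 / 20
      · exact (key t ht s hs h2.1 h2.2 e.symm).symm
      · have h1' : s ≤ 9 / 20 ∨ 11 / 20 ≤ s := by
          by_contra h3
          push Not at h3
          exact h1 h3
        have h2' : t ≤ 9 / 20 ∨ 11 / 20 ≤ t := by
          by_contra h3
          push Not at h3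
          exact h2 h3
        have e' : c q s + (D.c s - Dc.c s) = c q t + (D.c t - Dc.c t) := e
        rw [hfr q hq s h1', hfr q hq t h2'] at e'
        exact base_injOn D hs ht e'
  · -- immersed
    intro s hs
    have hd1 : Differentiable ℝ (fun s => c q s + (D.c s - Dc.c s)) := by
      have : ContDiff ℝ ∞ (fun s => c q s + (D.c s - Dc.c s)) :=
        hcs.comp (f := fun s : ℝ => (q, s)) (by fun_prop)
      exact this.differentiable (by simp)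
    have hd2 : Differentiable ℝ (c q) := by
      have : ContDiff ℝ ∞ (c q) := h.smooth.comp (f := fun s : ℝ => (q, s)) (by fun_prop)
      exact this.differentiable (by simp)
    have hd3 : Differentiable ℝ D.c := D.smooth.differentiable (by simp)
    rcases le_or_gt s (9 / 20) with h1 | h1
    · rw [deriv_eq_of_eqOn (S := Iic (9 / 20 : ℝ)) hd1 hd3 (uniqueDiffOn_Iic _)
        (fun t ht => hfr q hq t (Or.inl ht)) h1]
      exact base_ne_zero D hs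
    · rcases le_or_gt (11 / 20) s with h2 | h2
      · rw [deriv_eq_of_eqOn (S := Ici (11 / 20 : ℝ)) hd1 hd3 (uniqueDiffOn_Ici _)
          (fun t ht => hfr q hq t (Or.inr ht)) h2]
        exact base_ne_zero D hs
      · have h3 : s ∈ Icc (11 / 25 : ℝ) (14 / 25) := ⟨by linarith, by linarith⟩
        rw [deriv_eq_of_eqOn (S := Icc (11 / 25 : ℝ) (14 / 25)) hd1 hd2
          (uniqueDiffOn_Icc (by norm_num)) (fun t ht => hmid q t ht) h3]
        exact (hemb q hq).2 s (by rw [hs₀, hs₁]; exact h3)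

end CRN

end Pool.Agent.Helper27.S5
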