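import Pool.Agent.Helper27.BI.S5.St5n
import Pool.Agent.Helper34.BI5.StN
import Pool.Agent.Helper34.BI5.VK7

/-!
# Project BI, stage 5: the crossing lemma, statements, part 4: the spheres
-/

set_option autoImplicit false

open scoped Manifold ContDiff Topology ComplexConjugate
open Set Filter Pool.Agent.Helper65.Barb Pool.Agent.Helper18.BI
open Pool.Agent.Helper70.BI (I4 LD NearEq IsW)
open Pool.Agent.Helper27.BI (e1)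
open Pool.Agent.Helper27.H
open Pool.Agent.Helper18.BI.H (mm)
open Pool.Agent.Helper18.BI.R (LoopOK SH S2 bp)
open Pool.Agent.Helper34.S5 (NicePath fill pcat hcirc BH Gc)

namespace Pool.Agent.Helper27.S5

/-- based homotopy off `F '' K` -/
def BHO (F : R4 → R4) (K : Set R4) (f f' : R3 → R4) : Prop :=
  ∃ h : ℝ × R3 → R4, ContinuousOn h (Icc (0 : ℝ) 1 ×ˢ S2) ∧
    (∀ u ∈ Icc (0 : ℝ) 1, h (u, (1, 0)) = bp F) ∧ (∀ m ∈ S2, h (0, m) = f m ∧ h (1, m) = f' m) ∧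
    ∀ u ∈ Icc (0 : ℝ) 1, ∀ m ∈ S2, h (u, m) ∉ F '' K

/-- a sphere as in `StSQF'`: it leaves the bar sideways, and is then off the limit of the forbidden region -/
structure NS (F : R4 → R4) (τ₁ δ' κ β : ℝ) (g : R3 → R4) : Prop where
  cont : ContinuousOn g S2
  coll : ∀ m ∈ S2, 9 / 10 ≤ m.1 →
    g m = F (1 / 2, (73 / 100, ((10 * (1 - m.1) * τ₁ : ℝ) : ℂ)))
  off : ∀ m ∈ S2, m.1 ≤ 9 / 10 → ∀ p ∈ XX δ' κ β, g m ≠ F (sq 0 p)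

/-- MODULE PRM (the parameters; the half circles of radius `r` are replaced by spirals of radius `r₂` in the middle).
Proof.  (0) `emb_open` (`Pool/Agent/Helper27/BI/H/Hat.lean`): `O ⊇ SP` open, `F` is an embedding of `O` and continuous; `exists_shell`: `shell δ₀ ⊆ O`.  `r₀`: `Gc c (0, 1) ∈ O` for `|c| ≤ r₀` and `(1/2, (73/100, w)) ∈ O` for `|w| ≤ r₀`, `r₀ ≤ 1/100`.
(1) `sq 0 p`, `p ∈ XX δ' κ β`: if `rsq 1 p ≤ 1/25` it is `(1/2, p.2)` (`hS4.2.2.1`), with `1/25 - 3 δ' ≤ rsq 1 p`, in `shell δ'`, and `p.2 ≠ P2 β` (otherwise `sgi κ β p = (p.1, e1)`, `p ∈ hol`).  If `rsq 1 p ≥ 1/25`, then it is in `sph 1 ∪ neck` (`hS4.1`; `p.2.1 ≥ 3/10` since `rsq 1 p ≤ 49/100`; compare `sq0_near`).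
(2) `C = k '' S2 ∪ ξ '' [1/2, 1]` is compact, disjoint from `F '' (sph 1 ∪ neck)`; `O' = {p ∈ O | F p ∉ C}` is open and contains `sph 1 ∪ neck`; `exists_shell` for `O'` gives `δ' ≤ δ₀` with `shell δ' ⊆ O'`.  `r₂ ∈ (0, r)` with `(1/5 - r₂)² > 1/25 - δ'`; `β = 1/5 - r₂`; `κ > 0` small, `κ < β`, `κ < r₂`, `(β - κ)² > 1/25 - δ'`;
`δ₁` with `(β + κ)² < 1/25 - 3 δ₁`, `3 δ₁ < δ'`.  (3) spirals `sp σ t = F (Gc (ϱ t * exp (σ π t i)) (0, 1))`, `ϱ t = r₂ + (r - r₂) |2 t - 1|`; `g = fill k (pcat ξ (sp 1))`, `g' = fill k (pcat ξ (sp (-1)))`.  `coll`: `9/10 ≤ m.1`: `g m = ξ (4 (1 - m.1))`, `NicePath.start`: `F (1/2, (73/100, 8 (1 - m.1) τ₁))`.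
`off`: values `k ..` and `ξ t`, `t ≥ 1/2`: by (2) (`F (sq 0 p) ∉ C`).  `ξ t`, `t ∈ [2/5, 1/2]`: `F` of a point `(1/2, (73/100, w))`, `w > 0`, not in `sph 1 ∪ neck ∪ shell δ'` (`rsq 1 > 1/25`), and `F` is injective on `O`.  `sp σ t`: `F` of the point `Gc c (0, 1) = (1/2 + c.re, (1, (1/5 + c.im)))`, `c = ϱ t * exp (σ π t i)`: its first coordinate is
`≠ 1/2` unless `t = 1/2`; for `t = 1/2`, `σ = 1`: `rsq 1 = (1/5 + r₂)² > 1/25`, not on the neck; for `t = 1/2`, `σ = -1`: it is `(1/2, P2 β)`, not in `sq 0 '' XX` by (1) (`rsq 1 = β² < 1/25` so it is not in `sph 1 ∪ neck`).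
(4) `BH`: radii `(1 - u) r + u ϱ t > 0`, `Gc c (0, 1) ∈ sph 1` iff `c = 0` (`|c| < 1/5`), `bh_fill_htpy` (`VK6.lean`).  (5) `BHO` off `sq 0 '' wallS δ'` (`⊆ {p.1 = 1/2, 1/25 - 3 δ' ≤ rsq 1 ≤ 1/25 - δ'}`, `⊆ sq 0 '' XX`: `wallS δ' ⊆ XX` is `Geo.wall_XX`):
`h (u, m) = fill k (pcat ξ (P u)) m`, `P u t = F (Gc (ϱ t * (cos (π t) + i (1 - 2 u) sin (π t))) (0, 1))`: off the wall: if the first coordinate is `1/2` then `t = 1/2`, and the point is `(1/2, (1, 1/5 + (1 - 2 u) r₂))`, `rsq 1 ≥ β² > 1/25 - δ'` (`F` is injective on `O`); `k`, `ξ` as in (3), and in the collar (`t ≤ 2/5`) `ξ t = F (1/2, (73/100, w))`, `rsq 1 ≥ (27/100)²`. -/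
def StPRM : Prop :=
  ∀ F : R4 → R4, EmbOn I4 F SP → ∃ δ₀ > 0, EmbOn I4 F (SP ∪ shell δ₀) ∧ ∃ r₀ > 0,
    ∀ r ∈ Ioo (0 : ℝ) r₀, ∀ τ₁ ∈ Ioo (0 : ℝ) r₀, ∀ (ξ : ℝ → R4) (k : R3 → R4),
      NicePath F τ₁ ξ → ξ 1 = F (Gc r (0, 1)) → ContinuousOn k S2 →
      (∀ m ∈ S2, k m ∉ F '' (sph 1 ∪ neck)) → k (1, 0) = F (Gc (-r) (0, 1)) →
      ∃ (δ' κ β δ₁ : ℝ) (g g' : R3 → R4), 0 < δ₁ ∧ δ' ≤ δ₀ ∧ (∀ δ ∈ Ioo 0 δ₁, Par δ δ' κ β) ∧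
        NS F (4 / 5 * τ₁) δ' κ β g ∧ NS F (4 / 5 * τ₁) δ' κ β g' ∧
        BH F (fill k (pcat ξ (hcirc F r (0, 1) 1))) g ∧
        BH F (fill k (pcat ξ (hcirc F r (0, 1) (-1)))) g' ∧ BHO F (sq 0 '' wallS δ') g g'

/-- MODULE SHD (squares of homotopies off the limit of the wall, for small `ε`).
Proof.  `h` from `BHO`; `H (u, q, s) = h (u, mm q s) + (F (sq ε (s, (73/100, 0))) - bp F)`.  `h '' ([0,1] × S2)` is compact, disjoint from the compact set `F '' (sq 0 '' wallS δ')` (`sq 0 '' wallS δ' ⊆ shell δ' ⊆ shell δ₀`, `F` is continuous on an open `O ⊇ SP ∪ shell δ₀`), at a distance `≥ 2 κ > 0` (`margin`).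
For small `ε`: `F (sq ε p)`, `p ∈ wallS δ'`, is at a distance `< κ` from `F '' (sq 0 '' wallS δ')` (`exists_eps` for the open set `{x ∈ O | dist (F x) (F '' (sq 0 '' wallS δ')) < κ}`), and `‖F (sq ε (s, (73/100, 0))) - bp F‖ ≤ κ/2` for `s ∈ [9/20, 11/20]` (`m_NRB`, as in `exists_margin` of `VK7.lean`).
Boundary: `mm_bd`, `h (u, (1, 0)) = bp F`. -/
def StSHD : Prop :=
  ∀ (F : R4 → R4) (δ₀ δ' : ℝ) (g g' : R3 → R4), EmbOn I4 F (SP ∪ shell δ₀) → δ' ≤ δ₀ →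
    δ' ∈ Ioo (0 : ℝ) (1 / 100) → BHO F (sq 0 '' wallS δ') g g' →
    ∃ ε₀ > 0, ∀ ε ∈ Ioo 0 ε₀, ∃ H : ℝ × ℝ × ℝ → R4,
      ContinuousOn H (Icc (0 : ℝ) 1 ×ˢ (Icc (0 : ℝ) 1 ×ˢ Icc (9 / 20 : ℝ) (11 / 20))) ∧
      (∀ q ∈ Icc (0 : ℝ) 1, ∀ s ∈ Icc (9 / 20 : ℝ) (11 / 20),
        H (0, q, s) = g (mm q s) + (F (sq ε (s, (73 / 100, 0))) - bp F) ∧
        H (1, q, s) = g' (mm q s) + (F (sq ε (s, (73 / 100, 0))) - bp F)) ∧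
      ∀ u ∈ Icc (0 : ℝ) 1, ∀ q ∈ Icc (0 : ℝ) 1, ∀ s ∈ Icc (9 / 20 : ℝ) (11 / 20),
        (∀ p ∈ wallS δ', H (u, q, s) ≠ F (sq ε p)) ∧
        ((q = 0 ∨ q = 1 ∨ s = 9 / 20 ∨ s = 11 / 20) →
          H (u, q, s) = F (sq ε (s, (73 / 100, 0))))

end Pool.Agent.Helper27.S5
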