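import Pool.Agent.Helper27.BI.S5.CRNa
import Pool.Agent.Helper27.BI.H.ArcH
import Pool.Agent.Helper34.BI5.VK7
import Pool.Agent.Helper27.BI.S5.St5c
import Pool.Agent.Helper52.BI5.M_SQF

/-!
# Project BI, stage 5: the crossing lemma for nice spheres, one sphere
-/

set_option autoImplicit false
set_option linter.unusedSectionVars false

open scoped Manifold ContDiff Topology ComplexConjugate
open Set Filter Pool.Agent.Helper65.Barb Pool.Agent.Helper18.BI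
open Pool.Agent.Helper70.BI (I4 LD NearEq IsW ld_iff embOn_comp)
open Pool.Agent.Helper27.BI (e1)
open Pool.Agent.Helper27.H
open Pool.Agent.Helper18.BI.H (mm)
open Pool.Agent.Helper18.BI.R (LoopOK SH HasCl shp StHCL S2 bp)
open Pool.Agent.Helper18.BI.S5 (SqOK StSQS HatD DR)

namespace Pool.Agent.Helper27.S5

namespace CRN

theorem sh_transfer {D Dc : ArcD} {f g f' g' : ℝ → ℝ → R4} (h : SH Dc f g) (hm₀ : Dc.m₀ = D.m₀)
    (hm₁ : Dc.m₁ = D.m₁) (hU : Dc.U ⊆ D.U) (hc : ∀ s ∈ Icc D.m₀ D.m₁, Dc.c s = D.c s)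
    (hf : ∀ q, ∀ s ∈ Icc D.m₀ D.m₁, f' q s = f q s)
    (hg : ∀ q, ∀ s ∈ Icc D.m₀ D.m₁, g' q s = g q s) : SH D f' g' := by
  obtain ⟨H, h1, h2, h3⟩ := h
  rw [hm₀, hm₁] at h1 h2 h3
  refine ⟨H, h1, fun q hq s hs => ?_, fun u hu q hq s hs => ?_⟩
  · rw [hf q s hs, hg q s hs]
    exact h2 q hq s hs
  · obtain ⟨h4, h5⟩ := h3 u hu q hq s hs
    exact ⟨hU h4, fun hb => (h5 hb).trans (hc s hs)⟩

/-- a chain of homotopies of squares -/
theorem hasCl_chain (hHCL : StHCL) {D : ArcD} {y₀ : R4} {c f₁ f₂ h : ℝ → ℝ → R4} {χ : R4 → R4}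
    (hc : LoopOK D c) (hχ : D.Cls c χ) (h1 : SH D c f₁) (h2 : SH D f₁ f₂)
    (h3 : SH D f₂ (shp D y₀ h)) : HasCl D y₀ h χ := by
  have e : ∀ f : ℝ → ℝ → R4, shp D y₀ (fun q s => f q s - (D.c s - y₀)) = f := by
    intro f
    funext q s
    show f q s - (D.c s - y₀) + (D.c s - y₀) = f q s
    abel
  have a1 : HasCl D y₀ (fun q s => f₁ q s - (D.c s - y₀)) χ := ⟨c, hc, hχ, by rw [e]; exact h1⟩
  have a2 : HasCl D y₀ (fun q s => f₂ q s - (D.c s - y₀)) χ := by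
    refine (hHCL D y₀).2.2.2.1 _ _ χ a1 ?_
    rw [e, e]
    exact h2
  refine (hHCL D y₀).2.2.2.1 _ _ χ a2 ?_
  rw [e]
  exact h3

/-- existence of the class -/
theorem exists_cls {D : ArcD} {c : ℝ → ℝ → R4} (h : LoopOK D c)
    (he : ∀ q ∈ Icc (0 : ℝ) 1, InjOn (c q) (Icc D.s₀ D.s₁) ∧
      ∀ s ∈ Icc D.s₀ D.s₁, deriv (c q) s ≠ 0) : ∃ χ, D.Cls c χ :=
  (hCls D).2.2.2.1 _ (XF.htpy_of h) 0 ⟨le_rfl, zero_le_one⟩ fun q hq =>
    ⟨(he q hq).2, (he q hq).1⟩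

/-- the curves to be avoided -/
noncomputable def gn (G : R4 → R4) (β : ℝ) (n : ℕ) (r : ℝ) : R4 :=
  G (2 / 5 + step r / 5, ((73 / 100 : ℝ), ((β / (n + 2) : ℝ) : ℂ)))

section
variable {G T T' : R4 → R4} {δ δ' κ β : ℝ} {D D' : ArcD} (hp : Par δ δ' κ β)
  (hG : EmbOn I4 G (K3 δ'))
include hp

theorem gn_mem (n : ℕ) (s : ℝ) (h : s ∈ Icc (2 / 5 : ℝ) (3 / 5)) :
    ((s, ((73 / 100 : ℝ), ((β / (n + 2) : ℝ) : ℂ))) : R4) ∈ K3 δ' := by
  apply Geo.Reg_K3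
  have hb : 0 < β := hp.k0.trans hp.k1
  have hb1 : β < 1 / 5 := by linarith [Geo.num_hi hp, hp.k0]
  have d0 := (Geo.hδ' hp).1
  have h1 : 0 < β / ((n : ℝ) + 2) := by positivity
  have h2 : β / ((n : ℝ) + 2) ≤ β := by
    rw [div_le_iff₀ (by positivity)]
    have : (0 : ℝ) ≤ n := by positivity
    nlinarith
  have e : rsq 1 ((s, ((73 / 100 : ℝ), ((β / (n + 2) : ℝ) : ℂ))) : R4) =
      (27 / 100) ^ 2 + (β / ((n : ℝ) + 2)) ^ 2 := by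
    rw [Geo.rsq1]
    simp only [Complex.ofReal_re, Complex.ofReal_im]
    ring
  refine ⟨by linarith [h.1], by linarith [h.2], ?_, ?_⟩
  · rw [e]; nlinarith
  · rw [e]; nlinarith

theorem gn_lev (r : ℝ) : 2 / 5 + step r / 5 ∈ Icc (2 / 5 : ℝ) (3 / 5) := by
  obtain ⟨h1, h2⟩ := step_mem r
  constructor <;> linarith

include hG

theorem contDiff_gn (n : ℕ) : ContDiff ℝ ∞ (gn G β n) := by
  rw [contDiff_iff_contDiffAt]
  intro r
  have h1 := (ld_iff.1 (hG.1 _ (gn_mem hp n _ (gn_lev hp r)))).1.self_of_nhds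
  have h2 : ContDiff ℝ ∞ (fun r : ℝ =>
      ((2 / 5 + step r / 5, ((73 / 100 : ℝ), ((β / (n + 2) : ℝ) : ℂ))) : R4)) := by
    have := contDiff_step
    exact (contDiff_const.add (this.div_const _)).prodMk contDiff_const
  exact ContDiffAt.comp r h1 h2.contDiffAt

theorem gn_hits (n : ℕ) {s : ℝ} (h : s ∈ Icc (11 / 25 : ℝ) (14 / 25)) :
    ∃ r, gn G β n r = G (s, ((73 / 100 : ℝ), ((β / (n + 2) : ℝ) : ℂ))) := by
  have h1 : 5 * (s - 2 / 5) ∈ Icc (step 0) (step 1) := by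
    rw [Pool.Agent.Helper27.BI.step_zero, Pool.Agent.Helper27.BI.step_one]
    constructor <;> linarith [h.1, h.2]
  obtain ⟨r, -, hr⟩ := intermediate_value_Icc zero_le_one contDiff_step.continuous.continuousOn h1
  refine ⟨r, ?_⟩
  unfold gn
  rw [hr]
  congr 2
  ring

end

/-- one sphere: its class in `D` is equal up to `W` to a class in `D'` -/
theorem side (hSQS : StSQS) (hGP1X : StGP1X) (hHCL : StHCL) (hXL : StXL)
    {F T T' : R4 → R4} {ε δ δ' κ β : ℝ} {D D' : ArcD} (hp : Par δ δ' κ β) (hfb : FingB T T')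
    (hG : EmbOn I4 (fun p => F (sq ε p)) (K3 δ')) (hD : HatOk δ T' (fun p => F (sq ε p)) D)
    (hD' : HatOk δ' T' (fun p => F (sq ε p)) D') {g : R3 → R4} {f : ℝ → ℝ → R4}
    {Hh : ℝ × ℝ × ℝ → R4}
    (f1 : ContinuousOn (fun z : ℝ × ℝ => f z.1 z.2)
      (Icc (0 : ℝ) 1 ×ˢ Icc (9 / 20 : ℝ) (11 / 20)))
    (f2 : ∀ q ∈ Icc (0 : ℝ) 1, ∀ s ∈ Icc (9 / 20 : ℝ) (11 / 20),
        (∀ p ∈ XX δ' κ β, f q s ≠ F (sq ε p)) ∧
        ((q = 0 ∨ q = 1 ∨ s = 9 / 20 ∨ s = 11 / 20) → f q s = F (sq ε (s, (73 / 100, 0)))) ∧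
        Hh (0, q, s) = f q s ∧
        Hh (1, q, s) = g (mm q s) + (F (sq ε (s, (73 / 100, 0))) - bp F))
    (f3 : ContinuousOn Hh (Icc (0 : ℝ) 1 ×ˢ (Icc (0 : ℝ) 1 ×ˢ Icc (9 / 20 : ℝ) (11 / 20))))
    (f4 : ∀ u ∈ Icc (0 : ℝ) 1, ∀ q ∈ Icc (0 : ℝ) 1, ∀ s ∈ Icc (9 / 20 : ℝ) (11 / 20),
        (∀ p ∈ wallS δ ∪ wallS δ', Hh (u, q, s) ≠ F (sq ε p)) ∧
        ((q = 0 ∨ q = 1 ∨ s = 9 / 20 ∨ s = 11 / 20) →
          Hh (u, q, s) = F (sq ε (s, (73 / 100, 0)))))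
    {W χ : R4 → R4} (hW : IsW W) (hχ : HasCl D (bp F) (fun q s => g (mm q s)) χ) :
    ∃ χ', HasCl D' (bp F) (fun q s => g (mm q s)) χ' ∧ WR W χ χ' := by
  set G : R4 → R4 := fun p => F (sq ε p) with hGdef
  have hδ : δ ≤ δ' := by linarith [hp.d0, hp.d1]
  obtain ⟨Dc, u1, u2, u3, u4, u5, u6⟩ := exists_Dc hp hG hδ hD
  have hz : ∀ s ∈ Icc (9 / 20 : ℝ) (11 / 20), z0 s = ((73 / 100 : ℝ), (0 : ℂ)) := by
    intro s h
    rw [Geo.z0_def, bfin_mid ⟨by linarith [h.1], by linarith [h.2]⟩]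
    norm_num
  have hin : ∀ s ∈ Icc (9 / 20 : ℝ) (11 / 20), s ∈ Icc (11 / 25 : ℝ) (14 / 25) := fun s hs =>
    ⟨by linarith [hs.1], by linarith [hs.2]⟩
  have hcD : ∀ s ∈ Icc (9 / 20 : ℝ) (11 / 20), D.c s = F (sq ε (s, (73 / 100, 0))) := by
    intro s h
    rw [XF.c_eq hD (mid hp hδ hD (hin s h)), hz s h]
  have hcD' : ∀ s ∈ Icc (9 / 20 : ℝ) (11 / 20), D'.c s = F (sq ε (s, (73 / 100, 0))) := by
    intro s h
    rw [XF.c_eq hD' (mid hp le_rfl hD' (hin s h)), hz s h]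
  have hcc : ∀ s ∈ Icc (11 / 25 : ℝ) (14 / 25), D'.c s = D.c s := by
    intro s h
    rw [XF.c_eq hD' (mid hp le_rfl hD' h), XF.c_eq hD (mid hp hδ hD h)]
  have hUD : Dc.U ⊆ D.U := by
    rw [u1, hD.U]
    exact compl_subset_compl.2 (image_mono (Geo.wall_XX' hp))
  have hUD' : Dc.U ⊆ D'.U := by
    rw [u1, hD'.U]
    exact compl_subset_compl.2 (image_mono (Geo.wall_XX hp))
  -- the square in the channel datum
  have hsq : SqOK Dc f := by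
    refine ⟨?_, ?_, ?_⟩
    · rw [u3, u4]; exact f1
    · intro q hq s hs
      rw [u3, u4] at hs
      rw [u1]
      rintro ⟨p, hpX, e⟩
      exact (f2 q hq s hs).1 p hpX e.symm
    · intro q hq s hs hb
      rw [u3, u4] at hs hb
      rw [(f2 q hq s hs).2.1 hb, u6, hcD s hs]
  obtain ⟨c₀, l0, sh0⟩ := hSQS Dc f hsq
  obtain ⟨c₁, l1, emb1, sh1, cur1⟩ := hGP1X Dc c₀ (gn G β) l0 (contDiff_gn hp hG) (by
    intro n s hs r e
    rw [u2, u5] at hs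
    rw [u6, XF.c_eq hD (mid hp hδ hD hs)] at e
    have h1 := hG.2 (Geo.Reg_K3 (z0_Reg hp hδ hD (mid hp hδ hD hs)))
      (gn_mem hp n _ (gn_lev hp r)) e
    have h2 : z0 s = ((73 / 100 : ℝ), ((β / (n + 2) : ℝ) : ℂ)) := congrArg Prod.snd h1
    rw [Geo.z0_def] at h2
    have h3 := congrArg Prod.snd h2
    have h4 : (0 : ℂ) = ((β / (n + 2) : ℝ) : ℂ) := h3
    have h5 : (0 : ℝ) = β / (n + 2) := by exact_mod_cast h4
    have hb : 0 < β := hp.k0.trans hp.k1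
    have h6 : 0 < β / ((n : ℝ) + 2) := by positivity
    linarith)
  have hX1 : ∀ q ∈ Icc (0 : ℝ) 1, ∀ s ∈ Icc (9 / 20 : ℝ) (11 / 20),
      c₁ q s ∉ G '' XX δ' κ β := by
    intro q hq s hs
    have := l1.inU q hq s (by rw [u3, u4]; exact hs)
    rw [u1] at this
    exact this
  obtain ⟨lD, eD⟩ := loop_of hp hδ hD (Geo.wall_XX' hp) u1 u2 u3 u4 u5
    (fun s _ => by rw [u6]) l1 emb1
  obtain ⟨lD', eD'⟩ := loop_of hp le_rfl hD' (Geo.wall_XX hp) u1 u2 u3 u4 u5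
    (fun s hs => by rw [u6]; exact (hcc s hs).symm) l1 emb1
  simp only [u6, sub_self, add_zero] at lD eD lD' eD'
  obtain ⟨χ₁, hχ₁⟩ := exists_cls lD eD
  obtain ⟨χ', hχ'⟩ := exists_cls lD' eD'
  have hx := hXL G T T' δ δ' κ β D D' c₁ W χ₁ χ' hW hp hfb hG hD hD' lD hX1 eD
    (by
      intro n q hq s hs s' hs' e
      obtain ⟨r, hr⟩ := gn_hits hp hG n hs'
      exact cur1 n q hq s (by rw [u2, u5]; exact hin s hs) r (e.trans hr.symm)) hχ₁ hχ'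
  -- the homotopies in `D`
  have shD : ∀ D₁ : ArcD, D₁.m₀ = 9 / 20 → D₁.m₁ = 11 / 20 →
      (∀ s ∈ Icc (9 / 20 : ℝ) (11 / 20), D₁.c s = F (sq ε (s, (73 / 100, 0)))) →
      (∀ x, x ∉ D₁.U → ∃ p ∈ wallS δ ∪ wallS δ', G p = x) →
      SH D₁ f (shp D₁ (bp F) (fun q s => g (mm q s))) := by
    intro D₁ m0 m1 hc hU
    refine ⟨Hh, by rw [m0, m1]; exact f3, fun q hq s hs => ?_, fun u hu q hq s hs => ?_⟩
    · rw [m0, m1] at hs
      obtain ⟨-, -, h3, h4⟩ := f2 q hq s hs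
      refine ⟨h3, ?_⟩
      rw [h4, ← hc s hs]
      rfl
    · rw [m0, m1] at hs
      obtain ⟨h3, h4⟩ := f4 u hu q hq s hs
      refine ⟨?_, fun hb => ?_⟩
      · by_contra hn
        obtain ⟨p, hp1, hp2⟩ := hU _ hn
        exact h3 p hp1 hp2.symm
      · rw [m0, m1] at hb
        rw [h4 hb, hc s hs]
  have hD1 : HasCl D (bp F) (fun q s => g (mm q s)) χ₁ := by
    refine hasCl_chain hHCL lD hχ₁ (f₁ := c₀) (f₂ := f)
      (sh_transfer sh1 (by rw [u3, hD.m₀]) (by rw [u4, hD.m₁]) hUD (fun s _ => by rw [u6])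
        (fun _ _ _ => rfl) (fun _ _ _ => rfl))
      (sh_transfer sh0 (by rw [u3, hD.m₀]) (by rw [u4, hD.m₁]) hUD (fun s _ => by rw [u6])
        (fun _ _ _ => rfl) (fun _ _ _ => rfl))
      (shD D hD.m₀ hD.m₁ hcD ?_)
    intro x hx
    rw [hD.U, mem_compl_iff, not_not] at hx
    obtain ⟨p, hp1, hp2⟩ := hx
    exact ⟨p, Or.inl hp1, hp2⟩
  have hD2 : HasCl D' (bp F) (fun q s => g (mm q s)) χ' := by
    have hc' : ∀ s ∈ Icc D'.m₀ D'.m₁, Dc.c s = D'.c s := by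
      intro s hs
      rw [hD'.m₀, hD'.m₁] at hs
      rw [u6, hcc s (hin s hs)]
    refine hasCl_chain hHCL lD' hχ' (f₁ := c₀) (f₂ := f)
      (sh_transfer sh1 (by rw [u3, hD'.m₀]) (by rw [u4, hD'.m₁]) hUD' hc'
        (fun q s hs => ?_) (fun _ _ _ => rfl))
      (sh_transfer sh0 (by rw [u3, hD'.m₀]) (by rw [u4, hD'.m₁]) hUD' hc'
        (fun _ _ _ => rfl) (fun _ _ _ => rfl))
      (shD D' hD'.m₀ hD'.m₁ hcD' ?_)
    · rw [hD'.m₀, hD'.m₁] at hs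
      show c₁ q s + (D'.c s - D.c s) = c₁ q s
      rw [hcc s (hin s hs), sub_self, add_zero]
    · intro x hx
      rw [hD'.U, mem_compl_iff, not_not] at hx
      obtain ⟨p, hp1, hp2⟩ := hx
      exact ⟨p, Or.inr hp1, hp2⟩
  refine ⟨χ', hD2, ?_⟩
  have w1 : WR W χ χ₁ := (hHCL D (bp F)).2.2.2.2.2.2 W _ χ χ₁ hW hχ hD1
  have w0 : CIsot I4 χ χ := (hHCL D (bp F)).2.2.2.2.2.1 _ χ hχ
  exact WR.trans hW w0 w1 hx

end CRN

end Pool.Agent.Helper27.S5
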