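import Pool.Agent.Helper27.BI.S5.Fb
import Pool.Agent.Helper18.BI.R.StR4
import Pool.Agent.Helper18.BI.AsmA

/-!
# Project BI, stage 5: the crossing lemma, statements

Model coordinates `p = (s, x)`, `x = e1 + y`, `y` in three-space.  `G = F ∘ sq ε` is an embedding of `K3 δ'`.  There are
three walls: `wallS δ` (the wall of the given arc datum `D`), `wallS δ'` with `3 δ < δ'` (inside the first one) and the
small wall `wall2 δ' κ β` around the vertical line over `P2 β = e1 + (0, β)`, between the first two.  The second wall and the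
third wall together are homologous to the first one, and the third one is unknotted.  The finger of `D` is replaced by a
finger with the same core which drags along the whole ball of radius `41/200` (`THat`); so a loop of arcs which
moves in the complement of `G '' XX δ' κ β` only is a loop of pairs of arcs (over `e1` and over `P2 β`), the first ending on
`wallS δ'`, the second ending on `wall2`.

Statements (as `Prop` definitions) with complete proofs in the docstrings.  A module `M_X` proves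
`theorem m_X : StX` (possibly from other statements as hypotheses `(h : StY)`).
-/

set_option autoImplicit false

open scoped Manifold ContDiff Topology ComplexConjugate
open Set Filter Pool.Agent.Helper65.Barb Pool.Agent.Helper18.BI
open Pool.Agent.Helper70.BI (I4 LD NearEq IsW)
open Pool.Agent.Helper34.BI (rade qe)
open Pool.Agent.Helper27.BI (e1)
open Pool.Agent.Helper27.H
open Pool.Agent.Helper18.BI.H (mm)
open Pool.Agent.Helper18.BI.R (LoopOK SH S2 bp)

namespace Pool.Agent.Helper27.S5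

/-! ## abstract lemmas -/

/-- MODULE GH (gluing an embedding of the model to the identity).
Proof.  As steps (5), (6) of the proof of `StEHAT` (`Pool/Agent/Helper27/BI/H/M_EHAT.lean`).  `D` is compact, `N ⊇ D` open on which `G` is injective and a local diffeomorphism (`StA1`, i.e. `hA1`/`m_A1`, or `emb_open` of `Hat.lean`).
Let `y ∉ G '' (D ∩ B)`.  If `y ∉ G '' D` (compact): `imp` is the identity near `y`.  If `y = G p`, `p ∈ D`: `p ∉ B`, `imp G D h y = G (h p)` (`imp_image`, `G` injective on `D`), and `h p ∈ D`.  For `q` near `p` (`q ∈ N`): if `q ∈ D` then `q ∉ B` (`B` closed) and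
`imp G D h (G q) = G (h q)`; if `q ∉ D`: `G q ∉ G '' D` (injectivity on `N`), so `imp G D h (G q) = G q = G (h q)` by the last hypothesis.  So near `y` the map is `G ∘ h ∘ G⁻¹`, a local diffeomorphism at `y` (`G` is one at `h p ∈ D`).
Injective: two points of `G '' (D \ B)`: `G` is injective on `D`, `h` on `D \ B`.  `y = G p`, `y' ∉ G '' D`: `G (h p) ∈ G '' D`, so it is not `y'`. -/
def StGH : Prop :=
  ∀ (G h : R4 → R4) (D B : Set R4), IsCompact D → IsClosed B → EmbOn I4 G D →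
    (∀ p ∈ D \ B, LD h p) → InjOn h (D \ B) → MapsTo h (D \ B) D →
    (∀ p ∈ D \ B, ∀ᶠ q in 𝓝 p, q ∉ D → h q = q) → EmbOn I4 (imp G D h) (G '' (D ∩ B))ᶜ

/-- MODULE GHF (the family version of `StGH`).
Proof.  `J (t, x) = imp G D (fun p => h (t, p)) x` is in `FamOn I4 J K`: for fixed `t` by `StGH` (restricted to `K`); jointly smooth near `(t, x)`, `t ∈ [0,1]`, `x ∈ K`: as in `StGH`, near `(t₀, G p₀)` it is `(t, y) ↦ G (h (t, G⁻¹ y))` (also for `t` outside `[0,1]`: all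
hypotheses hold eventually near `(t₀, p₀)`), and near `(t₀, y₀)` with `y₀ ∉ G '' D` it is `y`.  Then `StA3` (`hA3`). -/
def StGHF : Prop :=
  ∀ (G : R4 → R4) (h : ℝ × R4 → R4) (D B : Set R4), IsCompact D → IsClosed B → EmbOn I4 G D →
    (∀ t ∈ Icc (0 : ℝ) 1, ∀ p ∈ D \ B, ∀ᶠ z in 𝓝 (t, p), ContDiffAt ℝ ∞ h z) →
    (∀ t ∈ Icc (0 : ℝ) 1, (∀ p ∈ D \ B, LD (fun p => h (t, p)) p) ∧
      InjOn (fun p => h (t, p)) (D \ B) ∧ MapsTo (fun p => h (t, p)) (D \ B) D) →
    (∀ t ∈ Icc (0 : ℝ) 1, ∀ p ∈ D \ B, ∀ᶠ z : ℝ × R4 in 𝓝 (t, p), z.2 ∉ D → h z = z.2) →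
    ∀ (K : Set R4) (Θ Θ' : R4 → R4), IsCompact K → K ⊆ (G '' (D ∩ B))ᶜ → SDiff K Θ Θ' →
      CIsot I4 (imp (imp G D (fun p => h (0, p))) K Θ) (imp (imp G D (fun p => h (1, p))) K Θ)

/-- MODULE SPL (splitting a loop of pairs of arcs).
`ϑ t = step (step t)`.
Proof (uses `StCH4`; `exists_lpush1` of `Calc.lean`).  `K ⊆ U` compact containing the support of `F`.  The path of germs `J q = F.f (q, J ·)` along `C₁`, in the open set `U₁ = U \ J '' C₂` (`J '' C₂` is compact): `Fam2 Q2 C₁ V U₁ (fun a p => F.f (a.2, J p))` with the open set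
`V = interior {p | J p ∉ K}`: smooth and embedded, since `F.f (q, ·)` is a diffeomorphism; frozen on `V`; let `p ∈ C₁ \ V`: if `J p ∉ K` then, as `J` is continuous near `p` and `K` is closed, `p ∈ V`; so `J p ∈ K`, `F.f (q, J p) ∈ K ⊆ U` (`F.f (q, ·)` maps `K` onto `K`), and it is not in
`J '' C₂` by hypothesis.  `exists_lpush1` gives a family `A₀`, `A₀.f (0, ·) = id`, `SuppU U₁ A₀`, `A₀.f (t, F.f (0, J p)) = F.f (step t, J p)` for `t ∈ [0,1]`, `p` near `C₁`.  `A = A₀.reparam step`: `A.f (t, J p) = F.f (ϑ t, J p)` for all `t`.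
`B.f (t, x) = A.g (t, F.f (ϑ t, x))` (composition of families).  `B.f (0, ·) = id`; support: off `K ∪ K_A` it is the identity, `K_A` compact in `U₁`; for `p` near `C₁`: `B.f (t, J p) = A.g (t, A.f (t, J p)) = J p`; `J` is an open map near `C₁` (`StA1`), so `B` has support in
`(K ∪ K_A) \ (open neighbourhood of J '' C₁)`, compact in `U \ J '' C₁`. -/
def StSPL : Prop :=
  ∀ (U C₁ C₂ : Set R4) (J : R4 → R4) (F : DFam 𝓘(ℝ, R4) R4), IsOpen U → IsCompact C₁ →
    IsCompact C₂ → EmbOn I4 J C₁ → IsCompact (J '' C₂) → (∀ x, F.f (0, x) = x) → SuppU U F →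
    (∀ t ∈ Icc (0 : ℝ) 1, ∀ p ∈ C₁, F.f (t, J p) ∉ J '' C₂) →
    ∃ A B : DFam 𝓘(ℝ, R4) R4, (∀ x, A.f (0, x) = x) ∧ (∀ x, B.f (0, x) = x) ∧
      SuppU (U \ J '' C₂) A ∧ SuppU (U \ J '' C₁) B ∧
      (∃ N : Set R4, IsOpen N ∧ C₁ ⊆ N ∧ ∀ t, ∀ p ∈ N, A.f (t, J p) = F.f (step (step t), J p)) ∧
      ∀ t x, A.f (t, B.f (t, x)) = F.f (step (step t), x)

/-- MODULE PF (pushing a family forward by an embedding).  Proof: `StPush`/`DFam.push` (see the proof of `StPush` in `Pool/Agent/Helper18/BI/`), `StA1` gives a partial diffeomorphism equal to `ι` near `K`. -/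
def StPF : Prop :=
  ∀ (ι : R4 → R4) (K : Set R4) (A : DFam 𝓘(ℝ, R4) R4), EmbOn I4 ι K → IsCompact K →
    (∀ t x, x ∉ K → A.f (t, x) = x) →
    ∃ A' : DFam 𝓘(ℝ, R4) R4, (∀ t y, A'.f (t, y) = imp ι K (fun x => A.f (t, x)) y) ∧
      (∀ t, ∀ x ∈ K, A'.f (t, ι x) = ι (A.f (t, x))) ∧ ∀ t y, y ∉ ι '' K → A'.f (t, y) = y

/-- MODULE TCF (the class of the end of an isotopy).
Proof.  `J q p = A.f (q, D.J p)`.  `LPush D.U D.L J (A.f (1, ·))` by the family `A.reparam step` (`step 1 = 1`).  `V = interior {p | D.J p ∉ K}` is an open neighbourhood of the two ends of `D.L` (`D.off₀`, `D.off₁`: `D.J (s₀, 0) ∉ D.U ⊇ K`, `D.J` is continuous near `D.L`, `K` is closed);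
`Fam2 Q2 D.L V D.U`: smooth and embedded (`D.emb`), frozen, and for `p ∈ D.L \ V`: `D.J p ∈ K`, so `A.f (q, D.J p) ∈ K ⊆ D.U`. -/
def StTCF : Prop :=
  ∀ (D : ArcD) (A : DFam 𝓘(ℝ, R4) R4) (χ : R4 → R4), (∀ x, A.f (0, x) = x) → SuppU D.U A →
    (∃ N : Set R4, IsOpen N ∧ D.L ⊆ N ∧ ∀ p ∈ N, A.f (1, D.J p) = D.J p) →
    D.Phi (fun x => A.f (1, x)) χ → D.Cls (fun q s => A.f (q, D.c s)) χ

/-- MODULE GP1X (general position for loops of arcs, also off countably many curves).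
Proof.  The module GP1 (`Pool/Agent/Helper95/BI5/M_GP1.lean`) with the index type `κ = ℕ` and the curves `g n` in `exists_genPos` (field `curve` of `GenPos`); where `hat 0 1 q * hat m₀ m₁ s = 0` the value is `D.c s`. -/
def StGP1X : Prop :=
  ∀ (D : ArcD) (c₀ : ℝ → ℝ → R4) (g : ℕ → ℝ → R4), LoopOK D c₀ → (∀ n, ContDiff ℝ ∞ (g n)) →
    (∀ n, ∀ s ∈ Icc D.s₀ D.s₁, ∀ r, D.c s ≠ g n r) → ∃ c : ℝ → ℝ → R4, LoopOK D c ∧
    (∀ q ∈ Icc (0 : ℝ) 1, InjOn (c q) (Icc D.s₀ D.s₁) ∧ ∀ s ∈ Icc D.s₀ D.s₁, deriv (c q) s ≠ 0) ∧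
    SH D c c₀ ∧ ∀ n, ∀ q ∈ Icc (0 : ℝ) 1, ∀ s ∈ Icc D.s₀ D.s₁, ∀ r, c q s ≠ g n r

/-! ## the geometry of the two walls -/

/-- the vector `(0, 1)` of three-space -/
def eu : R3 := (0, 1)

/-- the centre of the second hole -/
def P2 (β : ℝ) : R3 := (1, (β : ℂ))

/-- the similarity which carries the first hole to the second one -/
noncomputable def sg (κ β : ℝ) (p : R4) : R4 := (p.1, P2 β + κ • (p.2 - e1))

/-- its inverse -/
noncomputable def sgi (κ β : ℝ) (p : R4) : R4 := (p.1, e1 + κ⁻¹ • (p.2 - P2 β))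

/-- the radial map of the second hole -/
noncomputable def rad2 (δ κ β : ℝ) (p : R4) : R4 := sg κ β (rade δ 1 (sgi κ β p))

/-- the second hole (open in its levels) -/
def hol (δ κ β : ℝ) : Set R4 := {p | 0 ≤ p.1 ∧ p.1 ≤ 1 ∧ rsq 1 (sgi κ β p) < 1 / 25 - 3 * δ}

/-- the wall of the second hole -/
def wall2 (δ κ β : ℝ) : Set R4 := {p | sgi κ β p ∈ wallS δ}

/-- the channel through which the arcs leave -/
def Chn : Set R4 :=
  {p | 11 / 25 < p.1 ∧ p.1 < 14 / 25 ∧ |p.2.1 - 73 / 100| < 1 / 50 ∧ |p.2.2.im| < 1 / 50 ∧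
    -(1 / 50) < p.2.2.re}

/-- the region between the inner boundary of the wall and the radius `7/10` -/
def Reg (δ : ℝ) : Set R4 := {p | 0 ≤ p.1 ∧ p.1 ≤ 1 ∧ 1 / 25 - 3 * δ ≤ rsq 1 p ∧ rsq 1 p ≤ 49 / 100}

/-- the forbidden region for the loops of arcs -/
def XX (δ κ β : ℝ) : Set R4 := Reg δ \ (hol δ κ β ∪ Chn)

/-- admissible parameters: the ball of radius `κ` about `(0, β)` is between the walls `wallS δ'` and `wallS δ` -/
structure Par (δ δ' κ β : ℝ) : Prop where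
  d0 : 0 < δ
  d1 : 3 * δ < δ'
  d2 : δ' < 1 / 100
  k0 : 0 < κ
  k1 : κ < β
  lo : 1 / 25 - δ' < (β - κ) ^ 2
  hi : (β + κ) ^ 2 < 1 / 25 - 3 * δ

/-- the scale of the big ball dragged by the finger: `1` off `[7/20, 13/20]`, `c` on `[43/100, 57/100]` -/
noncomputable def lam (c s : ℝ) : ℝ :=
  1 - (1 - c) * (step ((s - 7 / 20) / (2 / 25)) * step ((13 / 20 - s) / (2 / 25)))

/-- the arc over the second hole -/
noncomputable def z2 (c β s : ℝ) : R3 := z0 s + (lam c s * β) • eu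

/-- `H` is an isotopy from `T` to a finger push `H.f (1, ·)` which drags along the whole ball of radius `41/200`, shrunk by the factor
`lam c s`; all maps of the isotopy push the line over `e1` to the finger. -/
structure THat (T : R4 → R4) (c : ℝ) (H : DFam 𝓘(ℝ, R4) R4) : Prop where
  zero : ∀ x, H.f (0, x) = T x
  line : ∀ t s : ℝ, H.f (t, (s, e1)) = (s, z0 s)
  supp : ∀ (t : ℝ) (p : R4), (p.1 ≤ 1 / 20 ∨ 19 / 20 ≤ p.1 ∨ 49 / 100 ≤ rsq 1 p) → H.f (t, p) = p
  ball : ∀ (s : ℝ) (y : R3), nsq y ≤ (41 / 200) ^ 2 → H.f (1, (s, e1 + y)) = (s, z0 s + lam c s • y)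

/-- MODULE THAT.
Proof.  `f s = z0 s - e1 = -(bfin s) • e1`.  The germs `J (u, w) (s, e1 + y) = (s, e1 + u • f s + (1 - w + w * lam c s) • y)` for `(u, w) ∈ Q2`, along the compact set `L = {0 ≤ s ≤ 1, nsq y ≤ (41/200)²}`: `Fam2 Q2 L V U J` with `V = {s < 1/10 or 9/10 < s}` (there `bfin = 0`, `lam = 1`) and
`U = {1/20 < s < 19/20, nsq y < 49/100}`: on `L \ V` the value has `y`-part of length `≤ 27/100 + 41/200 < 7/10`.  `StCH4` gives `P` and, for `a t = (0, 0)`, `b t = (step (step t), step t)`, a family `F₁` with `F₁.f (0, ·) = id`, `F₁.f (t, J (0,0) p) = J (b t) p` near `L` (`J (0,0) = id`), support in a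
compact subset of `U`.  `F₂` the family of `FingB.fam`: `F₂.f (0, ·) = id`, `F₂.f (1, ·) = T`, `F₂.f (t, (s, e1)) = (s, (1 - step (step t) * bfin s) • e1)`.  `H.f (t, x) = T (F₂.g (t, F₁.f (t, x)))` (compositions of families; `T` is the frozen family `F₂.freeze 1`).
`zero`: clear.  `line`: for `s ∈ [0,1]`: `F₁.f (t, (s, e1)) = (s, e1 + step (step t) • f s) = F₂.f (t, (s, e1))`; for other `s` everything is the identity (`F₂` is the identity for `s ≤ 1/10`, `9/10 ≤ s`, and `z0 s = e1`).  `supp`: all maps are the identity there (`(3/10)² ≤ 49/100`;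
level preserving).  `ball`: `F₂.f (1, ·) = T`, so `H.f (1, x) = F₁.f (1, x)`; for `s ∉ [0,1]` both sides are `(s, e1 + y)`. -/
def StTHAT : Prop :=
  ∀ T T' : R4 → R4, FingB T T' → ∀ c ∈ Ioo (0 : ℝ) 1, ∃ H : DFam 𝓘(ℝ, R4) R4, THat T c H

/-- a thin finger push, with inverse `S'`, equal to `H.f (1, ·)` near the line over `e1` -/
structure SHat (c : ℝ) (S S' : R4 → R4) : Prop where
  smooth : ContDiff ℝ ∞ S
  smooth' : ContDiff ℝ ∞ S'
  left : ∀ x, S' (S x) = x
  right : ∀ x, S (S' x) = x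
  near : ∀ (s : ℝ) (y : R3), nsq y ≤ (1 / 200) ^ 2 → S (s, e1 + y) = (s, z0 s + lam c s • y)
  thin : ∀ (s : ℝ) (x : R3), (∀ τ ∈ Icc (0 : ℝ) 1, (1 / 50) ^ 2 ≤ nsq (x - (1 - τ * bfin s) • e1)) →
    S (s, x) = (s, x)
  out : ∀ (s : ℝ) (x : R3), (s ≤ 1 / 10 ∨ 9 / 10 ≤ s) → S (s, x) = (s, x)

/-- MODULE SHAT.
Proof.  The germs `J w (s, e1 + y) = (s, e1 + (1 - w + w * lam c s) • y)`, `w ∈ [0,1]`, along `L = {3/10 ≤ s ≤ 7/10, nsq y ≤ (1/200)²}`, frozen on `V = {s < 7/20 or 13/20 < s}`, in `U = {3/10 < s < 7/10, nsq y < (1/100)²}`.  `exists_lpush1` gives a diffeomorphism `Λ` supported in `U` with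
`Λ (s, e1 + y) = (s, e1 + lam c s • y)` near `L`.  `S = T ∘ Λ`: `near`: `FingOk.tube` (`nsq (lam c s • y) ≤ (1/100)²`), for `s ∉ [3/10, 7/10]` `Λ` is the identity and `lam c s = 1`.  `thin`: for such `(s, x)` (take `τ = 0`): `nsq (x - e1) ≥ (1/50)²`, so `Λ (s, x) = (s, x)`, and `FingB.thin`. -/
def StSHAT : Prop :=
  ∀ T T' : R4 → R4, FingB T T' → ∀ c ∈ Ioo (0 : ℝ) 1, ∃ S S' : R4 → R4, SHat c S S'

/-- the embedding of the complement of the wall and the finger defined by `h` -/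
noncomputable def hatE (G : R4 → R4) (δ : ℝ) (h : R4 → R4) : R4 → R4 :=
  imp G (Reg δ) (fun p => rade δ 1 (h p))

/-- the embedding of the complement of the two walls and the two fingers -/
noncomputable def EE (G : R4 → R4) (H : DFam 𝓘(ℝ, R4) R4) (δ κ β : ℝ) : R4 → R4 :=
  imp G (Reg δ \ hol δ κ β) (fun p => rade δ 1 (rad2 δ κ β (H.g (1, p))))

/-- the model of the map which fills in the second hole -/
noncomputable def hio (H : DFam 𝓘(ℝ, R4) R4) (δ κ β : ℝ) (p : R4) : R4 :=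
  open Classical in if rsq 1 (sgi κ β p) < 1 / 25 - 2 * δ then H.f (1, p)
    else H.f (1, rad2 δ κ β (H.g (1, p)))

/-- the map which retracts the second finger and fills in the second hole -/
noncomputable def io (G : R4 → R4) (H : DFam 𝓘(ℝ, R4) R4) (δ κ β : ℝ) : R4 → R4 :=
  imp G (Reg δ) (hio H δ κ β)

/-- the two arcs in the target of `G ∘ H.f (1, ·)` -/
def arc1 (δ : ℝ) : Set R4 := {p | p.2 = e1 ∧ 0 ≤ p.1 ∧ p.1 ≤ 1 ∧ 1 / 25 - δ ≤ bfin p.1 ^ 2}

/-- the parameters of the second arc -/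
def arc2 (δ κ β : ℝ) : Set R4 :=
  {p | p.2 = P2 β ∧ 0 ≤ p.1 ∧ p.1 ≤ 1 ∧ κ ^ 2 * (1 / 25 - δ) ≤ bfin p.1 ^ 2}

/-- the image of a set under `G ∘ H.f (1, ·)` -/
def GH (G : R4 → R4) (H : DFam 𝓘(ℝ, R4) R4) (A : Set R4) : Set R4 :=
  (fun p => G (H.f (1, p))) '' A

/-- the complement of the two walls -/
def U2 (G : R4 → R4) (δ κ β : ℝ) : Set R4 := (G '' (wallS δ ∪ wall2 δ κ β))ᶜ

end Pool.Agent.Helper27.S5
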