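import Pool.Agent.Helper27.BI.S5.St5n

/-!
# Project BI, stage 5: the crossing lemma, statements, part 3: the geometry of the two walls

See the top of `St5.lean`.  All hypotheses are collected in `Sys`.
-/

set_option autoImplicit false

open scoped Manifold ContDiff Topology ComplexConjugate
open Set Filter Pool.Agent.Helper65.Barb Pool.Agent.Helper18.BI
open Pool.Agent.Helper70.BI (I4 LD NearEq IsW)
open Pool.Agent.Helper34.BI (rade qe)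
open Pool.Agent.Helper27.BI (e1)
open Pool.Agent.Helper27.H
open Pool.Agent.Helper18.BI.R (LoopOK SH)

namespace Pool.Agent.Helper27.S5

/-- a vertical segment -/
def ar (x : R3) (a b : ℝ) : Set R4 := {p | p.2 = x ∧ a ≤ p.1 ∧ p.1 ≤ b}

/-- the levels between which the second arc is outside the second wall -/
structure Arc2 (δ κ a b : ℝ) : Prop where
  ma : a ∈ Ioo (1 / 10 : ℝ) (3 / 10)
  mb : b ∈ Ioo (7 / 10 : ℝ) (9 / 10)
  ea : bfin a ^ 2 = κ ^ 2 * (1 / 25 - δ)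
  eb : bfin b ^ 2 = κ ^ 2 * (1 / 25 - δ)
  ins : ∀ s ∈ Ioo a b, κ ^ 2 * (1 / 25 - δ) < bfin s ^ 2
  out : ∀ s, s ∉ Ioo a b → bfin s ^ 2 ≤ κ ^ 2 * (1 / 25 - δ)

/-- all data: `D` is the given arc datum (wall `wallS δ`), `D'` the one of the deeper wall `wallS δ'`, `H` the isotopy from `T` to the
finger push dragging the big ball -/
structure Sys (G T T' : R4 → R4) (δ δ' κ β c : ℝ) (D D' : ArcD) (H : DFam 𝓘(ℝ, R4) R4) (a b : ℝ) :
    Prop where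
  par : Par δ δ' κ β
  fb : FingB T T'
  emb : EmbOn I4 G (K3 δ')
  hat : HatOk δ T' G D
  hat' : HatOk δ' T' G D'
  mc : c ∈ Ioo (0 : ℝ) 1
  th : THat T c H
  ab : Arc2 δ' κ a b

/-- the second arc -/
def A2 (G : R4 → R4) (H : DFam 𝓘(ℝ, R4) R4) (β a b : ℝ) : Set R4 := GH G H (ar (P2 β) a b)

/-- the ball dragged by the finger, in the middle levels -/
def tb (c : ℝ) : Set R4 :=
  {p | 11 / 25 < p.1 ∧ p.1 < 14 / 25 ∧ nsq (p.2 - z0 p.1) ≤ (c * (41 / 200)) ^ 2}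

/-- MODULE ARC2.  Existence of the levels.  Proof: as in `m_BFIN` (`Pool/Agent/Helper27/BI/H/Fing.lean`), with `κ² (1/25 - δ) ∈ (0, (27/100)²)` instead of `1/25 - δ`. -/
def StARC2 : Prop :=
  ∀ δ κ : ℝ, δ ∈ Ioo (0 : ℝ) (1 / 100) → κ ∈ Ioo (0 : ℝ) 1 → ∃ a b, Arc2 δ κ a b

/-- MODULE HE (uses `StGH`, `StGHF`).  The embedding `D.e` of an arc datum is isotopic to the one defined by the big finger push.
`δ ∈ (0, 1/100)`; below `r = rsq 1 p`.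
Proof.  `h (t, p) = rade δ 1 (H.g (t, p))`, region `Reg δ` (compact, `⊆ K3 δ`: `Geo5.lean`), `B = wallS δ ∪ {(s, z0 s) | s ∈ [s₀, s₁]}` (closed), so `(G '' (Reg δ ∩ B))ᶜ = D.U \ D.A` (`D.A = D.J '' D.L`, `D.J (s, 0) = G (s, z0 s)`; these points are in `Reg δ`).
Let `p ∈ Reg δ \ B`: `r > 1/25 - δ`.  `H.g (t, p)` is not on the line over `e1`: otherwise `p = H.f (t, (s, e1)) = (s, z0 s)`, `r = bfin s ^ 2 > 1/25 - δ`, so `s ∈ (s₀, s₁)` (`HatOk.b'`), `p ∈ B`.  So `h (t, ·)` is a local diffeomorphism and injective there (`rade_emb` in `Hcls.lean`).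
`H.g (t, ·)` maps `{0 ≤ s ≤ 1, r ≤ 49/100}` to itself (it is bijective, and the identity off this set and on `{s ≤ 1/20 or 19/20 ≤ s or 49/100 ≤ r}`); `rade δ 1` preserves the level, `1/25 - 3 δ ≤ rsq (rade ..)` (`rade_low`), `≤ 49/100` (`rade_up`, `rade_self`).  So `MapsTo`.
Frontier: `q` near `p`, `q ∉ Reg δ`: then `q.1 < 0`, `1 < q.1` or `49/100 < rsq 1 q` (`rsq 1 q > 1/25 - δ` near `p`), so `H.g (t', q) = q` and `rade δ 1 q = q`.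
`StGH` gives the first claim (`t = 1`), `StGHF` gives `CIsot (imp (imp G (Reg δ) (rade δ 1 ∘ T')) K Θ) (imp (hatE ..) K Θ)`, as `H.g (0, ·) = T'` (`THat.zero`).  Finally `imp G (Reg δ) (rade δ 1 ∘ T') = D.e` on `D.U \ D.A ⊇ K`: `D.e = imp G (Dreg δ) (e0 δ T')`; `Dreg δ ⊆ Reg δ`; for `p ∈ Reg δ`, `G p ∈ D.U`, `p ∉ Dreg δ`
we have `r > 1/9`, `T' p = p` (`e0_far`), `rade δ 1 p = p`, both sides are `G p`; `StImp` (6) (`hImp`). -/
def StHE : Prop :=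
  ∀ (G T T' : R4 → R4) (δ c : ℝ) (D : ArcD) (H : DFam 𝓘(ℝ, R4) R4), FingB T T' →
    δ ∈ Ioo (0 : ℝ) (1 / 100) → EmbOn I4 G (K3 δ) → HatOk δ T' G D → THat T c H →
    EmbOn I4 (hatE G δ (fun p => H.g (1, p))) (D.U \ D.A) ∧
    ∀ (K : Set R4) (Θ Θ' : R4 → R4), IsCompact K → K ⊆ D.U \ D.A → SDiff K Θ Θ' →
      CIsot I4 (imp D.e K Θ) (imp (hatE G δ (fun p => H.g (1, p))) K Θ)

/-- MODULE E1 (uses `StGH`).  `EE` is an embedding of the complement of the two walls and the two arcs.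
Proof.  `StGH` with the region `Reg δ' \ hol δ' κ β` (compact), `B = wallS δ' ∪ wall2 δ' κ β ∪ {(s, z0 s) | s ∈ [s₀', s₁']} ∪ {(s, z2 c β s) | s ∈ [a, b]}` (closed; `H.f (1, (s, P2 β)) = (s, z2 c β s)` by `THat.ball`), `h p = rade δ' 1 (rad2 δ' κ β (H.g (1, p)))`.
Let `p` be in the region, not in `B`; `rsq 1 p > 1/25 - δ'`, `rsq 1 (sgi κ β p) > 1/25 - δ'`.  `q = H.g (1, p)` is in `{0 ≤ s ≤ 1, rsq 1 ≤ 49/100}`, not on the line over `e1` (as in `StHE`), not on the line over `P2 β`: otherwise `p = (s, z2 c β s)`, `s ∉ [a, b]`, so `bfin s ^ 2 ≤ κ² (1/25 - δ')`, in particular `bfin s < 27/100`,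
`s ∉ [3/10, 7/10]`, `lam c s = 1`, `z2 c β s - P2 β = -(bfin s) • e1`, `rsq 1 (sgi p) = κ⁻² bfin s ^ 2 ≤ 1/25 - δ'`, a contradiction.  `rad2` (`Geo5.lean`): an injective local diffeomorphism off the line over `P2 β`, the identity for `rsq 1 (sgi q) ≥ 1/25 - δ'`, with `rsq 1 (sgi (rad2 q)) ≥ 1/25 - 3 δ'`,
it maps `{rsq 1 (sgi q) ≤ 1/25 - δ'}` to itself, where `rsq 1 > 1/25 - δ'` and `rsq 1 ≤ 49/100`, and fixes the line over `e1`; `rade δ' 1` moves only points with `rsq 1 < 1/25 - δ'`, to such points.  So `h p` is in the region, and `h` is an injective local diffeomorphism.  Frontier: `q` near `p` not in the region: as in `StHE` or `q ∈ hol`,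
impossible near `p`; so `H.g (1, q) = q`, `rad2 q = q`, `rade q = q`. -/
def StE1 : Prop :=
  ∀ (G T T' : R4 → R4) (δ δ' κ β c : ℝ) (D D' : ArcD) (H : DFam 𝓘(ℝ, R4) R4) (a b : ℝ),
    Sys G T T' δ δ' κ β c D D' H a b →
    EmbOn I4 (EE G H δ' κ β) (U2 G δ' κ β \ (D'.A ∪ A2 G H β a b))

/-- MODULE EXA (uses `StHE`).  Exactness: the push of a loop which moves off `G '' XX` and fixes the small ball dragged by the finger.
Proof.  (1) `K ⊆ D.U \ D.A` and `K ⊆ U2 \ (D'.A ∪ A2)`: `wallS δ`, `wallS δ'`, `wall2` are contained in `XX δ' κ β` (they are in `Reg δ'`, not in `hol`, not in `Chn`, where `rsq 1 ≥ (1/4)²`); `(s, z0 s)` with `1/25 - δ' ≤ bfin s ^ 2` is in `XX` if `s ∉ (11/25, 14/25)` (`Geo5.lean`), otherwise in `tb c`;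
`(s, z2 c β s)`, `s ∈ [a, b]`, is in `XX` if `s ∉ (11/25, 14/25)`: `rsq 1 = bfin s ^ 2 + (lam c s * β) ^ 2 ≥ 1/25 - δ'` (`lam = 1` or `bfin s = 27/100`), `rsq 1 (sgi ..) = κ⁻² (bfin s ^ 2 + (1 - lam c s) ^ 2 β ^ 2) ≥ 1/25 - δ'`; otherwise in `tb c` (`lam c s = c` there, `nsq (z2 - z0) = (c β) ^ 2`).
(2) `StHE` for `δ`: `CIsot (imp D.e K Θ) (imp (hatE G δ (H.g (1, ·))) K Θ)`.  (3) `hatE G δ (H.g (1, ·)) = EE` on `K` (`StImp` (6)): let `x ∈ K`.  If `x ∉ G '' Reg δ'`: both are `x`.  If `x = G p`, `p ∈ Reg δ'`: `p ∉ XX`, so `p ∈ hol` or `p ∈ Chn`.  `p ∈ hol`: `EE x = x`; `rsq 1 p < 1/25 - 3 δ`, so `p ∉ Reg δ`, `hatE x = x`.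
`p ∈ Chn`: `p ∈ Reg δ`, `p ∉ tb c`.  `q = H.g (1, p)` has `rsq 1 q > (41/200)²`: otherwise `p = H.f (1, q) = (q.1, z0 q.1 + lam c q.1 • (q.2 - e1))`, `q.1 = p.1 ∈ (11/25, 14/25)`, `lam = c`, `p ∈ tb c`.  So `rade δ 1 q = q`, `rade δ' 1 q = q` (`(41/200)² > 1/25`) and `rad2 q = q` (`rsq 1 (sgi q) ≤ 1/25` would give `√(rsq 1 q) ≤ β + κ < 1/5`);
both sides are `G q`. -/
def StEXA : Prop :=
  ∀ (G T T' : R4 → R4) (δ δ' κ β c : ℝ) (D D' : ArcD) (H : DFam 𝓘(ℝ, R4) R4) (a b : ℝ),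
    Sys G T T' δ δ' κ β c D D' H a b → ∀ (K : Set R4) (Θ Θ' : R4 → R4), IsCompact K →
    K ⊆ (G '' XX δ' κ β)ᶜ → Disjoint K (G '' tb c) → SDiff K Θ Θ' →
    K ⊆ D.U \ D.A ∧ K ⊆ U2 G δ' κ β \ (D'.A ∪ A2 G H β a b) ∧
      CIsot I4 (imp D.e K Θ) (imp (EE G H δ' κ β) K Θ)

/-- MODULE IO1 (uses `StGH`).  The map `io` which retracts the second finger and fills in the second hole.
Proof.  `StGH` with the region `Reg δ'`, `B = wallS δ' ∪ wall2 δ' κ β ∪ {(s, z2 c β s) | s ∈ [a, b]}`, `h = hio H δ' κ β`.  On `Reg δ' \ B` either `rsq 1 (sgi p) < 1/25 - 3 δ'` (then `p ∈ hol`) or `rsq 1 (sgi p) > 1/25 - δ'`.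
(a) `p = (s, P2 β + w) ∈ hol`: `h p = H.f (1, p) = (s, z0 s + lam c s • (p.2 - e1))` (`nsq (p.2 - e1) ≤ (β + κ)² < 1/25`), in `Reg δ'`, with `rsq 1 > 1/25 - δ'` (`Geo5.lean`: for all `p` with `rsq 1 (sgi p) ≤ 1/25`, `0 ≤ s ≤ 1`: `rsq 1 (H.f (1, p)) > 1/25 - δ'` and `≤ 49/100`).
(b) otherwise `h p = H.f (1, rad2 (H.g (1, p)))`, with `q = H.g (1, p)` not on the line over `P2 β` (as in `StE1`); if `rsq 1 (sgi q) ≥ 1/25 - δ'` it is `p`; otherwise `q' = rad2 q` satisfies `1/25 - 3 δ' ≤ rsq 1 (sgi q') ≤ 1/25 - δ'`, and again `h p = H.f (1, q') ∈ Reg δ'`, `rsq 1 (h p) > 1/25 - δ'`.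
Injective: (a) `h p = H.f (1, p)`, `rsq 1 (sgi p) < 1/25 - 3 δ'`; (b) `h p = H.f (1, q')`, `rsq 1 (sgi q') ≥ 1/25 - 3 δ'`; `H.f (1, ·)` and `rad2` are injective.  Local diffeomorphism: clear, the two cases are open.  Frontier: near `p ∈ Reg δ' \ B` points `q ∉ Reg δ'` have level `< 0` or `> 1` or `rsq 1 q > 49/100`; `H.f (1, q) = q`,
in case (b) also `rad2 q = q` (`rsq 1 (sgi q) > 1/25 - δ'` near `p`).  All values are off `wallS δ'`, so `io` maps `U2 \ A2` into `D'.U`.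
Near `D'.A`: `x = G p`, `p = (s, z0 s)`, `s ∈ [s₀', s₁']`, `x ∈ U2`: near `p` case (b) holds (`nsq (z0 s - P2 β) ≥ β² > κ²`), `H.g (1, q)` is near `H.g (1, p) = (s, e1)`, where `rad2` is the identity (`rsq 1 (sgi (s, e1)) = β²/κ² > 1`); so `hio q = q` near `p`, and `io` is the identity near `x` (`G` is open near `p`). -/
def StIO1 : Prop :=
  ∀ (G T T' : R4 → R4) (δ δ' κ β c : ℝ) (D D' : ArcD) (H : DFam 𝓘(ℝ, R4) R4) (a b : ℝ),
    Sys G T T' δ δ' κ β c D D' H a b →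
    EmbOn I4 (io G H δ' κ β) (U2 G δ' κ β \ A2 G H β a b) ∧
    MapsTo (io G H δ' κ β) (U2 G δ' κ β \ A2 G H β a b) D'.U ∧
    ∀ x ∈ D'.A, x ∈ U2 G δ' κ β → ∀ᶠ y in 𝓝 x, io G H δ' κ β y = y

/-- MODULE IO2 (uses `StIO1`, `StHE`).
Proof.  On `K`: `EE x = hatE G δ' (H.g (1, ·)) (io x)`.  `x ∉ G '' Reg δ'`: all are `x`.  `x = G p`, `p ∈ Reg δ'`.  `p ∈ hol`: `EE x = x` (`x ∉ G '' (Reg \ hol)`), `io x = G (H.f (1, p))`, `hatE` of it is `G (rade δ' 1 p) = G p` (`rsq 1 p > 1/25 - δ'`).  `p ∉ hol`: `p ∉ wall2`, so `io x = G (H.f (1, rad2 (H.g (1, p))))`, in `G '' Reg δ'`,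
and `hatE` of it is `G (rade δ' 1 (rad2 (H.g (1, p)))) = EE x`.  `K' = io '' K` is compact, contained in `D'.U \ D'.A`: if `io x ∈ D'.A`, then `y = io x ∈ D'.U`, `y ∈ U2`?: `y ∈ D'.A ∩ D'.U` is `G (s, z0 s)` with `s ∈ (s₀', s₁')`, not in `G '' wall2`, so `y ∈ U2`, `y ∉ A2`, `io y = y` and `x = y` by injectivity: impossible.
`Θ₁ = imp io K Θ` satisfies `SDiff K' Θ₁ (imp io K Θ')` (as in the proof of `StPF`).  `StImp` (6), (8): `imp EE K Θ = imp (hatE ∘ io) K Θ = imp hatE K' Θ₁`, and `StHE` for `δ'`, `D'`. -/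
def StIO2 : Prop :=
  ∀ (G T T' : R4 → R4) (δ δ' κ β c : ℝ) (D D' : ArcD) (H : DFam 𝓘(ℝ, R4) R4) (a b : ℝ),
    Sys G T T' δ δ' κ β c D D' H a b → ∀ (K : Set R4) (Θ Θ' : R4 → R4), IsCompact K →
    K ⊆ U2 G δ' κ β \ (D'.A ∪ A2 G H β a b) → SDiff K Θ Θ' →
    io G H δ' κ β '' K ⊆ D'.U \ D'.A ∧
    CIsot I4 (imp (EE G H δ' κ β) K Θ)
      (imp D'.e (io G H δ' κ β '' K) (imp (io G H δ' κ β) K Θ))

/-- MODULE IO3.  `io` is homotopic to the inclusion in the complement of the wall `wallS δ'`.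
Proof.  `k (t, x) = imp G (Reg δ') (hh t) x` for a homotopy `hh t : R4 → R4`, `t ∈ [0,1]`: (a) for `rsq 1 (sgi p) < 1/25 - 2 δ'`, `p = (s, e1 + y)`: for `t ≤ 1/2`: `(s, e1 + y - (2 t * bfin s) • e1)`, for `t ≥ 1/2`: `(s, z0 s + (1 - (2 t - 1) * (1 - lam c s)) • y)`, at the end `H.f (1, p)`.
(b) otherwise `hh t p = H.f (1, (1 - t) • q + t • rad2 q)`, `q = H.g (1, p)`.
Values: for `p ∈ hol`: `y = (0, β) + w` with `|w| ≤ κ`; for `t ≤ 1/2`: `e1`-component `w₁ - 2 t bfin s`, the other component has length `≥ β - κ`, so `rsq 1 ≥ (β - κ)² > 1/25 - δ'`; for `t ≥ 1/2`: if `lam c s = 1` the same; if `lam c s ≠ 1` then `bfin s = 27/100` and the `e1`-component has absolute value `≥ 27/100 - κ > 1/5`.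
Also `rsq 1 ≤ 49/100` (`27/100 + 1/5 < 7/10`).  For (b): if `rsq 1 (sgi q) ≥ 1/25 - δ'` the value is `p`; otherwise the segment stays in `{rsq 1 (sgi ..) ≤ 1/25}` (convex), and `rsq 1 (H.f (1, ·)) > 1/25 - δ'` there, `≤ 49/100` (`Geo5.lean`).  So `hh t` maps `Reg δ' \ (wallS δ' ∪ wall2)` to `Reg δ' \ wallS δ'` and `k` maps `[0,1] × (U2 \ A2)`
to `D'.U`.  Continuity of `k`: near `(t₀, G p₀)`, `p₀ ∈ Reg δ'` not in the walls or the arc: `k (t, G p) = G (hh t p)` for `p` near `p₀` (also for `p ∉ Reg δ'`: then `hh t p = p`, since `bfin s = 0`, `lam c s = 1` for `s ≤ 1/10`, `9/10 ≤ s`, and `H.f (1, p) = p`, `rad2 p = p`; compare `StGH`), and `G⁻¹` is continuous; off `G '' Reg δ'` `k` is `x`.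
`k (0, x) = x`, `k (1, x) = io x`.  For `x ∈ D'.A`: `q = H.g (1, p) = (s, e1)` is fixed by `rad2`, so `k (t, x) = x`. -/
def StIO3 : Prop :=
  ∀ (G T T' : R4 → R4) (δ δ' κ β c : ℝ) (D D' : ArcD) (H : DFam 𝓘(ℝ, R4) R4) (a b : ℝ),
    Sys G T T' δ δ' κ β c D D' H a b → ∃ k : ℝ × R4 → R4,
    ContinuousOn k (Icc (0 : ℝ) 1 ×ˢ (U2 G δ' κ β \ A2 G H β a b)) ∧
    (∀ x ∈ U2 G δ' κ β \ A2 G H β a b, k (0, x) = x ∧ k (1, x) = io G H δ' κ β x) ∧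
    ∀ t ∈ Icc (0 : ℝ) 1, ∀ x ∈ U2 G δ' κ β \ A2 G H β a b, k (t, x) ∈ D'.U ∧
      (x ∈ D'.A → k (t, x) = x)

/-! ## the datum of the second wall -/

/-- `M` is the map `S⁻¹ ∘ H.f (1, ·)`, conjugated by the radial map -/
structure MOk (δ : ℝ) (H : DFam 𝓘(ℝ, R4) R4) (S' M M' : R4 → R4) : Prop where
  smooth : ContDiff ℝ ∞ M
  smooth' : ContDiff ℝ ∞ M'
  left : ∀ x, M' (M x) = x
  right : ∀ x, M (M' x) = x
  eq : ∀ p, 0 < rsq 1 p → M (rade δ 1 p) = rade δ 1 (S' (H.f (1, p)))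
  low : ∃ ρ > 0, ∀ p, rsq 1 p ≤ 1 / 25 - 3 * δ + ρ → M p = p
  out : ∀ p : R4, (p.1 ≤ 1 / 20 ∨ 19 / 20 ≤ p.1 ∨ 49 / 100 ≤ rsq 1 p) → M p = p

/-- MODULE MH.
Proof.  `N p = S' (H.f (1, p))` is a diffeomorphism with inverse `H.g (1, S p)`, the identity for `rsq 1 p ≤ (1/200)²` (`THat.ball`, `SHat.near`, `SHat.left`), for `p.1 ≤ 1/20`, `19/20 ≤ p.1`, `49/100 ≤ rsq 1 p` (`SHat.thin` for points with `rsq 1 ≥ 49/100`: their distance from the segment is `≥ 7/10 - 27/100`; hence also `S'`).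
`K = {(1/400)² ≤ rsq 1 p ≤ 49/100, 0 ≤ p.1 ≤ 1}` compact, `N` maps `K` onto `K` (`N` is the identity off an open subset of `K`..).  `M = imp (rade δ 1) K N`, `M' = imp (rade δ 1) K N⁻¹`: `rade δ 1` is an embedding of `{0 < rsq 1}` (`rade_emb`), so they are smooth and inverse to each other (as in `StPF`, or `StPush`).
`eq`: for `p ∈ K` clear; for `p ∉ K`, `rsq 1 p > 0`: `N p = p` and `rade δ 1 p ∉ rade δ 1 '' K`.  `low`: `ρ = qe δ ((1/400)²) - (1/25 - 3 δ) > 0`? (`qe δ` is strictly increasing and `qe δ 0 ≥ 1/25 - 3 δ`, `RE.qe_low`); if `rsq 1 p < qe δ ((1/400)²)` then `p ∉ rade δ 1 '' K` (take half of this `ρ`).  `out`: level preserving; `rsq 1 p ≥ 49/100`: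
`rade δ 1 p = p`, `N p = p`. -/
def StMH : Prop :=
  ∀ (T S S' : R4 → R4) (δ c : ℝ) (H : DFam 𝓘(ℝ, R4) R4), δ ∈ Ioo (0 : ℝ) (1 / 100) →
    c ∈ Ioo (0 : ℝ) 1 → THat T c H → SHat c S S' → ∃ M M' : R4 → R4, MOk δ H S' M M'

/-- the map which retracts the first finger (thin) -/
noncomputable def jo (G S' : R4 → R4) (δ κ β : ℝ) : R4 → R4 :=
  imp G (Reg δ \ hol δ κ β) (fun p => rade δ 1 (S' p))

/-- the arc datum of the second wall -/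
structure D2Ok (G M M' : R4 → R4) (δ κ β a b : ℝ) (D : ArcD) : Prop where
  U : D.U = (G '' wall2 δ κ β)ᶜ
  J : D.J = fun p => G (M (p.1, P2 β + p.2))
  e : D.e = imp G (Reg δ \ hol δ κ β) (fun p => rad2 δ κ β (M' p))
  m₀ : D.m₀ = 9 / 20
  m₁ : D.m₁ = 11 / 20
  s₀ : D.s₀ = a
  s₁ : D.s₁ = b

/-- MODULE D2 (uses `StGH`).  The arc datum exists.  Compare `m_HARC` (`Pool/Agent/Helper27/BI/H/Harc.lean`; `exists_smooth_ext`, `embOn_shr`).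
Facts.  `M (s, P2 β) = rade δ' 1 (S' (s, z2 c β s))` (`MOk.eq` for `p = (s, P2 β)`: `rade δ' 1 p = p` as `rsq 1 p = β² > 1/25 - δ'`).  (i) For `s ∉ [7/20, 13/20]`: `lam c s = 1`, `z2 = e1 + (0, β) - (bfin s) • e1` is at a distance `≥ β > 1/50` from the line `ℝ e1` (so `S'` fixes it, `SHat.thin`) and `rsq 1 ≥ β²`, so
`M (s, P2 β) = (s, z2 c β s)` and `rsq 1 (sgi ..) = κ⁻² bfin s ^ 2`.  (ii) For `s ∈ [3/10, 7/10]`: `M (s, P2 β)` is not in `hol ∪ wall2` : if `rsq 1 (sgi (M (s, P2 β))) ≤ 1/25 - δ'`, then `rsq 1 (M ..) > 1/25 - δ'`, so `rade δ' 1` did not move the point, `S' (s, z2)` is this point, which is fixed by `S` (distance from `ℝ e1` is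
`≥ β - κ > 1/50`), so `(s, z2)` is this point, but `nsq (z2 c β s - P2 β) ≥ (27/100)² > κ²`.
`core`: `D.c` a smooth extension of `s ↦ G (M (s, P2 β))` from `[a, b]`.  `emb`: `G` is an embedding of `K3 δ' ⊇ Reg δ'`, `M` a diffeomorphism, and `M (s, P2 β) ∈ Reg δ'` for `s ∈ [a, b]` (`M` preserves `{rsq 1 ≤ 49/100, 0 ≤ s ≤ 1}`; `rsq 1 ≥ 1/25 - 3 δ'` by `rade_low`).  `mem`: (i), `Arc2.ins`, (ii), injectivity of `G` on `K3 δ'`.
`off`: (i) with `Arc2.ea`, `eb`: `rsq 1 (sgi ..) = 1/25 - δ'`.  `embe`: `StGH` with the region `Reg δ' \ hol`, `B = wall2 ∪ {M (s, P2 β) | s ∈ [a, b]}`, `h = rad2 ∘ M'`.  For `p` in the region, not in `B`: `rsq 1 (sgi p) > 1/25 - δ'`; `M' p` is not on the line over `P2 β`: otherwise `p = M (s, P2 β)`, `s ∉ [a, b]`, `Arc2.out` and (i)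
(`bfin s ≤ κ/5 < 27/100`, so `s ∉ [3/10, 7/10]`) give `rsq 1 (sgi p) ≤ 1/25 - δ'`.  `M'` preserves `Reg δ'` (`M` is the identity near `{rsq 1 = 1/25 - 3δ'}` and below, and off `{rsq 1 < 49/100, 1/20 < s < 19/20}`), `rad2` maps into `{rsq 1 (sgi ..) ≥ 1/25 - 3 δ'}`, moves only inside `{rsq 1 (sgi ..) ≤ 1/25 - δ'} ⊆ {1/25 - δ' < rsq 1 ≤ 49/100}`.
Frontier: points `q` near `p` not in the region: level `< 0` or `> 1`, or `rsq 1 q > 49/100`, or `rsq 1 q < 1/25 - 3 δ'`: `M' q = q`, `rad2 q = q` (`rsq 1 (sgi q) > 1/25 - δ'` near `p`). -/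
def StD2 : Prop :=
  ∀ (G T T' S S' M M' : R4 → R4) (δ δ' κ β c : ℝ) (D D' : ArcD) (H : DFam 𝓘(ℝ, R4) R4) (a b : ℝ),
    Sys G T T' δ δ' κ β c D D' H a b → SHat c S S' → MOk δ' H S' M M' →
    ∃ D₂ : ArcD, D2Ok G M M' δ' κ β a b D₂

/-- MODULE JO (uses `StGH`).
Proof.  (1) `StGH` with the region `Reg δ' \ hol δ' κ β`, `B = wallS δ' ∪ wall2 δ' κ β ∪ {(s, z0 s) | s ∈ [s₀', s₁']}`, `h p = rade δ' 1 (S' p)`.  `S (s, e1) = (s, z0 s)`, so `S' p` is not on the line over `e1` for `p` in the region off `B` (as in `StHE`).  `S` and `S'` are the identity at the points `p` with `rsq 1 (sgi p) ≤ 1/25` (distance from `ℝ e1` at least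
`β - κ > 1/50`), hence preserve this set and its complement.  `h p ∈ hol ∪ wall2` implies `p ∈ hol ∪ wall2` (if `h p` is there then `rsq 1 (h p) > 1/25 - δ'`, so `h p = S' p`, and `S (S' p) = S' p`).  `S` preserves `{0 ≤ s ≤ 1, rsq 1 ≤ 49/100}` (it is the identity off it and on its boundary: distance from the segment).
So `MapsTo` and `jo` maps `U2 \ D'.A` into `D₂.U`.  (2) For `s ∈ (a, b)` and `p = (s', P2 β + y)` near `(s, P2 β)`: `H.f (1, p)` is near `(s, z2 c β s)`, in the region, not in `B`; `jo (G (H.f (1, p))) = G (rade δ' 1 (S' (H.f (1, p)))) = G (M (rade δ' 1 p)) = G (M p)` (`rsq 1 p > 1/25 - δ'` near `(s, P2 β)`).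
(3) On `K`: `EE x = D₂.e (jo x)`: for `x = G p`, `p` in the region: `jo x = G (rade δ' 1 (S' p))`, `q = H.g (1, p)`, `S' p = S' (H.f (1, q))`, `rsq 1 q > 0`, so `jo x = G (M (rade δ' 1 q))`, `M (rade δ' 1 q)` is in the region, `D₂.e (jo x) = G (rad2 (rade δ' 1 q)) = G (rade δ' 1 (rad2 q)) = EE x` (the supports of the two radial maps are
disjoint, `Geo5.lean`).  For other `x` all are `x`.  `jo '' K ⊆ D₂.U \ D₂.A`: if `jo x = D₂.J (s, 0)`: `s ∈ (a, b)` (`off₀`, `off₁`), `D₂.J (s, 0) = jo (G (H.f (1, (s, P2 β))))`, by injectivity `x ∈ A2`: impossible.  `StImp` (6), (8); `CIsot` is reflexive for these maps (`SDiff`; e.g. `StPush` for a constant family). -/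
def StJO : Prop :=
  ∀ (G T T' S S' M M' : R4 → R4) (δ δ' κ β c : ℝ) (D D' D₂ : ArcD) (H : DFam 𝓘(ℝ, R4) R4)
    (a b : ℝ), Sys G T T' δ δ' κ β c D D' H a b → SHat c S S' → MOk δ' H S' M M' →
    D2Ok G M M' δ' κ β a b D₂ →
    EmbOn I4 (jo G S' δ' κ β) (U2 G δ' κ β \ D'.A) ∧
    MapsTo (jo G S' δ' κ β) (U2 G δ' κ β \ D'.A) D₂.U ∧
    (∀ s ∈ Ioo a b, ∀ᶠ p in 𝓝 ((s, 0) : R4),
      D₂.J p = jo G S' δ' κ β (G (H.f (1, (p.1, P2 β + p.2))))) ∧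
    ∀ (K : Set R4) (Θ Θ' : R4 → R4), IsCompact K →
      K ⊆ U2 G δ' κ β \ (D'.A ∪ A2 G H β a b) → SDiff K Θ Θ' →
      jo G S' δ' κ β '' K ⊆ D₂.U \ D₂.A ∧
      CIsot I4 (imp (EE G H δ' κ β) K Θ)
        (imp D₂.e (jo G S' δ' κ β '' K) (imp (jo G S' δ' κ β) K Θ))

/-! ## the crossing lemma for loops of arcs -/

/-- XF (helper27).  The push of a loop of arcs which moves off `G '' XX`. -/
def StXF : Prop :=
  ∀ (G T' : R4 → R4) (δ δ' κ β : ℝ) (D : ArcD) (c : ℝ → ℝ → R4) (χ : R4 → R4), Par δ δ' κ β →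
    EmbOn I4 G (K3 δ') → HatOk δ T' G D → LoopOK D c →
    (∀ q ∈ Icc (0 : ℝ) 1, ∀ s ∈ Icc (9 / 20 : ℝ) (11 / 20), c q s ∉ G '' XX δ' κ β) →
    (∀ q ∈ Icc (0 : ℝ) 1, InjOn (c q) (Icc D.s₀ D.s₁) ∧ ∀ s ∈ Icc D.s₀ D.s₁, deriv (c q) s ≠ 0) →
    D.Cls c χ → ∃ F : DFam 𝓘(ℝ, R4) R4, (∀ x, F.f (0, x) = x) ∧ SuppU (G '' XX δ' κ β)ᶜ F ∧
      (∀ t ∈ Icc (0 : ℝ) 1, ∀ s ∈ Icc D.s₀ D.s₁, F.f (t, G (s, z0 s)) = c (step t) s) ∧
      (∃ N : Set R4, IsOpen N ∧ seg (11 / 25) (14 / 25) ⊆ N ∧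
        ∀ p ∈ N, F.f (1, G (p.1, z0 p.1 + p.2)) = G (p.1, z0 p.1 + p.2)) ∧
      ∀ K : Set R4, IsCompact K → K ⊆ D.U \ D.A → (∀ x, x ∉ K → F.f (1, x) = x) →
        CIsot I4 χ (imp D.e K (fun x => F.f (1, x)))

/-- XL (helper27).  The class of a loop of arcs which moves off `G '' XX` with respect to the two arc data. -/
def StXL : Prop :=
  ∀ (G T T' : R4 → R4) (δ δ' κ β : ℝ) (D D' : ArcD) (c : ℝ → ℝ → R4) (W χ χ' : R4 → R4),
    IsW W → Par δ δ' κ β → FingB T T' → EmbOn I4 G (K3 δ') → HatOk δ T' G D →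
    HatOk δ' T' G D' → LoopOK D c →
    (∀ q ∈ Icc (0 : ℝ) 1, ∀ s ∈ Icc (9 / 20 : ℝ) (11 / 20), c q s ∉ G '' XX δ' κ β) →
    (∀ q ∈ Icc (0 : ℝ) 1, InjOn (c q) (Icc D.s₀ D.s₁) ∧ ∀ s ∈ Icc D.s₀ D.s₁, deriv (c q) s ≠ 0) →
    (∀ n : ℕ, ∀ q ∈ Icc (0 : ℝ) 1, ∀ s ∈ Icc (9 / 20 : ℝ) (11 / 20),
      ∀ s' ∈ Icc (11 / 25 : ℝ) (14 / 25),
      c q s ≠ G (s', ((73 / 100 : ℝ), ((β / (n + 2) : ℝ) : ℂ)))) →
    D.Cls c χ → D'.Cls (fun q s => c q s + (D'.c s - D.c s)) χ' →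
    CIsot I4 χ' χ ∨ CIsot I4 χ' (fun x => W (χ x))

end Pool.Agent.Helper27.S5
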