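import Pool.Agent.Helper27.BI.S5.St5

/-!
# Project BI, stage 5: the crossing lemma, statements, part 2

The complement of an unknotted sphere (N2a, N2b, N2c, N2) and the squares of nice spheres (SQF).
-/

set_option autoImplicit false

open scoped Manifold ContDiff Topology ComplexConjugate
open Set Filter Pool.Agent.Helper65.Barb Pool.Agent.Helper18.BI
open Pool.Agent.Helper70.BI (I4 LD NearEq IsW)
open Pool.Agent.Helper34.BI (rade qe)
open Pool.Agent.Helper27.BI (e1)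
open Pool.Agent.Helper27.H
open Pool.Agent.Helper18.BI.H (mm)
open Pool.Agent.Helper18.BI.R (LoopOK SH S2 bp)

namespace Pool.Agent.Helper27.S5

/-! ## loops of arcs in the complement of an unknotted sphere are null-homotopic -/

/-- MODULE N2a (squares in the complement of the round sphere `A₀ = {p.1 = 1/2, rsq 1 p = ρ²}` are null-homotopic relative to the boundary).
Proof.  Coordinates `p = (1/2 + ρ σ, e1 + ρ y)`, `A₀ = {σ = 0, |y| = 1}`.  Put `Z p = 2 σ + i (|y|² + σ² - 1)` (zero exactly on `A₀`), `N p = |y|² + σ² + 1`, `w p = 2 y / N` (`|w|² = 1 - |Z|²/N² < 1` off `A₀`).  The map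
`P (θ, w) = (σ, y) = (r cos θ, w)/(1 - r sin θ)`, `r = √(1 - |w|²)`, is defined and continuous for `|w| < 1` if `r sin θ ≠ 1`, i.e. unless `w = 0` and `θ ∈ π/2 + 2π ℤ`; its values are off `A₀`, and `P (θ, w p) = p` if `Z p = |Z p| e^{iθ}` (stereographic projection: `1 - r sin θ = 2/N`).
(1) Lift: there is a continuous `θ : [0,1] × [m₀,m₁] → ℝ` with `Z (f z) = |Z (f z)| e^{i θ z}`: `lift_log` in `Pool/Agent/Helper34/BI/UNK2.lean` for `g (x + i y) = Z (f (proj x, proj y))` (`projIcc`), imaginary part of the logarithm.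
(2) `θ (q, m₀)` and `θ (q, m₁)` do not depend on `q` (continuous, constant modulo `2π` since `f` is constant there), and `θ (1, s) - θ (0, s)` is a continuous function with values in `2π ℤ`, zero for `s = m₀`, so zero.
So `F = (θ, w ∘ f)` is `Γ s := F (0, s)` on the boundary of the square.  `H⁰ (u, q, s) = (1 - u) F (q, s) + u Γ s`, with values in the convex set `ℝ × {|w| < 1}`, relative to the boundary, from `F` to `Γ`.
(3) Avoid the bad points `b n = (π/2 + 2π n, 0)`: no value of `F` or `Γ` is bad (`f` has values in `R4`).  The cube `Q = [0,1] × [0,1] × [m₀,m₁]`; let `η > 0` be so small that on `Q` `|w| ≤ 1 - η` (`w`-part of `H⁰`), and that `dist (H⁰ z, b n) > η` on the boundary of the cube `Q`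
(compactness; only finitely many `n` matter).  `K_b = {z ∈ Q | ∃ n, dist (H⁰ z, b n) ≤ η}` is compact and disjoint from `∂Q`; `χ : Q → [0,1]` continuous, `1` on `K_b`, `0` on `∂Q`.  `H¹ : ℝ³ → ℝ × R3` smooth with `|H¹ - H⁰| < η/4` on `Q` (extend `H⁰` by `projIcc`; `Continuous.exists_contDiff_approx..` or
Stone-Weierstrass).  The set `{b n - H¹ z}` (`n ∈ ℤ`, `z ∈ ℝ³`) is a null set of the four-dimensional space `ℝ × R3` (images of a three-dimensional space under smooth maps: `null_linear` in `Pool/Agent/Helper34/BI/`, or `dimH`), so there is `v`, `|v| < η/4`, with `H¹ z + v ≠ b n` for all `z`, `n`.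
`H² = H⁰ + χ (H¹ - H⁰ + v)`: where `χ = 1` it is `H¹ + v`, not bad; elsewhere `dist (H⁰ z, b n) > η` and `|H² - H⁰| ≤ η/2`.  `H = P ∘ H²` (in the original coordinates). -/
def StN2a : Prop :=
  ∀ (ρ m₀ m₁ : ℝ) (f : ℝ × ℝ → R4) (γ : ℝ → R4), 0 < ρ → m₀ < m₁ →
    ContinuousOn f (Icc (0 : ℝ) 1 ×ˢ Icc m₀ m₁) →
    (∀ z ∈ Icc (0 : ℝ) 1 ×ˢ Icc m₀ m₁, ¬((f z).1 = 1 / 2 ∧ rsq 1 (f z) = ρ ^ 2)) →
    (∀ q ∈ Icc (0 : ℝ) 1, ∀ s ∈ Icc m₀ m₁, (q = 0 ∨ q = 1 ∨ s = m₀ ∨ s = m₁) → f (q, s) = γ s) →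
    ∃ H : ℝ × ℝ × ℝ → R4, ContinuousOn H (Icc (0 : ℝ) 1 ×ˢ (Icc (0 : ℝ) 1 ×ˢ Icc m₀ m₁)) ∧
      (∀ q ∈ Icc (0 : ℝ) 1, ∀ s ∈ Icc m₀ m₁, H (0, q, s) = f (q, s) ∧ H (1, q, s) = γ s) ∧
      ∀ u ∈ Icc (0 : ℝ) 1, ∀ q ∈ Icc (0 : ℝ) 1, ∀ s ∈ Icc m₀ m₁,
        ¬((H (u, q, s)).1 = 1 / 2 ∧ rsq 1 (H (u, q, s)) = ρ ^ 2) ∧
        ((q = 0 ∨ q = 1 ∨ s = m₀ ∨ s = m₁) → H (u, q, s) = γ s)

/-- MODULE N2b (pushing off the thick sphere).
Proof.  `m = 1/25 - 2 δ > 0`; `N p = max (2 |p.1 - 1/2|) (|rsq 1 p - m| / δ)`, continuous; `wallS δ = {N ≤ 1}`, and `N p = 0` iff `p.1 = 1/2` and `rsq 1 p = m`.  `N > 1` on the compact set `K`, so `N ≥ ν` on `K` for some `ν ∈ (1, 3/2)`.  For `N p ≥ ν`: `ϖ p = p`.  For `0 < N p ≤ ν`: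
`t = ν / N p ≥ 1`, `s' = 1/2 + t (p.1 - 1/2)`, `k' = m + t (rsq 1 p - m)`, so `|k' - m| ≤ ν δ`, `k' > 0`, and `rsq 1 p > 0` too; `ϖ p = (s', e1 + √(k' / rsq 1 p) • (p.2 - e1))`, with `rsq 1 (ϖ p) = k'`, `N (ϖ p) = ν > 1`.  Both formulas agree for `N p = ν`; continuous. -/
def StN2b : Prop :=
  ∀ δ ∈ Ioo (0 : ℝ) (1 / 100), ∀ K : Set R4, IsCompact K → Disjoint K (wallS δ) →
    ∃ ϖ : R4 → R4, ContinuousOn ϖ {p | ¬(p.1 = 1 / 2 ∧ rsq 1 p = 1 / 25 - 2 * δ)} ∧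
      (∀ p, ¬(p.1 = 1 / 2 ∧ rsq 1 p = 1 / 25 - 2 * δ) → ϖ p ∉ wallS δ) ∧ ∀ p ∈ K, ϖ p = p

/-- the domain of the germ in `StN2c`, `StN2` -/
def Bq : Set R4 := {p | -(1 / 2) ≤ p.1 ∧ p.1 ≤ 3 / 2 ∧ rsq 1 p ≤ 1 / 16}

/-- MODULE N2c (straightening; uses `StLOC` of `Pool/Agent/Helper70/BI/StU.lean`, and the squeezing homeomorphisms in `Pool/Agent/Helper34/BI/UNK1.lean`, compare the proof of `UNK3.core`, `UNK3.straight`).
Proof.  `x = (1/2, e1)`.  If `(fderiv ℝ G x).det < 0` replace `G` by `G ∘ r`, `r (s, (a, w)) = (s, (a, conj w))`, which preserves `Bq` and `wallS δ`.  So let the determinant be positive.  `StLOC` with `U = univ`: a diffeomorphism `g` of `R4` with `g (G q) = q` for `q` in a ball `N₀` about `x`.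
`Nn p = max (2 |p.1 - 1/2|) (5 √(rsq 1 p))`: `{Nn ≤ 1} ⊇ wallS δ`, `{Nn ≤ 5/4} ⊆ Bq` (`2 |s - 1/2| ≤ 5/4`, `√(rsq) ≤ 1/4`).  Squeeze: a homeomorphism `Q` of `R4`, `Q p = x + th (Nn p) • (p - x)` with `Q = id` for `Nn ≥ 5/4 - small` and `Q ({Nn ≤ 1}) ⊆ N₀` (functions `th`, `ti` of `UNK1.lean`).
`Q̃` = `G ∘ Q ∘ G⁻¹` on `G '' {Nn ≤ 5/4}`, the identity elsewhere: a homeomorphism of `R4` (`UNK1.exists_push`; `G` is injective and open near the compact set `{Nn ≤ 5/4}`, `StA1`).  `Ψ = Q⁻¹ ∘ g ∘ Q̃`: for `p ∈ wallS δ`: `Q̃ (G p) = G (Q p)`, `Q p ∈ N₀`, `g` of it is `Q p`, so `Ψ (G p) = p`. -/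
def StN2c : Prop :=
  ∀ (δ : ℝ) (G : R4 → R4), δ ∈ Ioo (0 : ℝ) (1 / 100) → EmbOn I4 G Bq →
    ∃ Ψ : R4 ≃ₜ R4, Ψ '' (G '' wallS δ) = wallS δ

/-- MODULE N2 (from `StN2a`, `StN2b`, `StN2c`).
Proof.  `f (q, s) = Ψ (c q s)` for `s ∈ [m₀, m₁]`, `γ s = Ψ (D.c s)`; `f` is off `wallS δ` (`Ψ` injective, `c q s ∈ D.U`); `K = f '' ([0,1] × [m₀,m₁])` compact; `ϖ` from `StN2b`; `H` from `StN2a` with `ρ² = 1/25 - 2 δ`.  The homotopy `Ψ⁻¹ (ϖ (H (u, q, s)))`: at `u = 0`: `ϖ (f (q, s)) = f (q, s)`; at `u = 1` and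
for boundary points: `ϖ (γ s) = γ s` (`γ s = f (0, s) ∈ K`); it is in `D.U`: `ϖ (..) ∉ wallS δ = Ψ '' (G '' wallS δ)`. -/
def StN2 : Prop :=
  ∀ (δ : ℝ) (G : R4 → R4) (D : ArcD) (c : ℝ → ℝ → R4), δ ∈ Ioo (0 : ℝ) (1 / 100) →
    EmbOn I4 G Bq → D.U = (G '' wallS δ)ᶜ → LoopOK D c → SH D c (fun _ s => D.c s)

/-! ## squares of nice spheres -/

/-- MODULE SQF.  A based sphere `g` which leaves the bar sideways and is otherwise off the (limit of the) forbidden region gives, for small `ε`, a square off the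
forbidden region, with the base arc as boundary values, homotopic to the translated square of `g` off the walls.
`arc s = F (sq ε (s, (73/100, 0)))` is the base arc, `bp F = F (bar (73/100)) = F (1/2, (73/100, 0))`.
Proof.  `F` is injective and a local diffeomorphism, in particular continuous, on an open `N ⊇ SP ∪ shell δ'` (`StA1`); `τ₀` such that `(1/2, (73/100, w)) ∈ N` for `|w| ≤ 2 τ₀` (`bar (73/100) ∈ SP`), `τ₀ ≤ 1/100`.
For `m ∈ S2` put `t = 10 (1 - m.1)`; the collar is `t ≤ 1`.  In the collar `g m = F (1/2, (73/100, t τ₁))`.  For `t ∈ [0,1]`, `s ∈ [9/20, 11/20]` define the point `Y ε s t` (before applying `F`): with `(s', (a', b4)) = sq ε (s, (73/100, 4))` (the third coordinate `b4` is real and positive; `a' = axc ε (73/100)`,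
`s' = 1/2 + ε (s - 1/2)` or similar, see the definition of `sq`, `fac`, `prof`, `axc`: `sq ε (s, (a, w)) = (.., (axc ε a, fac ε a |w|² w))`):
`t ≤ 1/3`: `Y = sq ε (s, (73/100, 12 t))`; `1/3 ≤ t ≤ 2/3`: `Y = (s', (a', (2 - 3 t) b4 + (3 t - 1) τ₁))`; `2/3 ≤ t ≤ 1`: `Y` = the segment from `(s', (a', τ₁))` to `(1/2, (73/100, τ₁))`.
(i) `Y ∉ sq ε '' XX δ' κ β`: `sq ε` is injective (`StS..`: it is of the form `tri`, injective).  First part: `(s, (73/100, 12 t)) ∉ XX` since it is in `Chn` (`9/20 ≤ s ≤ 11/20`, `|a - 73/100| = 0`, `w` real `≥ 0`).  Second part: `Y = sq ε (s'', (a, w))` with `(s'', (a, w)) ∈ XX` gives (`axc ε` is injective) `a = 73/100`, `w` real positive (`fac > 0`)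
and `fac ε a w² w ≥ fac ε a 16 · 4`, so `w ≥ 4` (the function `w ↦ fac ε a w² w` is strictly increasing, `StS1`), but `rsq 1 ≤ 49/100` in `XX`.  Third part: as `ε → 0`, `Y` is uniformly close to `(1/2, (73/100, τ₁))`, which is not in `sq 0 '' (Reg δ') ⊆ SP ∪ shell δ'` (`τ₁ > 0`);
`sq` is continuous up to `ε = 0` (`StS3`) and `Reg δ'` is compact, so for small `ε` the third part is off `sq ε '' Reg δ'`.
(ii) `f q s` for `m = mm q s`: in the collar `F (Y ε s t)`, otherwise `g m`.  At `t = 1` both are `F (1/2, (73/100, τ₁))`.  Continuous (`mm` is continuous, `F` is continuous near all `Y` for small `ε`).  At the boundary of the square `mm q s = (1, 0)` (`mm_edge`, `mm_ends` in `EndR4.lean`), `t = 0`: `F (sq ε (s, (73/100, 0)))`.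
Off `F '' (sq ε '' XX)`: in the collar by (i) and the injectivity of `F` on `N` (for small `ε`: `sq ε '' Reg δ' ⊆ N` and the `Y` are in `N`: `sq 0 '' Reg δ' ⊆ SP ∪ shell δ'`, `StS5`-type tube lemma).  Outside the collar: `g` is off `F '' (sq 0 '' closure XX)`: `XX` is closed (`hol` and `Chn` are relatively open in `Reg`: `hol ∩ Reg` is relatively open),
hence compact; `g '' {m ∈ S2 | m.1 ≤ 9/10}` is compact, disjoint from the compact set `F '' (sq 0 '' XX)`, so for small `ε` it is disjoint from `F '' (sq ε '' XX)`.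
(iii) The homotopy `H (u, q, s)`: outside the collar: `g m + u (arc s - bp F)`; in the collar `F (Y + u' ..)` in two steps: for `u ≤ 1/2`: `F ((1 - 2 u) Y + 2 u (1/2, (73/100, t τ₁)))`, for `u ≥ 1/2`: `g m + (2 u - 1) (arc s - bp F)`; outside the collar for `u ≤ 1/2` constantly `g m`.  To have the right boundary values for all `u`
(`arc s` at `t = 0`) insert a correction: replace `(1/2, (73/100, t τ₁))` by `(1/2, (73/100, t τ₁)) + (1 - t) (sq ε (s, (73/100, 0)) - (1/2, (73/100, 0)))` and in the second step use the linear homotopy from `F` of this point to `g m + (arc s - bp F)`.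
All these points are, for small `ε`, as close as we like to `g m` outside the collar, and to `F ({1/2} × {(73/100, w) | 0 ≤ w ≤ τ₁})` in the collar; these compact sets are off `F '' (sq 0 '' (wallS δ ∪ wallS δ'))`: `g m ∉ F '' (sq 0 '' XX)` outside the collar and `wallS δ ∪ wallS δ' ⊆ XX` (`Par`), in the collar by the injectivity of `F` on `N`.
So for small `ε` `H` is off `F '' (sq ε '' (wallS δ ∪ wallS δ'))`. -/
def StSQF : Prop :=
  ∀ F : R4 → R4, EmbOn I4 F SP → ∃ τ₀ > 0, ∀ τ₁ ∈ Ioo 0 τ₀, ∀ δ δ' κ β : ℝ, Par δ δ' κ β →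
    EmbOn I4 F (SP ∪ shell δ') → ∀ g : R3 → R4, ContinuousOn g S2 →
    (∀ m ∈ S2, 9 / 10 ≤ m.1 → g m = F (1 / 2, (73 / 100, ((10 * (1 - m.1) * τ₁ : ℝ) : ℂ)))) →
    (∀ m ∈ S2, m.1 ≤ 9 / 10 → ∀ p ∈ XX δ' κ β, g m ≠ F (sq 0 p)) →
    ∃ ε₀ > 0, ∀ ε ∈ Ioo 0 ε₀, ∃ (f : ℝ → ℝ → R4) (H : ℝ × ℝ × ℝ → R4),
      ContinuousOn (fun z : ℝ × ℝ => f z.1 z.2) (Icc (0 : ℝ) 1 ×ˢ Icc (9 / 20 : ℝ) (11 / 20)) ∧
      (∀ q ∈ Icc (0 : ℝ) 1, ∀ s ∈ Icc (9 / 20 : ℝ) (11 / 20),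
        (∀ p ∈ XX δ' κ β, f q s ≠ F (sq ε p)) ∧
        ((q = 0 ∨ q = 1 ∨ s = 9 / 20 ∨ s = 11 / 20) → f q s = F (sq ε (s, (73 / 100, 0)))) ∧
        H (0, q, s) = f q s ∧
        H (1, q, s) = g (mm q s) + (F (sq ε (s, (73 / 100, 0))) - bp F)) ∧
      ContinuousOn H (Icc (0 : ℝ) 1 ×ˢ (Icc (0 : ℝ) 1 ×ˢ Icc (9 / 20 : ℝ) (11 / 20))) ∧
      ∀ u ∈ Icc (0 : ℝ) 1, ∀ q ∈ Icc (0 : ℝ) 1, ∀ s ∈ Icc (9 / 20 : ℝ) (11 / 20),
        (∀ p ∈ wallS δ ∪ wallS δ', H (u, q, s) ≠ F (sq ε p)) ∧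
        ((q = 0 ∨ q = 1 ∨ s = 9 / 20 ∨ s = 11 / 20) →
          H (u, q, s) = F (sq ε (s, (73 / 100, 0))))

end Pool.Agent.Helper27.S5
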