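import Pool.Agent.Helper27.BI.S5.Geo5
import Pool.Agent.Helper27.BI.H.AsmH

/-!
# Project BI, stage 5: the module XF
-/

set_option autoImplicit false
set_option linter.unusedSectionVars false

open scoped Manifold ContDiff Topology ComplexConjugate
open Set Filter Pool.Agent.Helper65.Barb Pool.Agent.Helper18.BI
open Pool.Agent.Helper70.BI (I4 LD NearEq IsW ld_iff)
open Pool.Agent.Helper27.BI (e1)
open Pool.Agent.Helper27.H
open Pool.Agent.Helper18.BI.R (LoopOK SH)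

namespace Pool.Agent.Helper27.S5

namespace XF

theorem htpy_of {D : ArcD} {c : ℝ → ℝ → R4} (h : LoopOK D c) :
    D.Htpy (fun z => c z.2.1 z.2.2) where
  smooth := h.smooth.comp (f := fun z : ℝ × ℝ × ℝ => z.2) contDiff_snd
  froz _ _ q hq s hs := h.froz q hq s hs
  inU _ _ q hq s hs := h.inU q hq s hs
  start _ _ s := h.start s
  stop _ _ s := h.stop s

section hat
variable {G T' : R4 → R4} {δ δ' κ β : ℝ} {D : ArcD} (hp : Par δ δ' κ β)
  (hD : HatOk δ T' G D)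
include hD

theorem c_eq {s : ℝ} (hs : s ∈ Icc D.s₀ D.s₁) : D.c s = G (s, z0 s) := by
  rw [← D.core s hs, hD.J]
  show G (s, z0 s + 0) = _
  rw [add_zero]

theorem J_seg (s : ℝ) : D.J (s, 0) = G (s, z0 s) := by
  rw [hD.J]
  show G (s, z0 s + 0) = _
  rw [add_zero]

theorem bge {s : ℝ} (hs : s ∈ Icc D.s₀ D.s₁) : 1 / 25 - δ ≤ bfin s ^ 2 := by
  rcases eq_or_lt_of_le hs.1 with h | h
  · rw [← h, hD.b₀]
  · rcases eq_or_lt_of_le hs.2 with h' | h'
    · rw [h', hD.b₁]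
    · exact (hD.b s ⟨h, h'⟩).le

include hp

/-- the arc is in the forbidden region off the levels of the channel -/
theorem z0_XX {s : ℝ} (hs : s ∈ Icc D.s₀ D.s₁) (hs' : s ≤ 11 / 25 ∨ 14 / 25 ≤ s) :
    (s, z0 s) ∈ XX δ' κ β := by
  have b1 := bge hD hs
  have b2 := bfin_le s
  have b3 := bfin_nonneg s
  have l0 : 0 ≤ s := by linarith [hD.s₀.1, hs.1]
  have l1 : s ≤ 1 := by linarith [hD.s₁.2, hs.2]
  have r := rsq1_z0 s
  refine ⟨⟨l0, l1, ?_, ?_⟩, ?_⟩
  · rw [r]; linarith [hp.d0, hp.d1]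
  · rw [r]; nlinarith
  · rintro (h | h)
    · have h1 := Geo.hol_near hp h
      have e : nsq (z0 s - P2 β) = bfin s ^ 2 + β ^ 2 := by
        rw [Geo.z0_def, Geo.nsq_def]
        unfold P2
        simp
      have h1' : nsq (z0 s - P2 β) ≤ κ ^ 2 := h1
      rw [e] at h1'
      have k0 := hp.k0
      have k1 := hp.k1
      nlinarith [sq_nonneg (bfin s)]
    · obtain ⟨h1, h2, -⟩ := h
      simp only at h1 h2
      rcases hs' with h | h <;> linarith

theorem U_sub : (G '' XX δ' κ β)ᶜ ⊆ D.U := by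
  rw [hD.U]
  exact compl_subset_compl.2 (image_mono (Geo.wall_XX' hp))

end hat

end XF

/-- XF, with one more property: near the part `[11/25, 9/20] ∪ [11/20, 14/25]` of the arc all the maps are the identity. -/
def StXF' : Prop :=
  ∀ (G T' : R4 → R4) (δ δ' κ β : ℝ) (D : ArcD) (c : ℝ → ℝ → R4) (χ : R4 → R4), Par δ δ' κ β →
    EmbOn I4 G (K3 δ') → HatOk δ T' G D → LoopOK D c →
    (∀ q ∈ Icc (0 : ℝ) 1, ∀ s ∈ Icc (9 / 20 : ℝ) (11 / 20), c q s ∉ G '' XX δ' κ β) →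
    (∀ q ∈ Icc (0 : ℝ) 1, InjOn (c q) (Icc D.s₀ D.s₁) ∧ ∀ s ∈ Icc D.s₀ D.s₁, deriv (c q) s ≠ 0) →
    D.Cls c χ → ∃ F : DFam 𝓘(ℝ, R4) R4, (∀ x, F.f (0, x) = x) ∧ SuppU (G '' XX δ' κ β)ᶜ F ∧
      (∀ t ∈ Icc (0 : ℝ) 1, ∀ s ∈ Icc D.s₀ D.s₁, F.f (t, G (s, z0 s)) = c (step t) s) ∧
      (∃ N : Set R4, IsOpen N ∧ seg (11 / 25) (14 / 25) ⊆ N ∧
        (∀ p ∈ N, F.f (1, G (p.1, z0 p.1 + p.2)) = G (p.1, z0 p.1 + p.2)) ∧
        ∀ t ∈ Icc (0 : ℝ) 1, ∀ p ∈ N, (p.1 < 9 / 20 ∨ 11 / 20 < p.1) →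
          F.f (t, G (p.1, z0 p.1 + p.2)) = G (p.1, z0 p.1 + p.2)) ∧
      ∀ K : Set R4, IsCompact K → K ⊆ D.U \ D.A → (∀ x, x ∉ K → F.f (1, x) = x) →
        CIsot I4 χ (imp D.e K (fun x => F.f (1, x)))

/-- **XF.** -/
theorem m_XF' : StXF' := by
  intro G T' δ δ' κ β D c χ hp hG hD hc hX hemb hχ
  set U : Set R4 := (G '' XX δ' κ β)ᶜ with hUdef
  have hXc : IsCompact (XX δ' κ β) := Geo.isCompact_XX δ' κ β
  have hXK : XX δ' κ β ⊆ K3 δ' := fun p h => Geo.Reg_K3 h.1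
  have hGc : ContinuousOn G (XX δ' κ β) := fun p h =>
    (hG.1 p (hXK h)).contMDiffAt.continuousAt.continuousWithinAt
  have hUo : IsOpen U := (hXc.image_of_continuousOn hGc).isClosed.isOpen_compl
  have hUD : U ⊆ D.U := XF.U_sub hp hD
  have m0 : D.s₀ ≤ 11 / 25 := by linarith [hD.s₀.2]
  have m1 : (14 / 25 : ℝ) ≤ D.s₁ := by linarith [hD.s₁.1]
  have hsub : Icc (11 / 25 : ℝ) (14 / 25) ⊆ Icc D.s₀ D.s₁ := Icc_subset_Icc m0 m1
  have hsegs : seg (11 / 25) (14 / 25) ⊆ seg D.s₀ D.s₁ := fun p h =>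
    ⟨m0.trans h.1, h.2.1.trans m1, h.2.2⟩
  have hxs : ContDiff ℝ ∞ (fun z : (ℝ × ℝ) × ℝ => c z.1.2 z.2) :=
    hc.smooth.comp (f := fun z : (ℝ × ℝ) × ℝ => (z.1.2, z.2)) (by fun_prop)
  -- the family of germs in the smaller set
  have key := hTHK Q2 (11 / 25) (9 / 20) (11 / 20) (14 / 25) U D.J D.c (fun a s => c a.2 s)
    (by norm_num) (by norm_num) (by norm_num) hUo
    ⟨fun p h => D.emb.1 p (hsegs h), D.emb.2.mono hsegs⟩ D.smooth
    (fun s hs => D.core s (hsub hs)) hxs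
    (fun a ha s hs => hc.froz a.2 ha.2 s (by rw [hD.m₀, hD.m₁]; exact hs))
    (fun a ha s hs => hX a.2 ha.2 s hs)
    (fun a ha => (hemb a.2 ha.2).1.mono hsub)
    (fun a ha s hs => (hemb a.2 ha.2).2 s (hsub hs))
  have keyD := hTHK Q2 D.s₀ D.m₀ D.m₁ D.s₁ D.U D.J D.c (fun a s => c a.2 s)
    D.h₀ D.h₁ D.h₂ D.openU D.emb D.smooth D.core hxs
    (fun a ha s hs => hc.froz a.2 ha.2 s hs)
    (fun a ha s hs => hc.inU a.2 ha.2 s hs)
    (fun a ha => (hemb a.2 ha.2).1)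
    (fun a ha s hs => (hemb a.2 ha.2).2 s hs)
  set J : ℝ → R4 → R4 := fun q => thk D.J D.c (c q) with hJdef
  have c0 : c 0 = D.c := funext hc.start
  have c1 : c 1 = D.c := funext hc.stop
  have J0 : J 0 = D.J := by
    funext p
    show thk D.J D.c (c 0) p = _
    rw [c0]
    unfold thk
    simp
  have J1 : J 1 = D.J := by
    funext p
    show thk D.J D.c (c 1) p = _
    rw [c1]
    unfold thk
    simp
  -- the frozen part
  have hfr : ∀ q ∈ Icc (0 : ℝ) 1, ∀ p : R4, (p.1 < 9 / 20 ∨ 11 / 20 < p.1) → J q p = D.J p := by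
    intro q hq p hp'
    have h1 := keyD.1.froz (0, q) ⟨by simp, hq⟩ (0, 0) ⟨by simp, by simp⟩ p
      (by rw [hD.m₀, hD.m₁]; exact hp')
    rw [← J0]
    exact h1
  obtain ⟨Θ, F, F0, F1, ⟨K₀, hK₀, hK₀U, hFs⟩, N, hN, hLN, hF⟩ :=
    exists_lpush1 hCH4 (isCompact_seg (11 / 25) (14 / 25))
      ((isOpen_lt continuous_fst continuous_const).union
        (isOpen_lt continuous_const continuous_fst)) hUo (J := J) key.1
  -- extension of the tracking property to the whole arc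
  have hext : ∃ N' : Set R4, IsOpen N' ∧ D.L ⊆ N' ∧ ∀ t ∈ Icc (0 : ℝ) 1, ∀ p ∈ N',
      F.f (t, D.J p) = J (step t) p := by
    have ho : ∀ p ∈ D.L, (p.1 ≤ 11 / 25 ∨ 14 / 25 ≤ p.1) → ∀ᶠ q in 𝓝 p, D.J q ∉ K₀ := by
      intro p hpL hpl
      have hcont : ContinuousAt D.J p := (D.emb.1 p hpL).contMDiffAt.continuousAt
      have hnot : D.J p ∉ K₀ := by
        obtain ⟨hs, he⟩ := eq_of_mem_seg hpL
        intro hin
        have h2 := hK₀U hin
        apply h2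
        rw [he, XF.J_seg hD]
        exact mem_image_of_mem _ (XF.z0_XX hp hD hs hpl)
      exact hcont.eventually (hK₀.isClosed.isOpen_compl.mem_nhds hnot)
    have hall : ∀ p ∈ D.L, ∀ᶠ q in 𝓝 p, ∀ t ∈ Icc (0 : ℝ) 1, F.f (t, D.J q) = J (step t) q := by
      intro p hpL
      by_cases hpl : p.1 ≤ 11 / 25 ∨ 14 / 25 ≤ p.1
      · have hV : ∀ᶠ q : R4 in 𝓝 p, q.1 < 9 / 20 ∨ 11 / 20 < q.1 := by
          apply ((isOpen_lt continuous_fst continuous_const).union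
            (isOpen_lt continuous_const continuous_fst)).mem_nhds
          rcases hpl with h | h
          · exact Or.inl (lt_of_le_of_lt h (by norm_num))
          · exact Or.inr (lt_of_lt_of_le (by norm_num) h)
        filter_upwards [ho p hpL hpl, hV] with q h1 h2 t ht
        rw [hFs t _ h1, hfr _ (step_mem t) q h2]
      · push Not at hpl
        have hin : p ∈ seg (11 / 25) (14 / 25) := ⟨hpl.1.le, hpl.2.le, hpL.2.2⟩
        filter_upwards [hN.mem_nhds (hLN hin)] with q hq t ht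
        have := hF t ht q hq
        rw [J0] at this
        exact this
    refine ⟨interior {q | ∀ t ∈ Icc (0 : ℝ) 1, F.f (t, D.J q) = J (step t) q},
      isOpen_interior, fun p hpL => mem_interior_iff_mem_nhds.2 (hall p hpL),
      fun t ht p hp' => ?_⟩
    have := interior_subset hp'
    exact this t ht
  obtain ⟨N', hN', hLN', hF'⟩ := hext
  refine ⟨F, F0, ⟨K₀, hK₀, hK₀U, hFs⟩, ?_, ?_, ?_⟩
  · intro t ht s hs
    have h1 := hF' t ht (s, 0) (hLN' (mem_seg hs))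
    rw [XF.J_seg hD] at h1
    rw [h1]
    exact keyD.2.1 (0, step t) s hs
  · refine ⟨N', hN', fun p h => hLN' (hsegs h), fun p hp' => ?_, fun t ht p hp' hpV => ?_⟩
    · have h1 := hF' 1 (by simp) p hp'
      rw [Pool.Agent.Helper27.BI.step_one, J1, hD.J] at h1
      exact h1
    · have h1 := hF' t ht p hp'
      rw [hfr _ (step_mem t) p hpV, hD.J] at h1
      exact h1
  · intro K hK hKs hFK
    have hLP : LPush D.U D.L J Θ :=
      ⟨F, F0, F1, ⟨K₀, hK₀, hK₀U.trans hUD, hFs⟩, N', hN', hLN', fun t ht p hp' => by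
        rw [J0]
        exact hF' t ht p hp'⟩
    have hphi : D.Phi Θ (imp D.e K Θ) := by
      have hΘK : ∀ x, x ∉ K → Θ x = x := fun x hx => by rw [← F1]; exact hFK x hx
      refine ⟨K, hK, hKs, hΘK, ?_⟩
      have he : EmbOn I4 D.e K := ⟨fun p h => D.embe.1 p (hKs h), D.embe.2.mono hKs⟩
      have h1 := hPush _ _ I4 R4 D.e K (F.freeze 1) hK he (fun t x hx => hFK x hx)
      have e : (fun p => (F.freeze 1).f (0, p)) = Θ := funext fun x => F1 x
      have e' : (fun p => (F.freeze 1).f (1, p)) = Θ := funext fun x => F1 x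
      rw [e, e'] at h1
      exact h1
    have hcls : D.Cls c (imp D.e K Θ) :=
      ⟨J, fun q _ s hs => keyD.2.1 (0, q) s hs, D.V, D.isOpen_V, D.mem_V₀, D.mem_V₁,
        keyD.1, fun p _ => by rw [J0], by rw [J0]; exact nearEq_refl _ _,
        by rw [J1]; exact nearEq_refl _ _, Θ, hLP, hphi⟩
    have h := (hCls D).1 c _ _ hχ hcls
    have e : (fun x => F.f (1, x)) = Θ := funext F1
    rw [e]
    exact h

end Pool.Agent.Helper27.S5
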