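import Pool.Agent.Helper27.BI.S5.XF

/-!
# Project BI, stage 5: abstract lemmas for the module XL
-/

set_option autoImplicit false
set_option linter.unusedSectionVars false

open scoped Manifold ContDiff Topology ComplexConjugate
open Set Filter Pool.Agent.Helper65.Barb Pool.Agent.Helper18.BI
open Pool.Agent.Helper70.BI (I4 LD NearEq IsW ld_iff)
open Pool.Agent.Helper27.BI (e1)
open Pool.Agent.Helper27.H
open Pool.Agent.Helper18.BI.R (LoopOK SH shp HasCl StHCL)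

namespace Pool.Agent.Helper27.S5

namespace XL

theorem ci_symm {φ ψ : R4 → R4} (h : CIsot I4 φ ψ) : CIsot I4 ψ φ :=
  Pool.Agent.Helper27.BI.CIsot.symm' h

theorem ci_trans {φ ψ χ : R4 → R4} (h : CIsot I4 φ ψ) (h' : CIsot I4 ψ χ) :
    CIsot I4 φ χ := Pool.Agent.Helper27.BI.CIsot.trans' h h'

theorem ci_comp {φ ψ φ' ψ' : R4 → R4} (h : CIsot I4 φ ψ) (h' : CIsot I4 φ' ψ') :
    CIsot I4 (fun x => φ (φ' x)) (fun x => ψ (ψ' x)) := Pool.Agent.Helper27.BI.CIsot.comp' h h'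

theorem loopOK_const (D : ArcD) : LoopOK D (fun _ s => D.c s) where
  smooth := D.smooth.comp (f := fun z : ℝ × ℝ => z.2) contDiff_snd
  froz _ _ _ _ := rfl
  inU _ _ s hs := D.mem s ⟨lt_of_lt_of_le D.h₀ hs.1, lt_of_le_of_lt hs.2 D.h₂⟩
  start _ := rfl
  stop _ := rfl

theorem sh_refl {D : ArcD} {c : ℝ → ℝ → R4} (h : LoopOK D c) : SH D c c := by
  refine ⟨fun z => c z.2.1 z.2.2, ?_, fun _ _ _ _ => ⟨rfl, rfl⟩, fun u _ q hq s hs => ⟨?_, ?_⟩⟩
  · have h1 : Continuous fun z : ℝ × ℝ => c z.1 z.2 := h.smooth.continuous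
    exact (h1.comp (f := fun z : ℝ × ℝ × ℝ => z.2) continuous_snd).continuousOn
  · exact h.inU q hq s hs
  · rintro (h1 | h1 | h1 | h1)
    · show c q s = D.c s
      rw [h1]
      exact h.start s
    · show c q s = D.c s
      rw [h1]
      exact h.stop s
    · exact h.froz q hq s (Or.inl h1.le)
    · exact h.froz q hq s (Or.inr h1.ge)

theorem shp_zero (D : ArcD) (c : ℝ → ℝ → R4) : shp D 0 (fun q s => c q s - D.c s) = c := by
  funext q s
  unfold shp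
  simp

/-- homotopic loops of arcs have the same class up to `W` -/
theorem wr_of_sh (hHCL : StHCL) {D : ArcD} {c c' : ℝ → ℝ → R4} {W χ χ' : R4 → R4} (hW : IsW W)
    (h : LoopOK D c) (h' : LoopOK D c') (hs : SH D c c') (hχ : D.Cls c χ) (hχ' : D.Cls c' χ') :
    CIsot I4 χ' χ ∨ CIsot I4 χ' (fun x => W (χ x)) := by
  have h1 : HasCl D 0 (fun q s => c' q s - D.c s) χ := ⟨c, h, hχ, by rw [shp_zero]; exact hs⟩
  have h2 : HasCl D 0 (fun q s => c' q s - D.c s) χ' :=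
    ⟨c', h', hχ', by rw [shp_zero]; exact sh_refl h'⟩
  exact (hHCL D 0).2.2.2.2.2.2 W _ χ χ' hW h1 h2

/-- the classes of the end of a family pushed forward by an embedding into the complement of a wall -/
theorem pc (hPF : StPF) (hTCF : StTCF) {D : ArcD} {ι : R4 → R4} {O K' : Set R4}
    {B : DFam 𝓘(ℝ, R4) R4} {E : R4 → R4} (hι : EmbOn I4 ι O) (hm : MapsTo ι O D.U)
    (hB0 : ∀ x, B.f (0, x) = x) (hBs : SuppU O B) (hK' : IsCompact K') (hK'O : K' ⊆ O)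
    (hBK : ∀ x, x ∉ K' → B.f (1, x) = x) (hK'D : ι '' K' ⊆ D.U \ D.A)
    (hE : CIsot I4 E (imp D.e (ι '' K') (imp ι K' (fun x => B.f (1, x))))) :
    ∃ B' : DFam 𝓘(ℝ, R4) R4, (∀ x, B'.f (0, x) = x) ∧ SuppU D.U B' ∧
      (∀ t, ∀ x ∈ O, B'.f (t, ι x) = ι (B.f (t, x))) ∧
      (∀ s ∈ Icc D.s₀ D.s₁, B'.f (1, D.c s) = D.c s) ∧
      D.Cls (fun q s => B'.f (q, D.c s)) E := by
  obtain ⟨K, hK, hKO, hBK0⟩ := hBs
  have hιK : EmbOn I4 ι K := ⟨fun p h => hι.1 p (hKO h), hι.2.mono hKO⟩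
  obtain ⟨B', b1, b2, b3⟩ := hPF ι K B hιK hK hBK0
  have hcont : ∀ L ⊆ O, ContinuousOn ι L := fun L hL p h =>
    (hι.1 p (hL h)).contMDiffAt.continuousAt.continuousWithinAt
  have hO : ∀ t, ∀ x ∈ O, B'.f (t, ι x) = ι (B.f (t, x)) := by
    intro t x hx
    by_cases h : x ∈ K
    · exact b2 t x h
    · rw [hBK0 t x h]
      apply b3
      rintro ⟨y, hy, e⟩
      exact h (hι.2 (hKO hy) hx e ▸ hy)
  have h0 : ∀ x, B'.f (0, x) = x := by
    intro y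
    by_cases h : y ∈ ι '' K
    · obtain ⟨x, hx, rfl⟩ := h
      rw [b2 0 x hx, hB0]
    · exact b3 0 y h
  have h1 : ∀ y, y ∉ ι '' K' → B'.f (1, y) = y := by
    intro y hy
    by_cases h : y ∈ ι '' K
    · obtain ⟨x, hx, rfl⟩ := h
      rw [b2 1 x hx, hBK x (fun h => hy (mem_image_of_mem _ h))]
    · exact b3 1 y h
  have hKc : IsCompact (ι '' K') := hK'.image_of_continuousOn (hcont K' hK'O)
  have hinj : InjOn ι K' := hι.2.mono hK'O
  have e1 : imp ι K' (fun x => B.f (1, x)) = fun x => B'.f (1, x) := by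
    have him := hImp R4 R4 I4 R4 ι K' (fun x => B.f (1, x)) hinj
    funext y
    by_cases h : y ∈ ι '' K'
    · obtain ⟨x, hx, rfl⟩ := h
      rw [him.1 x hx]
      exact (hO 1 x (hK'O hx)).symm
    · rw [him.2.1 y h]
      exact (h1 y h).symm
  have hphi : D.Phi (fun x => B'.f (1, x)) E := ⟨ι '' K', hKc, hK'D, h1, by rw [← e1]; exact hE⟩
  have hsup : SuppU D.U B' := ⟨ι '' K, hK.image_of_continuousOn (hcont K hKO),
    by rintro _ ⟨x, hx, rfl⟩; exact hm (hKO hx), fun t y hy => b3 t y hy⟩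
  have hN : ∃ N : Set R4, IsOpen N ∧ D.L ⊆ N ∧ ∀ p ∈ N, B'.f (1, D.J p) = D.J p := by
    refine ⟨interior {p | D.J p ∉ ι '' K'}, isOpen_interior, fun p hp => ?_, fun p hp => ?_⟩
    · apply mem_interior_iff_mem_nhds.2
      have hc : ContinuousAt D.J p := (D.emb.1 p hp).contMDiffAt.continuousAt
      have hn : D.J p ∉ ι '' K' := fun h => (hK'D h).2 (mem_image_of_mem _ hp)
      exact hc.eventually (hKc.isClosed.isOpen_compl.mem_nhds hn)
    · exact h1 _ (interior_subset hp)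
  refine ⟨B', h0, hsup, hO, fun s hs => ?_, hTCF D B' E h0 hsup hN hphi⟩
  obtain ⟨N, hN1, hN2, hN3⟩ := hN
  have := hN3 (s, 0) (hN2 (D.mem_L hs))
  rwa [D.core s hs] at this

/-- the loop of arcs swept out by a family, made constant outside `[m₀, m₁]` -/
noncomputable def lo (D : ArcD) (B : DFam 𝓘(ℝ, R4) R4) (q s : ℝ) : R4 :=
  open Classical in if s ∈ Icc D.m₀ D.m₁ then B.f (q, D.c s) else D.c s

theorem lo_spec {D : ArcD} {B : DFam 𝓘(ℝ, R4) R4} (hB0 : ∀ x, B.f (0, x) = x) (hBs : SuppU D.U B)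
    (hB1 : ∀ s ∈ Icc D.s₀ D.s₁, B.f (1, D.c s) = D.c s)
    (hfr : ∀ t, ∀ s ∈ Ioo D.s₀ D.s₁, (s < D.m₀ ∨ D.m₁ < s) → B.f (t, D.c s) = D.c s) :
    LoopOK D (lo D B) ∧ (∀ q, ∀ s ∈ Icc D.s₀ D.s₁, lo D B q s = B.f (q, D.c s)) := by
  obtain ⟨K, hK, hKU, hBK⟩ := hBs
  have hJ : ContDiff ℝ ∞ (fun z : ℝ × ℝ => B.f (z.1, D.c z.2)) := by
    have h1 : ContDiff ℝ ∞ (fun z : ℝ × ℝ => D.c z.2) := D.smooth.comp contDiff_snd
    exact contMDiff_iff_contDiff.1 (B.smooth_f.comp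
      (contDiff_fst.contMDiff.prodMk h1.contMDiff))
  have hcl : ∀ t, ∀ s ∈ Icc D.s₀ D.s₁, (s ≤ D.m₀ ∨ D.m₁ ≤ s) → B.f (t, D.c s) = D.c s := by
    intro t s hs hs'
    have hclosed : IsClosed {s | B.f (t, D.c s) = D.c s} := by
      apply isClosed_eq _ D.smooth.continuous
      have h2 : Continuous fun z : ℝ × ℝ => B.f (z.1, D.c z.2) := hJ.continuous
      exact h2.comp (f := fun s : ℝ => (t, s)) (by fun_prop)
    rcases hs' with h | h
    · have h1 : Ioo D.s₀ D.m₀ ⊆ {s | B.f (t, D.c s) = D.c s} := fun s hs =>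
        hfr t s ⟨hs.1, hs.2.trans (D.h₁.trans D.h₂)⟩ (Or.inl hs.2)
      have h2 := closure_minimal h1 hclosed
      rw [closure_Ioo D.h₀.ne] at h2
      exact h2 ⟨hs.1, h⟩
    · have h1 : Ioo D.m₁ D.s₁ ⊆ {s | B.f (t, D.c s) = D.c s} := fun s hs =>
        hfr t s ⟨(D.h₀.trans D.h₁).trans hs.1, hs.2⟩ (Or.inr hs.1)
      have h2 := closure_minimal h1 hclosed
      rw [closure_Ioo D.h₂.ne] at h2
      exact h2 ⟨h, hs.2⟩
  have hval : ∀ q, ∀ s ∈ Icc D.s₀ D.s₁, lo D B q s = B.f (q, D.c s) := by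
    intro q s hs
    unfold lo
    split_ifs with h
    · rfl
    · symm
      apply hcl q s hs
      by_contra h2
      push Not at h2
      exact h ⟨h2.1.le, h2.2.le⟩
  have hout : ∀ q s, (s ≤ D.m₀ ∨ D.m₁ ≤ s) → lo D B q s = D.c s := by
    intro q s hs
    unfold lo
    split_ifs with h
    · apply hcl q s ⟨D.h₀.le.trans h.1, h.2.trans D.h₂.le⟩ hs
    · rfl
  refine ⟨⟨?_, fun q _ s hs => hout q s hs, fun q hq s hs => ?_, fun s => ?_, fun s => ?_⟩, hval⟩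
  · rw [contDiff_iff_contDiffAt]
    rintro ⟨q, s⟩
    by_cases h : s ∈ Ioo D.s₀ D.s₁
    · have h1 : ∀ᶠ z : ℝ × ℝ in 𝓝 (q, s), z.2 ∈ Ioo D.s₀ D.s₁ :=
        continuousAt_snd.eventually (isOpen_Ioo.mem_nhds h)
      refine hJ.contDiffAt.congr_of_eventuallyEq ?_
      filter_upwards [h1] with z hz
      exact hval z.1 z.2 ⟨hz.1.le, hz.2.le⟩
    · have h1 : ∀ᶠ z : ℝ × ℝ in 𝓝 (q, s), z.2 < D.m₀ ∨ D.m₁ < z.2 := by
        have ho : IsOpen {x : ℝ | x < D.m₀ ∨ D.m₁ < x} := isOpen_Iio.union isOpen_Ioi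
        refine continuousAt_snd.eventually (ho.mem_nhds ?_)
        show s < D.m₀ ∨ D.m₁ < s
        by_contra h2
        push Not at h2
        exact h ⟨lt_of_lt_of_le D.h₀ h2.1, lt_of_le_of_lt h2.2 D.h₂⟩
      have h2 : ContDiff ℝ ∞ (fun z : ℝ × ℝ => D.c z.2) := D.smooth.comp contDiff_snd
      refine h2.contDiffAt.congr_of_eventuallyEq ?_
      filter_upwards [h1] with z hz
      exact hout z.1 z.2 (hz.imp le_of_lt le_of_lt)
  · rw [hval q s ⟨D.h₀.le.trans hs.1, hs.2.trans D.h₂.le⟩]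
    have h1 : D.c s ∈ D.U := D.mem s ⟨lt_of_lt_of_le D.h₀ hs.1, lt_of_le_of_lt hs.2 D.h₂⟩
    by_cases h2 : D.c s ∈ K
    · exact hKU (B.mapsTo hBK q h2)
    · rw [hBK q _ h2]
      exact h1
  · unfold lo
    split_ifs
    · exact hB0 _
    · rfl
  · unfold lo
    split_ifs with h
    · exact hB1 s ⟨D.h₀.le.trans h.1, h.2.trans D.h₂.le⟩
    · rfl

theorem cls_congr {D : ArcD} {c c' : ℝ → ℝ → R4} {χ : R4 → R4} (h : D.Cls c χ)
    (e : ∀ q, ∀ s ∈ Icc D.s₀ D.s₁, c' q s = c q s) : D.Cls c' χ := by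
  obtain ⟨J, hJ, hT⟩ := h
  exact ⟨J, fun q hq s hs => (hJ q hq s hs).trans (e q s hs).symm, hT⟩

end XL

end Pool.Agent.Helper27.S5
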