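import Pool.Agent.Helper27.BI.S5.XLa

/-!
# Project BI, stage 5: the two arcs
-/

set_option autoImplicit false
set_option linter.unusedSectionVars false

open scoped Manifold ContDiff Topology ComplexConjugate
open Set Filter Pool.Agent.Helper65.Barb Pool.Agent.Helper18.BI
open Pool.Agent.Helper70.BI (I4 LD NearEq IsW ld_iff)
open Pool.Agent.Helper27.BI (e1)
open Pool.Agent.Helper27.H
open Pool.Agent.Helper18.BI.R (LoopOK SH)

namespace Pool.Agent.Helper27.S5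

namespace XL

section sys
variable {G T T' : R4 → R4} {δ δ' κ β c : ℝ} {D D' : ArcD} {H : DFam 𝓘(ℝ, R4) R4} {a b : ℝ}
  (hs : Sys G T T' δ δ' κ β c D D' H a b)
include hs

theorem s01' {s : ℝ} (h : s ∈ Icc D'.s₀ D'.s₁) : s ∈ Icc (0 : ℝ) 1 :=
  ⟨by linarith [hs.hat'.s₀.1, h.1], by linarith [hs.hat'.s₁.2, h.2]⟩

theorem s01 {s : ℝ} (h : s ∈ Icc D.s₀ D.s₁) : s ∈ Icc (0 : ℝ) 1 :=
  ⟨by linarith [hs.hat.s₀.1, h.1], by linarith [hs.hat.s₁.2, h.2]⟩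

theorem ab01 {s : ℝ} (h : s ∈ Icc a b) : s ∈ Icc (0 : ℝ) 1 :=
  ⟨by linarith [hs.ab.ma.1, h.1], by linarith [hs.ab.mb.2, h.2]⟩

theorem z0_Reg {s : ℝ} (h : s ∈ Icc D'.s₀ D'.s₁) : (s, z0 s) ∈ Reg δ' := by
  have b1 := XF.bge hs.hat' h
  have b2 := bfin_le s
  have b3 := bfin_nonneg s
  obtain ⟨l0, l1⟩ := s01' hs h
  have r := rsq1_z0 s
  have d0 := (Geo.hδ' hs.par).1
  refine ⟨l0, l1, ?_, ?_⟩
  · rw [r]; linarith
  · rw [r]; nlinarith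

theorem z0_K3 {s : ℝ} (h : s ∈ Icc D'.s₀ D'.s₁) : (s, z0 s) ∈ K3 δ' := Geo.Reg_K3 (z0_Reg hs h)

theorem H_z2 (s : ℝ) : H.f (1, (s, P2 β)) = (s, z2 c β s) := Geo.H_P2 hs.th hs.par s

theorem z2_rsq (s : ℝ) :
    1 / 25 - δ' < rsq 1 (s, z2 c β s) ∧ rsq 1 (s, z2 c β s) ≤ 49 / 100 := by
  have h : nsq (((s, P2 β) : R4).2 - P2 β) ≤ κ ^ 2 := by
    show nsq (P2 β - P2 β) ≤ κ ^ 2
    rw [sub_self]
    simp [Geo.nsq_def]
    positivity
  have h1 := Geo.H_near_rsq hs.th hs.par hs.mc h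
  rw [H_z2 hs] at h1
  exact h1

theorem z2_Reg {s : ℝ} (h : s ∈ Icc (0 : ℝ) 1) : (s, z2 c β s) ∈ Reg δ' := by
  obtain ⟨h1, h2⟩ := z2_rsq hs s
  have d0 := (Geo.hδ' hs.par).1
  exact ⟨h.1, h.2, by linarith, h2⟩

theorem z2_K3 {s : ℝ} (h : s ∈ Icc (0 : ℝ) 1) : (s, z2 c β s) ∈ K3 δ' := Geo.Reg_K3 (z2_Reg hs h)

theorem z2_sgi (s : ℝ) : bfin s ^ 2 ≤ κ ^ 2 * rsq 1 (sgi κ β (s, z2 c β s)) := by
  rw [← Geo.nsq_sgi hs.par.k0]
  show _ ≤ nsq (z2 c β s - P2 β)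
  rw [Geo.nsq_z2]
  have : 0 ≤ (1 - lam c s) ^ 2 * β ^ 2 := by positivity
  linarith

theorem z2_out {s : ℝ} (h : s ∈ Icc a b) : 1 / 25 - δ' ≤ rsq 1 (sgi κ β (s, z2 c β s)) := by
  have h1 := z2_sgi hs s
  have h2 : κ ^ 2 * (1 / 25 - δ') ≤ bfin s ^ 2 := by
    rcases eq_or_lt_of_le h.1 with e | h'
    · rw [← e, hs.ab.ea]
    · rcases eq_or_lt_of_le h.2 with e | h''
      · rw [e, hs.ab.eb]
      · exact (hs.ab.ins s ⟨h', h''⟩).le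
  have k := hs.par.k0
  exact le_of_mul_le_mul_left (h2.trans h1) (by positivity)

theorem z2_out' {s : ℝ} (h : s ∈ Ioo a b) : 1 / 25 - δ' < rsq 1 (sgi κ β (s, z2 c β s)) := by
  have h1 := z2_sgi hs s
  have h2 := hs.ab.ins s h
  have k := hs.par.k0
  exact lt_of_mul_lt_mul_left (h2.trans_le h1) (by positivity)

theorem z2_XX {s : ℝ} (h : s ∈ Icc a b) (h' : s ≤ 11 / 25 ∨ 14 / 25 ≤ s) :
    (s, z2 c β s) ∈ XX δ' κ β := by
  refine ⟨z2_Reg hs (ab01 hs h), ?_⟩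
  rintro (h1 | h1)
  · have h2 := z2_out hs h
    have h3 := h1.2.2
    have d0 := (Geo.hδ' hs.par).1
    linarith
  · obtain ⟨h2, h3, -⟩ := h1
    simp only at h2 h3
    rcases h' with h | h <;> linarith

theorem z2_ne (s : ℝ) : z2 c β s ≠ z0 s := by
  intro e
  have h := Geo.nsq_z20 c β s
  rw [e, sub_self] at h
  have h1 := Geo.lam_pos hs.mc s
  have h2 : 0 < β := hs.par.k0.trans hs.par.k1
  have h3 : 0 < (lam c s * β) ^ 2 := by positivity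
  rw [← h] at h3
  simp [Geo.nsq_def] at h3

omit hs in
theorem z2_mid (c β : ℝ) {s : ℝ} (h : s ∈ Icc (43 / 100 : ℝ) (57 / 100)) :
    z2 c β s = ((73 / 100 : ℝ), ((c * β : ℝ) : ℂ)) := by
  rw [Geo.z2_def, Geo.lam_mid c h, bfin_mid ⟨by linarith [h.1], by linarith [h.2]⟩]
  norm_num

theorem injK : InjOn G (K3 δ') := hs.emb.2

theorem wall_K3 : wallS δ' ∪ wall2 δ' κ β ⊆ K3 δ' :=
  (union_subset (Geo.wall_Reg hs.par) (Geo.wall2_Reg hs.par)).trans Geo.Reg_K3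

theorem mem_U2 {p : R4} (hp : p ∈ K3 δ') (h1 : p ∉ wallS δ') (h2 : p ∉ wall2 δ' κ β) :
    G p ∈ U2 G δ' κ β := by
  rintro ⟨q, hq, e⟩
  have := injK hs (wall_K3 hs hq) hp e
  rw [this] at hq
  exact hq.elim h1 h2

theorem z0_U2 {s : ℝ} (h : s ∈ Ioo D'.s₀ D'.s₁) : G (s, z0 s) ∈ U2 G δ' κ β := by
  have h' : s ∈ Icc D'.s₀ D'.s₁ := ⟨h.1.le, h.2.le⟩
  refine mem_U2 hs (z0_K3 hs h') ?_ ?_
  · intro h1
    have h2 := h1.2.2.2
    rw [rsq1_z0] at h2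
    linarith [hs.hat'.b s h]
  · intro h1
    have h2 := Geo.wall2_near hs.par h1
    have e : nsq (z0 s - P2 β) = bfin s ^ 2 + β ^ 2 := by
      rw [Geo.z0_def, Geo.nsq_def]
      unfold P2
      simp
    have h3 : nsq (z0 s - P2 β) ≤ κ ^ 2 := h2
    rw [e] at h3
    have k0 := hs.par.k0
    have k1 := hs.par.k1
    nlinarith [sq_nonneg (bfin s)]

theorem z2_U2 {s : ℝ} (h : s ∈ Ioo a b) : G (s, z2 c β s) ∈ U2 G δ' κ β := by
  have h' : s ∈ Icc a b := ⟨h.1.le, h.2.le⟩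
  refine mem_U2 hs (z2_K3 hs (ab01 hs h')) ?_ ?_
  · intro h1
    exact absurd (z2_rsq hs s).1 (not_lt.2 h1.2.2.2)
  · intro h1
    have h2 : rsq 1 (sgi κ β (s, z2 c β s)) ≤ 1 / 25 - δ' := h1.2.2.2
    exact absurd (z2_out' hs h) (not_lt.2 h2)

theorem mem_A {x : R4} : x ∈ D'.A ↔ ∃ s ∈ Icc D'.s₀ D'.s₁, G (s, z0 s) = x := by
  constructor
  · rintro ⟨p, hp, rfl⟩
    obtain ⟨h1, h2⟩ := eq_of_mem_seg hp
    refine ⟨p.1, h1, ?_⟩
    rw [h2, XF.J_seg hs.hat']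
  · rintro ⟨s, h, rfl⟩
    refine ⟨(s, 0), mem_seg h, ?_⟩
    rw [XF.J_seg hs.hat']

theorem mem_A2 {x : R4} : x ∈ A2 G H β a b ↔ ∃ s ∈ Icc a b, G (s, z2 c β s) = x := by
  constructor
  · rintro ⟨p, ⟨h1, h2, h3⟩, rfl⟩
    refine ⟨p.1, ⟨h2, h3⟩, ?_⟩
    have e : p = (p.1, P2 β) := by rw [← h1]
    show _ = G (H.f (1, p))
    rw [e, H_z2 hs]
  · rintro ⟨s, h, rfl⟩
    refine ⟨(s, P2 β), ⟨rfl, h.1, h.2⟩, ?_⟩
    show G (H.f (1, (s, P2 β))) = _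
    rw [H_z2 hs]

theorem z0_nA2 {s : ℝ} (h : s ∈ Icc D'.s₀ D'.s₁) : G (s, z0 s) ∉ A2 G H β a b := by
  rw [mem_A2 hs]
  rintro ⟨s', h', e⟩
  have e1 := injK hs (z2_K3 hs (ab01 hs h')) (z0_K3 hs h) e
  have e2 : s' = s := congrArg Prod.fst e1
  have e3 : z2 c β s' = z0 s := congrArg Prod.snd e1
  rw [e2] at e3
  exact z2_ne hs s e3

theorem z2_nA {s : ℝ} (h : s ∈ Icc a b) : G (s, z2 c β s) ∉ D'.A := by
  rw [mem_A hs]
  rintro ⟨s', h', e⟩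
  have e1 := injK hs (z0_K3 hs h') (z2_K3 hs (ab01 hs h)) e
  have e2 : s' = s := congrArg Prod.fst e1
  have e3 : z0 s' = z2 c β s := congrArg Prod.snd e1
  rw [e2] at e3
  exact z2_ne hs s e3.symm

theorem isClosed_walls : IsClosed (wallS δ' ∪ wall2 δ' κ β) :=
  (Geo.isClosed_wallS δ').union (Geo.isClosed_wall2 δ' κ β)

theorem contG {L : Set R4} (h : L ⊆ K3 δ') : ContinuousOn G L := fun p hp =>
  (hs.emb.1 p (h hp)).contMDiffAt.continuousAt.continuousWithinAt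

theorem isOpen_U2 : IsOpen (U2 G δ' κ β) := by
  have h1 : IsCompact (wallS δ' ∪ wall2 δ' κ β) :=
    (isCompact_K3 δ').of_isClosed_subset (isClosed_walls hs) (wall_K3 hs)
  exact (h1.image_of_continuousOn (contG hs (wall_K3 hs))).isClosed.isOpen_compl

theorem XX_K3 : XX δ' κ β ⊆ K3 δ' := fun _ h => Geo.Reg_K3 h.1

theorem X_U2 : (G '' XX δ' κ β)ᶜ ⊆ U2 G δ' κ β :=
  compl_subset_compl.2 (image_mono (union_subset (Geo.wall_XX hs.par) (Geo.wall2_XX hs.par)))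

theorem isCompact_A : IsCompact D'.A := by
  have h : ContinuousOn D'.J D'.L := fun p hp =>
    (D'.emb.1 p hp).contMDiffAt.continuousAt.continuousWithinAt
  exact D'.isCompact_L.image_of_continuousOn h

theorem isCompact_ar (x : R3) (u v : ℝ) : IsCompact (ar x u v) := by
  have e : ar x u v = (fun s : ℝ => ((s, x) : R4)) '' Icc u v := by
    ext p
    constructor
    · rintro ⟨h1, h2, h3⟩
      exact ⟨p.1, ⟨h2, h3⟩, by rw [← h1]⟩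
    · rintro ⟨s, h, rfl⟩
      exact ⟨rfl, h.1, h.2⟩
  rw [e]
  exact isCompact_Icc.image (by fun_prop)

theorem isCompact_A2 : IsCompact (A2 G H β a b) := by
  have h1 : ContDiff ℝ ∞ (fun p : R4 => H.f (1, p)) :=
    contMDiff_iff_contDiff.1 (H.smooth_f.comp (contMDiff_const.prodMk contMDiff_id))
  unfold A2 GH
  refine (isCompact_ar hs (P2 β) a b).image_of_continuousOn ?_
  intro p hp
  have e : p = (p.1, P2 β) := by rw [← hp.1]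
  have h2 : H.f (1, p) ∈ K3 δ' := by
    rw [e, H_z2 hs]
    exact z2_K3 hs (ab01 hs ⟨hp.2.1, hp.2.2⟩)
  have h3 : ContinuousAt G (H.f (1, p)) := (hs.emb.1 _ h2).contMDiffAt.continuousAt
  exact (ContinuousAt.comp (f := fun p : R4 => H.f (1, p)) h3
    h1.continuous.continuousAt).continuousWithinAt

end sys

end XL

end Pool.Agent.Helper27.S5
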