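import Pool.Agent.Helper27.BI.S5.XLb

/-!
# Project BI, stage 5: the motion of the two arcs
-/

set_option autoImplicit false
set_option linter.unusedSectionVars false

open scoped Manifold ContDiff Topology ComplexConjugate
open Set Filter Pool.Agent.Helper65.Barb Pool.Agent.Helper18.BI
open Pool.Agent.Helper70.BI (I4 LD NearEq IsW ld_iff embOn_comp ld_dfam contDiff_dfam)
open Pool.Agent.Helper27.BI (e1)
open Pool.Agent.Helper27.H
open Pool.Agent.Helper18.BI.R (LoopOK SH)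

namespace Pool.Agent.Helper27.S5

namespace XL

theorem ld_eventually {G : R4 → R4} {p : R4} (h : LD G p) {P : R4 → Prop}
    (hP : ∀ᶠ q in 𝓝 p, P (G q)) : ∀ᶠ y in 𝓝 (G p), P y := by
  obtain ⟨Φ, hp, he⟩ := h
  have hG : G p = Φ p := he hp
  have ht : G p ∈ Φ.target := by rw [hG]; exact Φ.map_source hp
  have hs : Φ.symm (G p) = p := by
    rw [hG]
    exact Φ.left_inv hp
  have hc : ContinuousAt Φ.symm (G p) :=
    (Φ.contMDiffOn_invFun.continuousOn).continuousAt (Φ.open_target.mem_nhds ht)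
  have h1 : ∀ᶠ y in 𝓝 (G p), P (G (Φ.symm y)) := by
    have hP' : ∀ᶠ q in 𝓝 (Φ.symm (G p)), P (G q) := by rw [hs]; exact hP
    exact hc.eventually hP'
  filter_upwards [h1, Φ.open_target.mem_nhds ht] with y hy hyt
  have hys : Φ.symm y ∈ Φ.source := Φ.map_target hyt
  have e : G (Φ.symm y) = y := (he hys).trans (Φ.right_inv hyt)
  rwa [e] at hy

/-- a small scale -/
theorem exists_n {N : Set R4} (hN : IsOpen N) (h : seg (11 / 25) (14 / 25) ⊆ N) :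
    ∃ n : ℕ, ∀ s ∈ Icc (11 / 25 : ℝ) (14 / 25), ∀ y : R3,
      nsq y ≤ (1 / ((n : ℝ) + 2) * (41 / 200)) ^ 2 → (s, y) ∈ N ∧ nsq y ≤ (1 / 50) ^ 2 := by
  obtain ⟨u, v, hu, hv, hsu, h0v, huv⟩ := generalized_tube_lemma
    (s := Icc (11 / 25 : ℝ) (14 / 25)) (t := ({0} : Set R3)) isCompact_Icc isCompact_singleton hN
    (by
      rintro ⟨s, y⟩ ⟨h1, h2⟩
      rw [mem_singleton_iff] at h2
      simp only at h1 h2
      rw [h2]
      exact h ⟨h1.1, h1.2, rfl⟩)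
  obtain ⟨ρ, hρ, hb⟩ := Metric.isOpen_iff.1 hv 0 (h0v rfl)
  obtain ⟨n, hn⟩ := exists_nat_one_div_lt (show 0 < min ρ (1 / 50) by positivity)
  refine ⟨n, fun s hs y hy => ?_⟩
  have hc0 : (0 : ℝ) < 1 / ((n : ℝ) + 2) := by positivity
  have hc1 : 1 / ((n : ℝ) + 2) < min ρ (1 / 50) := by
    refine lt_of_le_of_lt ?_ hn
    apply one_div_le_one_div_of_le (by positivity)
    linarith
  have hc2 : 1 / ((n : ℝ) + 2) * (41 / 200) < min ρ (1 / 50) := by nlinarith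
  set r : ℝ := 1 / ((n : ℝ) + 2) * (41 / 200) with hr
  have r0 : 0 ≤ r := by positivity
  have hnorm : ‖y‖ ≤ r := by
    rw [Geo.nsq_def] at hy
    rw [Prod.norm_def]
    apply max_le
    · rw [Real.norm_eq_abs]
      apply abs_le_of_sq_le_sq _ r0
      nlinarith [sq_nonneg y.2.re, sq_nonneg y.2.im]
    · apply abs_le_of_sq_le_sq' _ r0 |>.2
      rw [← Complex.normSq_eq_norm_sq, Complex.normSq_apply]
      nlinarith [sq_nonneg y.1]
  constructor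
  · apply huv
    refine ⟨hsu hs, hb ?_⟩
    rw [Metric.mem_ball, dist_zero_right]
    exact lt_of_le_of_lt hnorm (hc2.trans_le (min_le_left _ _))
  · refine hy.trans ?_
    apply pow_le_pow_left₀ r0
    exact hc2.le.trans (min_le_right _ _)

/-- the data of a motion of the two arcs -/
structure Mov (G : R4 → R4) (δ' κ β c : ℝ) (D : ArcD) (cc : ℝ → ℝ → R4) (F : DFam 𝓘(ℝ, R4) R4)
    (a b : ℝ) : Prop where
  F0 : ∀ x, F.f (0, x) = x
  supp : SuppU (G '' XX δ' κ β)ᶜ F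
  track : ∀ t ∈ Icc (0 : ℝ) 1, ∀ s ∈ Icc D.s₀ D.s₁, F.f (t, G (s, z0 s)) = cc (step t) s
  near : ∀ s ∈ Icc (11 / 25 : ℝ) (14 / 25), ∀ y : R3, nsq y ≤ (c * (41 / 200)) ^ 2 →
    ∀ᶠ x in 𝓝 (G (s, z0 s + y)), F.f (1, x) = x
  fro : ∀ t ∈ Icc (0 : ℝ) 1, ∀ s ∈ Icc (11 / 25 : ℝ) (14 / 25), (s < 9 / 20 ∨ 11 / 20 < s) →
    F.f (t, G (s, z2 c β s)) = G (s, z2 c β s)
  off : ∀ q ∈ Icc (0 : ℝ) 1, ∀ s ∈ Icc (9 / 20 : ℝ) (11 / 20), cc q s ∉ G '' XX δ' κ β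
  off2 : ∀ q ∈ Icc (0 : ℝ) 1, ∀ s ∈ Icc (9 / 20 : ℝ) (11 / 20), ∀ s' ∈ Icc a b,
    cc q s ≠ G (s', z2 c β s')
  loop : LoopOK D cc

section sys
variable {G T T' : R4 → R4} {δ δ' κ β c : ℝ} {D D' : ArcD} {H : DFam 𝓘(ℝ, R4) R4} {a b : ℝ}
  (hs : Sys G T T' δ δ' κ β c D D' H a b)
include hs

/-- the arc `D'` is in the forbidden region off the levels of the channel -/
theorem z0_XX' {s : ℝ} (h : s ∈ Icc D'.s₀ D'.s₁) (h' : s ≤ 11 / 25 ∨ 14 / 25 ≤ s) :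
    (s, z0 s) ∈ XX δ' κ β := by
  refine ⟨z0_Reg hs h, ?_⟩
  rintro (h1 | h1)
  · have h2 := Geo.hol_near hs.par h1
    have e : nsq (z0 s - P2 β) = bfin s ^ 2 + β ^ 2 := by
      rw [Geo.z0_def, Geo.nsq_def]
      unfold P2
      simp
    have h3 : nsq (z0 s - P2 β) ≤ κ ^ 2 := h2
    rw [e] at h3
    have k0 := hs.par.k0
    have k1 := hs.par.k1
    nlinarith [sq_nonneg (bfin s)]
  · obtain ⟨h2, h3, -⟩ := h1
    simp only at h2 h3
    rcases h' with h | h <;> linarith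

theorem mid_D {s : ℝ} (h : s ∈ Icc (11 / 25 : ℝ) (14 / 25)) : s ∈ Icc D.s₀ D.s₁ :=
  ⟨by linarith [hs.hat.s₀.2, h.1], by linarith [hs.hat.s₁.1, h.2]⟩

theorem mid_D' {s : ℝ} (h : s ∈ Icc (11 / 25 : ℝ) (14 / 25)) : s ∈ Icc D'.s₀ D'.s₁ :=
  ⟨by linarith [hs.hat'.s₀.2, h.1], by linarith [hs.hat'.s₁.1, h.2]⟩

variable {cc : ℝ → ℝ → R4} {F : DFam 𝓘(ℝ, R4) R4} (hM : Mov G δ' κ β c D cc F a b)
include hM

theorem F_fix {x : R4} (h : x ∈ G '' XX δ' κ β) (t : ℝ) : F.f (t, x) = x := by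
  obtain ⟨K, -, hK, hF⟩ := hM.supp
  exact hF t x (fun h' => hK h' h)

theorem F_z0_out {s : ℝ} (h : s ∈ Icc D'.s₀ D'.s₁) (h' : s ≤ 11 / 25 ∨ 14 / 25 ≤ s) (t : ℝ) :
    F.f (t, G (s, z0 s)) = G (s, z0 s) :=
  F_fix hs hM (mem_image_of_mem _ (z0_XX' hs h h')) t

theorem F_z2_out {s : ℝ} (h : s ∈ Icc a b) (h' : s ≤ 11 / 25 ∨ 14 / 25 ≤ s) (t : ℝ) :
    F.f (t, G (s, z2 c β s)) = G (s, z2 c β s) :=
  F_fix hs hM (mem_image_of_mem _ (z2_XX hs h h')) t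

/-- off the moving part the arc is fixed -/
theorem F_z0_fro {s : ℝ} (h : s ∈ Icc D'.s₀ D'.s₁) (h' : s ≤ 9 / 20 ∨ 11 / 20 ≤ s) {t : ℝ}
    (ht : t ∈ Icc (0 : ℝ) 1) : F.f (t, G (s, z0 s)) = G (s, z0 s) := by
  by_cases h1 : s ≤ 11 / 25 ∨ 14 / 25 ≤ s
  · exact F_z0_out hs hM h h1 t
  · push Not at h1
    have h2 := mid_D hs ⟨h1.1.le, h1.2.le⟩
    rw [hM.track t ht s h2, hM.loop.froz _ (step_mem t) s (by rw [hs.hat.m₀, hs.hat.m₁]; exact h'),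
      XF.c_eq hs.hat h2]

theorem F_z2_fro {s : ℝ} (h : s ∈ Icc a b) (h' : s < 9 / 20 ∨ 11 / 20 < s) {t : ℝ}
    (ht : t ∈ Icc (0 : ℝ) 1) : F.f (t, G (s, z2 c β s)) = G (s, z2 c β s) := by
  by_cases h1 : s ≤ 11 / 25 ∨ 14 / 25 ≤ s
  · exact F_z2_out hs hM h h1 t
  · push Not at h1
    exact hM.fro t ht s ⟨h1.1.le, h1.2.le⟩ h'

/-- the two arcs stay disjoint -/
theorem F_off {s : ℝ} (h : s ∈ Icc D'.s₀ D'.s₁) {t : ℝ} (ht : t ∈ Icc (0 : ℝ) 1) :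
    F.f (t, G (s, z0 s)) ∉ A2 G H β a b := by
  by_cases h1 : s ≤ 9 / 20 ∨ 11 / 20 ≤ s
  · rw [F_z0_fro hs hM h h1 ht]
    exact z0_nA2 hs h
  · push Not at h1
    have h2 := mid_D hs (s := s) ⟨by linarith [h1.1], by linarith [h1.2]⟩
    rw [hM.track t ht s h2, mem_A2 hs]
    rintro ⟨s', h', e⟩
    exact hM.off2 _ (step_mem t) s ⟨h1.1.le, h1.2.le⟩ s' h' e.symm

/-- the end of the motion is the identity near the two arcs and near the small ball dragged by the finger -/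
theorem F_near_A {x : R4} (h : x ∈ D'.A) : ∀ᶠ y in 𝓝 x, F.f (1, y) = y := by
  obtain ⟨s, hs', rfl⟩ := (mem_A hs).1 h
  by_cases h1 : s ≤ 11 / 25 ∨ 14 / 25 ≤ s
  · obtain ⟨K, hK, hKs, hF⟩ := hM.supp
    have hn : G (s, z0 s) ∉ K := fun h' => hKs h' (mem_image_of_mem _ (z0_XX' hs hs' h1))
    filter_upwards [hK.isClosed.isOpen_compl.mem_nhds hn] with y hy
    exact hF 1 y hy
  · push Not at h1
    have h2 := hM.near s ⟨h1.1.le, h1.2.le⟩ 0 (by simp [Geo.nsq_def]; positivity)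
    rw [add_zero] at h2
    exact h2

theorem F_near_A2 {x : R4} (h : x ∈ A2 G H β a b) : ∀ᶠ y in 𝓝 x, F.f (1, y) = y := by
  obtain ⟨s, hs', rfl⟩ := (mem_A2 hs).1 h
  by_cases h1 : s ≤ 11 / 25 ∨ 14 / 25 ≤ s
  · obtain ⟨K, hK, hKs, hF⟩ := hM.supp
    have hn : G (s, z2 c β s) ∉ K := fun h' => hKs h' (mem_image_of_mem _ (z2_XX hs hs' h1))
    filter_upwards [hK.isClosed.isOpen_compl.mem_nhds hn] with y hy
    exact hF 1 y hy
  · push Not at h1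
    have hb : 0 < β := hs.par.k0.trans hs.par.k1
    have hb1 : β < 1 / 5 := by linarith [Geo.num_hi hs.par, hs.par.k0]
    have h2 := hM.near s ⟨h1.1.le, h1.2.le⟩ ((lam c s * β) • eu) (by
      rw [Geo.lam_mid c ⟨by linarith [h1.1], by linarith [h1.2]⟩, Pool.Agent.Helper27.H.nsq_smul]
      have : nsq eu = 1 := by simp [Geo.nsq_def, eu]
      rw [this, mul_one]
      have c0 := hs.mc.1
      apply pow_le_pow_left₀ (by positivity)
      nlinarith)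
    exact h2

theorem F_near_tb {x : R4} (h : x ∈ G '' tb c) : ∀ᶠ y in 𝓝 x, F.f (1, y) = y := by
  obtain ⟨p, ⟨h1, h2, h3⟩, rfl⟩ := h
  have h4 := hM.near p.1 ⟨h1.le, h2.le⟩ (p.2 - z0 p.1) h3
  rw [add_sub_cancel] at h4
  exact h4

/-- a compact set containing the support of the end of the motion -/
theorem exists_K : ∃ K : Set R4, IsCompact K ∧ K ⊆ (G '' XX δ' κ β)ᶜ ∧ Disjoint K (G '' tb c) ∧
    (∀ x, x ∉ K → F.f (1, x) = x) := by
  obtain ⟨K, hK, hKs, hF⟩ := hM.supp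
  refine ⟨K \ interior {x | F.f (1, x) = x}, hK.diff isOpen_interior,
    sdiff_subset.trans hKs, ?_, fun x hx => ?_⟩
  · rw [Set.disjoint_left]
    rintro x ⟨-, h1⟩ h2
    exact h1 (mem_interior_iff_mem_nhds.2 (F_near_tb hs hM h2))
  · by_cases h : x ∈ K
    · have h1 : x ∈ interior {x | F.f (1, x) = x} := by
        by_contra h2
        exact hx ⟨h, h2⟩
      have h3 : x ∈ {x | F.f (1, x) = x} := interior_subset h1
      exact h3
    · exact hF 1 x h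

end sys

end XL

end Pool.Agent.Helper27.S5
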