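import Pool.Agent.Helper27.BI.S5.XLc
import Pool.Agent.Helper70.BI.StL

/-!
# Project BI, stage 5: the module XL
-/

set_option autoImplicit false
set_option linter.unusedSectionVars false

open scoped Manifold ContDiff Topology ComplexConjugate
open Set Filter Pool.Agent.Helper65.Barb Pool.Agent.Helper18.BI
open Pool.Agent.Helper70.BI (I4 LD NearEq IsW ld_iff embOn_comp ld_dfam contDiff_dfam
  contDiff_dfam_inv StMWL)
open Pool.Agent.Helper27.BI (e1)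
open Pool.Agent.Helper27.H
open Pool.Agent.Helper18.BI.R (LoopOK SH StHCL HasCl shp)

namespace Pool.Agent.Helper27.S5

namespace XL

/-- homotopic loops of arcs have the same class up to `W`, with a square in between -/
theorem wr_of_sh2 (hHCL : StHCL) {D : ArcD} {c f c' : ℝ → ℝ → R4} {W χ χ' : R4 → R4}
    (hW : IsW W) (h : LoopOK D c) (h' : LoopOK D c') (hs : SH D c f) (hs' : SH D f c')
    (hχ : D.Cls c χ) (hχ' : D.Cls c' χ') :
    CIsot I4 χ' χ ∨ CIsot I4 χ' (fun x => W (χ x)) := by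
  have h1 : HasCl D 0 (fun q s => f q s - D.c s) χ := ⟨c, h, hχ, by rw [shp_zero]; exact hs⟩
  have h3 : HasCl D 0 (fun q s => c' q s - D.c s) χ := by
    refine (hHCL D 0).2.2.2.1 _ _ χ h1 ?_
    rw [shp_zero, shp_zero]
    exact hs'
  have h2 : HasCl D 0 (fun q s => c' q s - D.c s) χ' :=
    ⟨c', h', hχ', by rw [shp_zero]; exact sh_refl h'⟩
  exact (hHCL D 0).2.2.2.2.2.2 W _ χ χ' hW h3 h2

theorem shrink {F : DFam 𝓘(ℝ, R4) R4} {O C : Set R4} (hF : SuppU O F)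
    (h : ∀ x ∈ C, ∀ᶠ y in 𝓝 x, F.f (1, y) = y) :
    ∃ K : Set R4, IsCompact K ∧ K ⊆ O \ C ∧ ∀ x, x ∉ K → F.f (1, x) = x := by
  obtain ⟨K, hK, hKs, hFK⟩ := hF
  refine ⟨K \ interior {x | F.f (1, x) = x}, hK.diff isOpen_interior, ?_, fun x hx => ?_⟩
  · rintro x ⟨h1, h2⟩
    exact ⟨hKs h1, fun h3 => h2 (mem_interior_iff_mem_nhds.2 (h x h3))⟩
  · by_cases h : x ∈ K
    · have h1 : x ∈ interior {x | F.f (1, x) = x} := by
        by_contra h2
        exact hx ⟨h, h2⟩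
      have h3 : x ∈ {x | F.f (1, x) = x} := interior_subset h1
      exact h3
    · exact hFK 1 x h

theorem sdiff_of {F : DFam 𝓘(ℝ, R4) R4} {K : Set R4} (h : ∀ x, x ∉ K → F.f (1, x) = x) :
    SDiff K (fun x => F.f (1, x)) (fun x => F.g (1, x)) := by
  refine ⟨?_, ?_, fun p => F.fg 1 p, fun p => F.gf 1 p, h⟩
  · exact (contDiff_dfam F).comp (contDiff_const.prodMk contDiff_id)
  · exact (contDiff_dfam_inv F).comp (contDiff_const.prodMk contDiff_id)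

theorem maps_of {F : DFam 𝓘(ℝ, R4) R4} {K : Set R4} (h : ∀ x, x ∉ K → F.f (1, x) = x) :
    MapsTo (fun x => F.f (1, x)) K K := fun x hx =>
  (F.freeze 1).mapsTo (K := K) (fun _ y hy => h y hy) 0 hx

section sys
variable {G T T' : R4 → R4} {δ δ' κ β c : ℝ} {D D' : ArcD} {H : DFam 𝓘(ℝ, R4) R4} {a b : ℝ}
  (hs : Sys G T T' δ δ' κ β c D D' H a b)
include hs

/-- the map `G ∘ H.f (1, ·)` near the first arc -/
theorem emb_J : EmbOn I4 (fun p => G (H.f (1, p))) (ar e1 D'.s₀ D'.s₁) := by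
  have h1 : EmbOn I4 (fun p : R4 => H.f (1, p)) (ar e1 D'.s₀ D'.s₁) :=
    ⟨fun p _ => ld_dfam H 1 p, fun p _ q _ h => by
      have := congrArg (fun x => H.g (1, x)) h
      simpa only [H.gf] using this⟩
  refine embOn_comp hs.emb h1 ?_
  rintro p ⟨h2, h3, h4⟩
  have e : p = (p.1, e1) := by rw [← h2]
  rw [e, hs.th.line]
  exact z0_K3 hs ⟨h3, h4⟩

theorem J_z0 (s : ℝ) : G (H.f (1, (s, e1))) = G (s, z0 s) := by rw [hs.th.line]

theorem J_A : (fun p => G (H.f (1, p))) '' ar e1 D'.s₀ D'.s₁ = D'.A := by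
  ext x
  rw [mem_A hs]
  constructor
  · rintro ⟨p, ⟨h2, h3, h4⟩, rfl⟩
    have e : p = (p.1, e1) := by rw [← h2]
    refine ⟨p.1, ⟨h3, h4⟩, ?_⟩
    show _ = G (H.f (1, p))
    rw [e, J_z0 hs]
  · rintro ⟨s, h, rfl⟩
    exact ⟨(s, e1), ⟨rfl, h.1, h.2⟩, J_z0 hs s⟩

variable {cc : ℝ → ℝ → R4} {F : DFam 𝓘(ℝ, R4) R4} (hM : Mov G δ' κ β c D cc F a b)
include hM

/-- the splitting -/
theorem split (hSPL : StSPL) : ∃ A B : DFam 𝓘(ℝ, R4) R4, (∀ x, A.f (0, x) = x) ∧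
    (∀ x, B.f (0, x) = x) ∧ SuppU (U2 G δ' κ β \ A2 G H β a b) A ∧
    SuppU (U2 G δ' κ β \ D'.A) B ∧
    (∀ t, ∀ s ∈ Icc D'.s₀ D'.s₁, A.f (t, G (s, z0 s)) = F.f (step (step t), G (s, z0 s))) ∧
    (∀ t x, A.f (t, B.f (t, x)) = F.f (step (step t), x)) ∧
    (∀ x ∈ D'.A, ∀ᶠ y in 𝓝 x, A.f (1, y) = y) ∧
    ∀ x ∈ A2 G H β a b, ∀ᶠ y in 𝓝 x, B.f (1, y) = y := by
  have hFU : SuppU (U2 G δ' κ β) F := hM.supp.mono (X_U2 hs)
  obtain ⟨A, B, hA0, hB0, hA, hB, ⟨N, hN, hCN, hAN⟩, hAB⟩ := hSPL (U2 G δ' κ β)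
    (ar e1 D'.s₀ D'.s₁) (ar (P2 β) a b) (fun p => G (H.f (1, p))) F (isOpen_U2 hs)
    (isCompact_ar hs e1 _ _) (isCompact_ar hs (P2 β) a b) (emb_J hs) (isCompact_A2 hs) hM.F0 hFU
    (by
      rintro t ht p ⟨h2, h3, h4⟩
      have e : p = (p.1, e1) := by rw [← h2]
      show F.f (t, G (H.f (1, p))) ∉ A2 G H β a b
      rw [e, J_z0 hs]
      exact F_off hs hM ⟨h3, h4⟩ ht)
  have hA' : SuppU (U2 G δ' κ β \ A2 G H β a b) A := hA
  rw [J_A hs] at hB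
  have st1 : step (step 1) = 1 := by
    rw [Pool.Agent.Helper27.BI.step_one, Pool.Agent.Helper27.BI.step_one]
  have htr : ∀ t, ∀ s ∈ Icc D'.s₀ D'.s₁,
      A.f (t, G (s, z0 s)) = F.f (step (step t), G (s, z0 s)) := by
    intro t s h
    have h1 := hAN t (s, e1) (hCN ⟨rfl, h.1, h.2⟩)
    rw [J_z0 hs] at h1
    exact h1
  refine ⟨A, B, hA0, hB0, hA', hB, htr, hAB, ?_, ?_⟩
  · intro x hx
    obtain ⟨s, h, rfl⟩ := (mem_A hs).1 hx
    have hC : ((s, e1) : R4) ∈ ar e1 D'.s₀ D'.s₁ := ⟨rfl, h.1, h.2⟩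
    have hLD : LD (fun p => G (H.f (1, p))) (s, e1) := (emb_J hs).1 _ hC
    have hc : ContinuousAt (fun p => G (H.f (1, p))) (s, e1) := hLD.contMDiffAt.continuousAt
    have h1 := F_near_A hs hM hx
    rw [← J_z0 hs] at h1 ⊢
    apply ld_eventually hLD
    have h2 : ∀ᶠ p in 𝓝 ((s, e1) : R4), F.f (1, G (H.f (1, p))) = G (H.f (1, p)) :=
      hc.eventually h1
    filter_upwards [h2, hN.mem_nhds (hCN hC)] with p hp1 hp2
    have h3 := hAN 1 p hp2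
    rw [st1] at h3
    rw [h3, hp1]
  · intro x hx
    obtain ⟨K, hK, hKs, hAK⟩ := hA'
    have hn : x ∉ K := fun h => (hKs h).2 hx
    filter_upwards [F_near_A2 hs hM hx, hK.isClosed.isOpen_compl.mem_nhds hn] with y hy1 hy2
    have h1 := hAB 1 y
    rw [st1, hy1] at h1
    have h2 := A.gf 1 (B.f (1, y))
    rw [h1] at h2
    have h3 := A.gf 1 y
    rw [hAK 1 y hy2] at h3
    rw [← h2, h3]

end sys

end XL

end Pool.Agent.Helper27.S5
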