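import Pool.Agent.Helper27.BI.S5.XLd

/-!
# Project BI, stage 5: the two factors
-/

set_option autoImplicit false
set_option linter.unusedSectionVars false

open scoped Manifold ContDiff Topology ComplexConjugate
open Set Filter Pool.Agent.Helper65.Barb Pool.Agent.Helper18.BI
open Pool.Agent.Helper70.BI (I4 LD NearEq IsW ld_iff embOn_comp ld_dfam contDiff_dfam
  contDiff_dfam_inv StMWL)
open Pool.Agent.Helper27.BI (e1)
open Pool.Agent.Helper27.H
open Pool.Agent.Helper18.BI.R (LoopOK SH StHCL HasCl shp)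

namespace Pool.Agent.Helper27.S5

namespace XL

section sys
variable {G T T' : R4 → R4} {δ δ' κ β c : ℝ} {D D' : ArcD} {H : DFam 𝓘(ℝ, R4) R4} {a b : ℝ}
  (hs : Sys G T T' δ δ' κ β c D D' H a b)
  {cc : ℝ → ℝ → R4} {F : DFam 𝓘(ℝ, R4) R4} (hM : Mov G δ' κ β c D cc F a b)
include hs hM

/-- the moving arc is off the walls and the second arc -/
theorem cc_mem {q s : ℝ} (hq : q ∈ Icc (0 : ℝ) 1) (h : s ∈ Icc (9 / 20 : ℝ) (11 / 20)) :
    cc q s ∈ U2 G δ' κ β \ A2 G H β a b := by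
  refine ⟨X_U2 hs (hM.off q hq s h), ?_⟩
  rw [mem_A2 hs]
  rintro ⟨s', h', e⟩
  exact hM.off2 q hq s h s' h' e.symm

theorem mem1 {s : ℝ} (h : s ∈ Icc (9 / 20 : ℝ) (11 / 20)) : s ∈ Icc (11 / 25 : ℝ) (14 / 25) :=
  ⟨by linarith [h.1], by linarith [h.2]⟩

theorem dd {s : ℝ} (h : s ∈ Icc (9 / 20 : ℝ) (11 / 20)) : D'.c s = D.c s := by
  have h1 := mem1 hs hM h
  rw [XF.c_eq hs.hat' (mid_D' hs h1), XF.c_eq hs.hat (mid_D hs h1)]

/-- the moving loop as a loop of the second datum -/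
theorem loop' : LoopOK D' (fun q s => cc q s + (D'.c s - D.c s)) where
  smooth := by
    have h1 := hM.loop.smooth
    have h2 : ContDiff ℝ ∞ (fun z : ℝ × ℝ => D'.c z.2) := D'.smooth.comp contDiff_snd
    have h3 : ContDiff ℝ ∞ (fun z : ℝ × ℝ => D.c z.2) := D.smooth.comp contDiff_snd
    exact h1.add (h2.sub h3)
  froz q hq s h := by
    rw [hs.hat'.m₀, hs.hat'.m₁] at h
    rw [hM.loop.froz q hq s (by rw [hs.hat.m₀, hs.hat.m₁]; exact h)]
    abel
  inU q hq s h := by
    rw [hs.hat'.m₀, hs.hat'.m₁] at h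
    rw [dd hs hM h, sub_self, add_zero]
    have h1 := (cc_mem hs hM hq h).1
    rw [hs.hat'.U]
    intro h2
    exact h1 (image_mono subset_union_left h2)
  start s := by rw [hM.loop.start]; abel
  stop s := by rw [hM.loop.stop]; abel

/-- the first factor -/
theorem factor1 (hPF : StPF) (hTCF : StTCF) (hIO1 : StIO1) (hIO2 : StIO2) (hIO3 : StIO3)
    (hHCL : StHCL) {A : DFam 𝓘(ℝ, R4) R4} (hA0 : ∀ x, A.f (0, x) = x)
    (hA : SuppU (U2 G δ' κ β \ A2 G H β a b) A)
    (hAt : ∀ t, ∀ s ∈ Icc D'.s₀ D'.s₁,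
      A.f (t, G (s, z0 s)) = F.f (step (step t), G (s, z0 s)))
    {K' : Set R4} (hK' : IsCompact K') (hK's : K' ⊆ U2 G δ' κ β \ (D'.A ∪ A2 G H β a b))
    (hAK : ∀ x, x ∉ K' → A.f (1, x) = x) {W χ' : R4 → R4} (hW : IsW W)
    (hχ' : D'.Cls (fun q s => cc q s + (D'.c s - D.c s)) χ') :
    CIsot I4 (imp (EE G H δ' κ β) K' (fun x => A.f (1, x)))
      (imp (EE G H δ' κ β) K' (fun x => A.f (1, x))) ∧
    (CIsot I4 χ' (imp (EE G H δ' κ β) K' (fun x => A.f (1, x))) ∨
      CIsot I4 χ' (fun x => W (imp (EE G H δ' κ β) K' (fun x => A.f (1, x)) x))) := by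
  set E : R4 → R4 := imp (EE G H δ' κ β) K' (fun x => A.f (1, x)) with hE
  obtain ⟨hio, hiom, hiof⟩ := hIO1 G T T' δ δ' κ β c D D' H a b hs
  obtain ⟨h1, h2⟩ := hIO2 G T T' δ δ' κ β c D D' H a b hs K' _ _ hK' hK's (sdiff_of hAK)
  have hEE : CIsot I4 E E := ci_trans h2 (ci_symm h2)
  have hK'2 : K' ⊆ U2 G δ' κ β \ A2 G H β a b := fun x hx =>
    ⟨(hK's hx).1, fun h => (hK's hx).2 (Or.inr h)⟩
  obtain ⟨A', a1, a2, a3, a4, a5⟩ := pc hPF hTCF hio hiom hA0 hA hK' hK'2 hAK h1 h2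
  -- the base arc
  have hz : ∀ s ∈ Ioo D'.s₀ D'.s₁, D'.c s = G (s, z0 s) ∧
      G (s, z0 s) ∈ U2 G δ' κ β \ A2 G H β a b ∧ io G H δ' κ β (G (s, z0 s)) = G (s, z0 s) := by
    intro s h
    have h' : s ∈ Icc D'.s₀ D'.s₁ := ⟨h.1.le, h.2.le⟩
    refine ⟨XF.c_eq hs.hat' h', ⟨z0_U2 hs h, z0_nA2 hs h'⟩, ?_⟩
    exact (hiof _ ((mem_A hs).2 ⟨s, h', rfl⟩) (z0_U2 hs h)).self_of_nhds
  have hA'c : ∀ t, ∀ s ∈ Ioo D'.s₀ D'.s₁, A'.f (t, D'.c s) =
      io G H δ' κ β (F.f (step (step t), G (s, z0 s))) := by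
    intro t s h
    obtain ⟨e1, e2, e3⟩ := hz s h
    rw [e1]
    conv_lhs => rw [← e3]
    rw [a3 t _ e2, hAt t s ⟨h.1.le, h.2.le⟩]
  obtain ⟨l1, l2⟩ := lo_spec a1 a2 a4 (by
    intro t s h h'
    rw [hs.hat'.m₀, hs.hat'.m₁] at h'
    rw [hA'c t s h, F_z0_fro hs hM ⟨h.1.le, h.2.le⟩ (h'.imp le_of_lt le_of_lt) (step_mem _),
      (hz s h).2.2, (hz s h).1])
  have hcls : D'.Cls (lo D' A') E := cls_congr a5 l2
  refine ⟨hEE, ?_⟩
  -- the homotopies
  have hmid : ∀ s ∈ Icc (9 / 20 : ℝ) (11 / 20), s ∈ Ioo D'.s₀ D'.s₁ := fun s h =>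
    ⟨by linarith [hs.hat'.s₀.2, h.1], by linarith [hs.hat'.s₁.1, h.2]⟩
  have hval : ∀ q, ∀ s ∈ Icc (9 / 20 : ℝ) (11 / 20),
      lo D' A' q s = io G H δ' κ β (cc (step (step (step q))) s) := by
    intro q s h
    have h3 := hmid s h
    rw [l2 q s ⟨h3.1.le, h3.2.le⟩, hA'c q s h3,
      hM.track _ (step_mem _) s (mid_D hs (mem1 hs hM h))]
  obtain ⟨k, hk1, hk2, hk3⟩ := hIO3 G T T' δ δ' κ β c D D' H a b hs
  have hcc : Continuous fun z : ℝ × ℝ => cc z.1 z.2 := hM.loop.smooth.continuous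
  have hst : Continuous step := contDiff_step.continuous
  have st0 : step (step (step 0)) = 0 := by
    simp only [Pool.Agent.Helper27.BI.step_zero]
  have st1 : step (step (step 1)) = 1 := by
    simp only [Pool.Agent.Helper27.BI.step_one]
  have hbd : ∀ q s, s ∈ Icc (9 / 20 : ℝ) (11 / 20) →
      (q = 0 ∨ q = 1 ∨ s = 9 / 20 ∨ s = 11 / 20) → q ∈ Icc (0 : ℝ) 1 → cc q s = D'.c s := by
    intro q s h h' hq
    rw [dd hs hM h]
    rcases h' with h' | h' | h' | h'
    · rw [h', hM.loop.start]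
    · rw [h', hM.loop.stop]
    · exact hM.loop.froz q hq s (Or.inl (by rw [hs.hat.m₀]; exact h'.le))
    · exact hM.loop.froz q hq s (Or.inr (by rw [hs.hat.m₁]; exact h'.ge))
  refine wr_of_sh2 hHCL hW l1 (loop' hs hM) (f := fun q s => cc (step (step (step q))) s)
    ?_ ?_ hcls hχ'
  · refine ⟨fun z => k (1 - z.1, cc (step (step (step z.2.1))) z.2.2), ?_, ?_, ?_⟩
    · rw [hs.hat'.m₀, hs.hat'.m₁]
      refine hk1.comp (f := fun z : ℝ × ℝ × ℝ => (1 - z.1, cc (step (step (step z.2.1))) z.2.2))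
        ?_ ?_
      · apply Continuous.continuousOn
        refine (continuous_const.sub continuous_fst).prodMk ?_
        exact hcc.comp (f := fun z : ℝ × ℝ × ℝ => (step (step (step z.2.1)), z.2.2))
          ((hst.comp (hst.comp (hst.comp (continuous_fst.comp continuous_snd)))).prodMk
            (continuous_snd.comp continuous_snd))
      · rintro ⟨u, q, s⟩ ⟨hu, hq, h⟩
        simp only at hu hq h
        exact ⟨⟨by linarith [hu.2], by linarith [hu.1]⟩, cc_mem hs hM (step_mem _) h⟩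
    · intro q hq s h
      rw [hs.hat'.m₀, hs.hat'.m₁] at h
      have h3 := hk2 _ (cc_mem hs hM (q := step (step (step q))) (step_mem _) h)
      show k (1 - 0, cc (step (step (step q))) s) = lo D' A' q s ∧
        k (1 - 1, cc (step (step (step q))) s) = cc (step (step (step q))) s
      rw [sub_zero, sub_self, h3.1, h3.2, hval q s h]
      exact ⟨rfl, rfl⟩
    · intro u hu q hq s h
      rw [hs.hat'.m₀, hs.hat'.m₁] at h ⊢
      have h3 := cc_mem hs hM (q := step (step (step q))) (step_mem _) h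
      have hu' : 1 - u ∈ Icc (0 : ℝ) 1 := ⟨by linarith [hu.2], by linarith [hu.1]⟩
      obtain ⟨h4, h5⟩ := hk3 (1 - u) hu' _ h3
      refine ⟨h4, fun hb => ?_⟩
      show k (1 - u, cc (step (step (step q))) s) = D'.c s
      have hb' : step (step (step q)) = 0 ∨ step (step (step q)) = 1 ∨ s = 9 / 20 ∨
          s = 11 / 20 := by
        rcases hb with hb | hb | hb | hb
        · left; rw [hb, st0]
        · right; left; rw [hb, st1]
        · right; right; left; exact hb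
        · right; right; right; exact hb
      have e := hbd _ s h hb' (step_mem _)
      have h6 := hmid s h
      rw [h5 ?_, e]
      rw [e, (hz s h6).1]
      exact (mem_A hs).2 ⟨s, ⟨h6.1.le, h6.2.le⟩, rfl⟩
  · refine ⟨fun z => cc ((1 - z.1) * step (step (step z.2.1)) + z.1 * z.2.1) z.2.2, ?_, ?_, ?_⟩
    · apply Continuous.continuousOn
      refine hcc.comp (f := fun z : ℝ × ℝ × ℝ =>
        ((1 - z.1) * step (step (step z.2.1)) + z.1 * z.2.1, z.2.2)) ?_
      have h3 : Continuous fun z : ℝ × ℝ × ℝ => step (step (step z.2.1)) :=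
        hst.comp (hst.comp (hst.comp (continuous_fst.comp continuous_snd)))
      fun_prop
    · intro q hq s h
      rw [hs.hat'.m₀, hs.hat'.m₁] at h
      refine ⟨by simp, ?_⟩
      show cc ((1 - 1) * step (step (step q)) + 1 * q) s = cc q s + (D'.c s - D.c s)
      rw [dd hs hM h, sub_self, sub_self, add_zero, zero_mul, zero_add, one_mul]
    · intro u hu q hq s h
      rw [hs.hat'.m₀, hs.hat'.m₁] at h ⊢
      have hv : (1 - u) * step (step (step q)) + u * q ∈ Icc (0 : ℝ) 1 := by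
        obtain ⟨h3, h4⟩ := step_mem (step (step q))
        obtain ⟨u0, u1⟩ := hu
        obtain ⟨q0, q1⟩ := hq
        constructor <;> nlinarith
      constructor
      · show cc ((1 - u) * step (step (step q)) + u * q) s ∈ D'.U
        have h1 := (cc_mem hs hM hv h).1
        rw [hs.hat'.U]
        intro h2
        exact h1 (image_mono subset_union_left h2)
      · intro hb
        show cc ((1 - u) * step (step (step q)) + u * q) s = D'.c s
        refine hbd _ s h ?_ hv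
        rcases hb with hb | hb | hb | hb
        · left; rw [hb, st0]; ring
        · right; left; rw [hb, st1]; ring
        · right; right; left; exact hb
        · right; right; right; exact hb

end sys

end XL

end Pool.Agent.Helper27.S5
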